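import Pool.Agent.Lib.MP_f79ffc_lc.U.G.G0a

/-! The focus lemma of the generator. -/

namespace Pool.Agent.Lib.MP_f79ffc_lc.U.Tp

open Pool.Agent.Lib.MP_5d9fac_lc Pool.Agent.Lib.MP_f79ffc_lc.R

variable {R J L : Type} [Preorder R] [Preorder J] [Preorder L] (τ : Tp R J L)

/-- the presentation over the nodes of expanded terms -/
noncomputable abbrev ZQk : Pres τ.Sk := τ.Pg.comap τ.ksh τ.ksh_mono

/-- the cells at the ends of an edge are matched by the condition at the big end -/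
def ZEP : ∀ (_ v : KG τ.a τ.top), List Bool → List Bool → τ.ZQk.P v → Prop
  | .nd k, .nd k', s, s', c => ZMk k k' s s' c.1.b
  | _, _, _, _, _ => True

/-- `Fit` for conditions -/
def ZFitP : ∀ {u : KG τ.a τ.top} (t : Tm (KG τ.a τ.top) u), Fam (fun _ => List Bool) t →
    τ.ZQk.Asg t → Prop
  | _, .var u, s, _ => τ.Cel u s
  | u, .emb (j := v) t _ s, D, c => ZFitP t D.1 c.1 ∧ ZFitP s D.2 c.2 ∧
      τ.ZEP v u (Fam.head s D.2) (Fam.head t D.1) (Fam.head t c.1)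
  | u, .prj (j := v) t _ s, D, c => ZFitP t D.1 c.1 ∧ ZFitP s D.2 c.2 ∧
      τ.ZEP u v (Fam.head t D.1) (Fam.head s D.2) (Fam.head s c.2)

/-- all points of the cell count -/
def ZAct : ∀ u : KG τ.a τ.top, List Bool → τ.ZQk.P u → Prop
  | .root _, _, _ => True
  | .nd k, s, c => ∀ x, In s x → k.act c.1.σ x

/-- the label of the cell -/
def zlab : ∀ u : KG τ.a τ.top, List Bool → τ.ZQk.P u → τ.Tk.X u
  | .root _, _, c => c.1
  | .nd k, s, c => τ.foc k c.1 (app s z0) ⊓ τ.eA _ c.1.a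

/-- the condition is constant on the pieces of depth `n` of the cell -/
def ZCst (n : ℕ) : ∀ u : KG τ.a τ.top, List Bool → τ.ZQk.P u → Prop
  | .root _, _, _ => True
  | .nd k, s, c => ∀ r : List Bool, r.length = n → ∀ x y, In (s ++ r) x → In (s ++ r) y →
      τ.foc k c.1 x = τ.foc k c.1 y ∧ (k.act c.1.σ x → k.act c.1.σ y)

/-- `d` is `c` with the label `w` written on the cell -/
def ZWr : ∀ u : KG τ.a τ.top, List Bool → τ.ZQk.P u → τ.Tk.X u → τ.ZQk.P u → Prop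
  | .root _, _, _, w, d => d.1 = w
  | .nd k, s, c, w, d => d.1 = zwr k s c.1 w

variable {τ} {u v : KG τ.a τ.top} {s s' : List Bool}

theorem ZEP.anti {c d : τ.ZQk.P v} (h : τ.ZEP u v s s' c) (hd : d ≤ c) : τ.ZEP u v s s' d := by
  cases u <;> cases v <;> try trivial
  exact ZMk.mono h hd.b

theorem ZEP.append {c : τ.ZQk.P v} (h : τ.ZEP u v s s' c) (r : List Bool) :
    τ.ZEP u v (s ++ r) (s' ++ r) c := by
  cases u <;> cases v <;> try trivial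
  exact ZMk.append h r

theorem zexists_EP (h : u ≤ v) {c : τ.ZQk.P v} (H : τ.ZQk.em v c ≤ τ.lk u v s s') :
    ∃ d, d ≤ c ∧ τ.ZEP u v s s' d := by
  cases u with
  | root i => exact ⟨c, le_rfl, trivial⟩
  | nd k =>
    cases v with
    | root i => exact h.elim
    | nd k' =>
      have key : ∀ {X : Type} [CompleteBooleanAlgebra X] {x : X}, x ≠ ⊥ →
          (x ≤ ⨆ _ : s = s', ⊤) → s = s' := fun h0 h1 =>
        (exists_inf_ne_bot_of_le h0 h1).elim fun e _ => e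
      cases k <;> cases k' <;> try exact h.elim
      case C0.M =>
        obtain ⟨t, d1, h1, H⟩ := exists_of_em_le_iSup H
        obtain ⟨l, d2, h2, H⟩ := exists_of_em_le_iSup H
        obtain ⟨r, d3, h3, H⟩ := exists_of_em_le_iSup H
        obtain ⟨e, d4, h4, H⟩ := exists_of_em_le_iSup H
        obtain ⟨d5, d6, h5, h6, h7⟩ := exists_of_le_op H
        exact ⟨d5, h5.trans (h4.trans (h3.trans (h2.trans h1))), t, l, r, e.1, e.2,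
          h6.b rfl h7⟩
      all_goals exact ⟨c, le_rfl, key (τ.ZQk.ne _ c) H⟩

theorem ZFitP.anti : ∀ {u : KG τ.a τ.top} (t : Tm (KG τ.a τ.top) u)
    {D : Fam (fun _ => List Bool) t} {c d : τ.ZQk.Asg t}, τ.ZFitP t D c → τ.ZQk.Le t d c →
      τ.ZFitP t D d
  | _, .var _, _, _, _, H, _ => H
  | _, .emb t _ s, _, _, _, H, h =>
    ⟨ZFitP.anti t H.1 h.1, ZFitP.anti s H.2.1 h.2, H.2.2.anti (Pres.Le.head h.1)⟩
  | _, .prj t _ s, _, _, _, H, h =>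
    ⟨ZFitP.anti t H.1 h.1, ZFitP.anti s H.2.1 h.2, H.2.2.anti (Pres.Le.head h.2)⟩

theorem zem_head_le {t : Tm (KG τ.a τ.top) u} {c : τ.ZQk.Asg t} {b : τ.Sk.Asg t}
    (h : τ.Sk.Le t (τ.ZQk.ev t c) b) {p : τ.ZQk.P u} (hp : p ≤ Fam.head t c) :
    τ.ZQk.em u p ≤ Fam.head t b :=
  (τ.ZQk.mono hp).trans ((Pres.head_ev t c).ge.trans (Sys.head_mono h))

theorem zexists_fitP : ∀ {u : KG τ.a τ.top} (t : Tm (KG τ.a τ.top) u)
    {D : Fam (fun _ => List Bool) t} {b : τ.Sk.Asg t} {c : τ.ZQk.Asg t}, τ.Fit t D b →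
      τ.ZQk.Coh t c → τ.Sk.Le t (τ.ZQk.ev t c) b →
      ∃ d, τ.ZQk.Le t d c ∧ τ.ZQk.Coh t d ∧ τ.ZFitP t D d
  | _, .var _, _, _, c, H, _, _ => ⟨c, Pres.le_rfl' _ c, trivial, H⟩
  | _, .emb t h s, _, _, c, H, C, hb => by
    obtain ⟨c1, h1, h2, h3⟩ := zexists_fitP t H.1 C.1 hb.1
    obtain ⟨p, h4, h5⟩ := zexists_EP h ((zem_head_le hb.1 h1.head).trans H.2.2)
    obtain ⟨d, h6, h7, h8⟩ := C.2.1.prop s (τ.ZQk.pr h p)
      ((τ.ZQk.pr_mono h (h4.trans h1.head)).trans C.2.2.1)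
    obtain ⟨d', k1, k2, k3⟩ := zexists_fitP s H.2.1 h7 (Pres.le_ev_anti h6 hb.2)
    obtain ⟨m, k4, k5, k6⟩ := τ.ZQk.lift h p _ (h8 ▸ k1.head)
    obtain ⟨c2, k7, k8, k9⟩ := h2.prop t m (k4.trans h4)
    exact ⟨(c2, d'), ⟨k7.trans h1, k1.trans h6⟩,
      ⟨k8, k2, by rw [k9]; exact k5, by rw [k9]; exact k6⟩, h3.anti t k7, k3,
      h5.anti (k9.le.trans k4)⟩
  | _, .prj t h s, _, _, c, H, C, hb => by
    obtain ⟨c1, h1, h2, h3⟩ := zexists_fitP t H.1 C.1 hb.1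
    obtain ⟨m, h9, h10, -⟩ := τ.ZQk.lift h _ _ (h1.head.trans C.2.2.2)
    obtain ⟨p, h4, h5⟩ := zexists_EP h ((zem_head_le hb.2 h9).trans H.2.2)
    obtain ⟨d, h6, h7, h8⟩ := C.2.1.prop s p (h4.trans h9)
    obtain ⟨d', k1, k2, k3⟩ := zexists_fitP s H.2.1 h7 (Pres.le_ev_anti h6 hb.2)
    have k4 : Fam.head s d' ≤ p := h8 ▸ k1.head
    obtain ⟨c2, k7, k8, k9⟩ := h2.prop t (τ.ZQk.pr h (Fam.head s d'))
      ((τ.ZQk.pr_mono h (k4.trans h4)).trans h10)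
    exact ⟨(c2, d'), ⟨k7.trans h1, k1.trans h6⟩, ⟨k8, k2, by rw [k9], by rw [k9]⟩,
      h3.anti t k7, k3, h5.anti k4⟩

theorem zexists_cst : ∀ {u : KG τ.a τ.top} (t : Tm (KG τ.a τ.top) u)
    (D : Fam (fun _ => List Bool) t) (c : τ.ZQk.Asg t),
      ∃ n, ∀ m, n ≤ m → Fam.All₂ (τ.ZCst m) t D c
  | _, .var (.root _), _, _ => ⟨0, fun _ _ => trivial⟩
  | _, .var (.nd k), D, c => by
    obtain ⟨n1, h1⟩ := zlc_foc c.2.1
    obtain ⟨n2, h2⟩ := zlc_kact k c.1.σ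
    have key : ∀ (s r : List Bool) (n : ℕ), n ≤ r.length → n ≤ (s ++ r).length :=
      fun s r n h => by rw [List.length_append]; omega
    exact ⟨n1 + n2, fun m hm r hr x y hx hy => ⟨h1.of_in (key D r _ (by omega)) hx hy,
      (h2.of_in (key D r _ (by omega)) hx hy).mp⟩⟩
  | _, .emb t _ s, D, c => by
    obtain ⟨n1, h1⟩ := zexists_cst t D.1 c.1
    obtain ⟨n2, h2⟩ := zexists_cst s D.2 c.2
    exact ⟨n1 + n2, fun m hm => ⟨h1 m (by omega), h2 m (by omega)⟩⟩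
  | _, .prj t _ s, D, c => by
    obtain ⟨n1, h1⟩ := zexists_cst t D.1 c.1
    obtain ⟨n2, h2⟩ := zexists_cst s D.2 c.2
    exact ⟨n1 + n2, fun m hm => ⟨h1 m (by omega), h2 m (by omega)⟩⟩

theorem zpA_lab {k : KN τ.top} (c : τ.P (τ.ku k)) (x : Pt) :
    τ.pA _ (τ.foc k c.1 x ⊓ τ.eA _ c.1.a) = c.1.a :=
  (pj_inf _ _ _).trans (inf_eq_right.2 (zle_pA_foc c.2.1 x))

theorem zlab_ne_bot (c : τ.ZQk.P u) : τ.zlab u s c ≠ ⊥ := by
  cases u with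
  | root i => exact c.2
  | nd k => exact pj_ne_bot.1 ((zpA_lab c _).symm ▸ c.2.2)

theorem zlab_edge (h : u ≤ v) {c : τ.ZQk.P u} {c' : τ.ZQk.P v} (h1 : τ.ZQk.pr h c' ≤ c)
    (h2 : c ≤ τ.ZQk.pr h c') (m : τ.ZEP u v s s' c') (ha : τ.ZAct u s c) :
    τ.Tk.p h (τ.zlab v s' c') = τ.zlab u s c := by
  cases u <;> cases v
  · exact le_antisymm h1 h2
  · refine Eq.trans ?_ (le_antisymm h1 h2 : τ.St.p (τ.ρm h) c'.1.a = c.1)
    rw [← zpA_lab c' (app s' z0)]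
    exact (pj_pj (τ.St.e_trans _ _) _).symm
  · exact h.elim
  · have e := zeqv_iff.2 ⟨h2, h1⟩
    show τ.pW (KN.ix_mono h) (_ ⊓ τ.eA _ c'.1.a) = _ ⊓ τ.eA _ c.1.a
    rw [← zfoc_edge h c'.2.1 e m z0 (ha _ (in_app _ _)), show c.1.a = c'.1.a from e.a,
      ← τ.St.e_trans (τ.le _) (τ.wm (KN.ix_mono h))]
    exact pj_inf _ _ _

theorem zwr_edge' (h : u ≤ v) {c d : τ.ZQk.P u} {c' d' : τ.ZQk.P v} (h1 : τ.ZQk.pr h c' ≤ c)
    (h2 : c ≤ τ.ZQk.pr h c') (m : τ.ZEP u v s s' c') (ha : τ.ZAct v s' c') {w : τ.Tk.X u}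
    {w' : τ.Tk.X v} (hw : τ.Tk.p h w' = w) (hd : τ.ZWr u s c w d) (hd' : τ.ZWr v s' c' w' d') :
    τ.ZQk.pr h d' ≤ d ∧ d ≤ τ.ZQk.pr h d' := by
  cases u <;> cases v
  · have e : τ.St.p (τ.ρm h) d'.1 = d.1 := (congrArg _ hd').trans (hw.trans (Eq.symm hd))
    exact ⟨e.le, e.ge⟩
  · have e : τ.St.p (τ.ρm h) d'.1.a = d.1 := by
      rw [show d'.1 = _ from hd']
      exact (pj_pj (τ.St.e_trans _ _) _).trans (hw.trans (Eq.symm hd))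
    exact ⟨e.le, e.ge⟩
  · exact h.elim
  · have e := zeqv_iff.1 (zwr_edge h c'.2.1 (zeqv_iff.2 ⟨h2, h1⟩) m ha hw)
    rw [← show d.1 = _ from hd, ← show d'.1 = _ from hd'] at e
    exact ⟨e.2, e.1⟩

theorem zexists_wr {n : ℕ} {r : List Bool} (hr : r.length = n) {c : τ.ZQk.P u} (hs : τ.Cel u s)
    (hc : τ.ZCst n u s c) {w σ : τ.Tk.X u} (h0 : w ≠ ⊥) (h1 : w ≤ τ.zlab u (s ++ r) c)
    (h2 : w ≤ σ) : ∃ d, d ≤ c ∧ τ.ZCst n u s d ∧ τ.ZQk.em u d ≤ τ.Lak u (s ++ r) σ ∧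
      τ.ZWr u (s ++ r) c w d := by
  cases u with
  | root i => exact ⟨⟨w, h0⟩, h1, trivial, h2, rfl⟩
  | nd k =>
    have h3 : τ.pA _ w ≤ c.1.a := pj_le.2 (h1.trans inf_le_right)
    refine ⟨⟨zwr k (s ++ r) c.1 w, zok_wr c.2.1 (List.mem_append_left r hs) h3, pj_ne_bot.2 h0⟩,
      zwr_le c.2.1 h3 fun x hx => h1.trans (inf_le_left.trans (hc r hr _ x (in_app _ _) hx).1.le),
      fun r' hr' x y hx hy => ⟨?_, (hc r' hr' x y hx hy).2⟩, le_op fun x hx _ => ?_, rfl⟩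
    · show τ.foc k (zwr k (s ++ r) c.1 w) x = τ.foc k (zwr k (s ++ r) c.1 w) y
      rw [zfoc_wr, zfoc_wr, (hc r' hr' x y hx hy).1,
        (lv_In (s ++ r)).of_in (s := s ++ r') (by simp [hr, hr']) hx hy]
    · show τ.foc k (zwr k (s ++ r) c.1 w) x ⊓ _ ≤ σ
      rw [zfoc_wr, if_pos hx]
      exact inf_le_left.trans h2

theorem zcoh_lab (r : List Bool) : ∀ {u : KG τ.a τ.top} (t : Tm (KG τ.a τ.top) u)
    {D : Fam (fun _ => List Bool) t} {c : τ.ZQk.Asg t}, τ.ZQk.Coh t c → τ.ZFitP t D c →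
      Fam.All₂ (fun u s c => τ.ZAct u (s ++ r) c) t D c →
      τ.Tk.Coh t (Fam.map₂ (fun u s c => τ.zlab u (s ++ r) c) t D c)
  | _, .var _, _, c, _, _, _ => zlab_ne_bot c
  | _, .emb t h s, _, _, C, F, A => ⟨zcoh_lab r t C.1 F.1 A.1, zcoh_lab r s C.2.1 F.2.1 A.2, by
      show τ.Tk.p h (Fam.head t (Fam.map₂ _ t _ _)) = Fam.head s (Fam.map₂ _ s _ _)
      rw [Fam.head_map₂, Fam.head_map₂]
      exact zlab_edge h C.2.2.1 C.2.2.2 (F.2.2.append r) (Fam.All₂.head s A.2)⟩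
  | _, .prj t h s, _, _, C, F, A => ⟨zcoh_lab r t C.1 F.1 A.1, zcoh_lab r s C.2.1 F.2.1 A.2, by
      show τ.Tk.p h (Fam.head s (Fam.map₂ _ s _ _)) = Fam.head t (Fam.map₂ _ t _ _)
      rw [Fam.head_map₂, Fam.head_map₂]
      exact zlab_edge h C.2.2.1 C.2.2.2 (F.2.2.append r) (Fam.All₂.head t A.1)⟩

theorem zexists_write {n : ℕ} {r : List Bool} (hr : r.length = n) :
    ∀ {u : KG τ.a τ.top} (t : Tm (KG τ.a τ.top) u) {D : Fam (fun _ => List Bool) t}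
      {c : τ.ZQk.Asg t} {w σ : τ.Tk.Asg t}, τ.ZQk.Coh t c → τ.ZFitP t D c →
      Fam.All₂ (fun u s c => τ.ZAct u (s ++ r) c) t D c → Fam.All₂ (τ.ZCst n) t D c →
      τ.Tk.Coh t w → τ.Tk.Le t w (Fam.map₂ (fun u s c => τ.zlab u (s ++ r) c) t D c) →
      τ.Tk.Le t w σ → ∃ d, τ.ZQk.Le t d c ∧ τ.ZQk.Coh t d ∧ Fam.All₂ (τ.ZCst n) t D d ∧
        τ.Sk.Le t (τ.ZQk.ev t d) (Fam.map₂ (fun u s w => τ.Lak u (s ++ r) w) t D σ) ∧
        τ.ZWr u (Fam.head t D ++ r) (Fam.head t c) (Fam.head t w) (Fam.head t d)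
  | _, .var _, _, _, _, _, _, F, _, N, W, h1, h2 => by
    obtain ⟨d, k1, k2, k3, k4⟩ := zexists_wr hr F N W h1 h2
    exact ⟨d, k1, trivial, k2, k3, k4⟩
  | _, .emb t h s, _, _, _, _, C, F, A, N, W, h1, h2 => by
    obtain ⟨d, k1, k2, k3, k4, k5⟩ := zexists_write hr t C.1 F.1 A.1 N.1 W.1 h1.1 h2.1
    obtain ⟨d', l1, l2, l3, l4, l5⟩ := zexists_write hr s C.2.1 F.2.1 A.2 N.2 W.2.1 h1.2 h2.2
    exact ⟨(d, d'), ⟨k1, l1⟩, ⟨k2, l2, zwr_edge' h C.2.2.1 C.2.2.2 (F.2.2.append r)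
      (Fam.All₂.head t A.1) W.2.2 l5 k5⟩, ⟨k3, l3⟩, ⟨k4, l4⟩, k5⟩
  | _, .prj t h s, _, _, _, _, C, F, A, N, W, h1, h2 => by
    obtain ⟨d, k1, k2, k3, k4, k5⟩ := zexists_write hr t C.1 F.1 A.1 N.1 W.1 h1.1 h2.1
    obtain ⟨d', l1, l2, l3, l4, l5⟩ := zexists_write hr s C.2.1 F.2.1 A.2 N.2 W.2.1 h1.2 h2.2
    exact ⟨(d, d'), ⟨k1, l1⟩, ⟨k2, l2, zwr_edge' h C.2.2.1 C.2.2.2 (F.2.2.append r)
      (Fam.All₂.head s A.2) W.2.2 k5 l5⟩, ⟨k3, l3⟩, ⟨k4, l4⟩, k5⟩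

open Classical in
/-- zero at the slots whose piece does not count -/
noncomputable def zzs (r : List Bool) (u : KG τ.a τ.top) (s : List Bool) (c : τ.ZQk.P u) :
    τ.Tk.X u := if τ.ZAct u (s ++ r) c then ⊤ else ⊥

theorem zle_zs {n : ℕ} {r : List Bool} (hr : r.length = n) :
    ∀ {u : KG τ.a τ.top} (t : Tm (KG τ.a τ.top) u) {D : Fam (fun _ => List Bool) t}
      {c : τ.ZQk.Asg t}, Fam.All₂ (τ.ZCst n) t D c → τ.Sk.Le t (τ.ZQk.ev t c)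
        (Fam.map₂ (fun u s w => τ.Lak u (s ++ r) w) t D (Fam.map₂ (zzs r) t D c))
  | _, .var (.root _), _, _, _ => le_top.trans (if_pos trivial).ge
  | _, .var (.nd _), _, _, N => le_op fun x hx ha =>
      le_top.trans (if_pos fun y hy => (N r hr x y hx hy).2 ha).ge
  | _, .emb t _ s, _, _, N => ⟨zle_zs hr t N.1, zle_zs hr s N.2⟩
  | _, .prj t _ s, _, _, N => ⟨zle_zs hr t N.1, zle_zs hr s N.2⟩

theorem zact_of_zs (r : List Bool) :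
    ∀ {u : KG τ.a τ.top} (t : Tm (KG τ.a τ.top) u) {D : Fam (fun _ => List Bool) t}
      {c : τ.ZQk.Asg t}, Fam.All (fun _ x => x ≠ ⊥) t (Fam.map₂ (zzs r) t D c) →
        Fam.All₂ (fun u s c => τ.ZAct u (s ++ r) c) t D c
  | _, .var _, _, _, H => by
    by_contra hc
    exact H (if_neg hc)
  | _, .emb t _ s, _, _, H => ⟨zact_of_zs r t H.1, zact_of_zs r s H.2⟩
  | _, .prj t _ s, _, _, H => ⟨zact_of_zs r t H.1, zact_of_zs r s H.2⟩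

variable (τ)

theorem G0 {u : KG τ.a τ.top} (t : Tm (KG τ.a τ.top) u) (D : Fam (fun _ => List Bool) t)
    (b₀ : τ.Sk.Asg t) (hF : τ.Fit t D b₀) (h0 : τ.Sk.val t b₀ ≠ ⊥) (DD : Set (τ.Tk.Asg t))
    (hDD : ∀ lam, τ.Tk.Coh t lam → ∃ σ ∈ DD, τ.Tk.val t (τ.Tk.inf t σ lam) ≠ ⊥) :
    ∃ (b₁ : τ.Sk.Asg t) (n : ℕ), τ.Sk.Le t b₁ b₀ ∧ τ.Sk.val t b₁ ≠ ⊥ ∧
      ∀ r : List Bool, r.length = n → ∃ σ : τ.Tk.Asg t,
        (σ ∈ DD ∨ ¬ Fam.All (fun _ x => x ≠ ⊥) t σ) ∧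
        τ.Sk.Le t b₁ (Fam.map₂ (fun u s w => τ.Lak u (s ++ r) w) t D σ) := by
  obtain ⟨c0, h1, h2⟩ := Pres.exists_coh (Q := τ.ZQk) t b₀ h0
  obtain ⟨c, h3, h4, h5⟩ := zexists_fitP t hF h1 h2
  obtain ⟨n, h6⟩ := zexists_cst t D c
  have key : ∀ F : Finset (List Bool), ∃ d, τ.ZQk.Le t d c ∧ τ.ZQk.Coh t d ∧
      Fam.All₂ (τ.ZCst n) t D d ∧ ∀ r ∈ F, r.length = n → ∃ σ : τ.Tk.Asg t,
        (σ ∈ DD ∨ ¬ Fam.All (fun _ x => x ≠ ⊥) t σ) ∧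
        τ.Sk.Le t (τ.ZQk.ev t d) (Fam.map₂ (fun u s w => τ.Lak u (s ++ r) w) t D σ) := by
    intro F
    induction F using Finset.induction_on with
    | empty => exact ⟨c, Pres.le_rfl' t c, h4, h6 n le_rfl, by simp⟩
    | insert r F _ ih =>
      obtain ⟨d, k1, k2, k3, k4⟩ := ih
      by_cases hr : r.length = n
      swap
      · exact ⟨d, k1, k2, k3, Finset.forall_mem_insert .. |>.2 ⟨fun e => absurd e hr, k4⟩⟩
      by_cases hA : Fam.All₂ (fun u s c => τ.ZAct u (s ++ r) c) t D d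
      · obtain ⟨σ, l1, l2⟩ := hDD _ (zcoh_lab r t k2 (h5.anti t k1) hA)
        obtain ⟨w, l3, l4⟩ := Sys.exists_coh' t _ l2
        obtain ⟨d', m1, m2, m3, m4, -⟩ := zexists_write hr t k2 (h5.anti t k1) hA k3 l4
          (l3.trans (Sys.inf_le_r t _ _)) (l3.trans (Sys.inf_le_l t _ _))
        refine ⟨d', m1.trans k1, m2, m3, Finset.forall_mem_insert .. |>.2
          ⟨fun _ => ⟨σ, Or.inl l1, m4⟩, fun r' e e' => ?_⟩⟩
        obtain ⟨σ', m5, m6⟩ := k4 r' e e'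
        exact ⟨σ', m5, Pres.le_ev_anti m1 m6⟩
      · exact ⟨d, k1, k2, k3, Finset.forall_mem_insert .. |>.2
          ⟨fun _ => ⟨_, Or.inr fun e => hA (zact_of_zs r t e), zle_zs hr t k3⟩, k4⟩⟩
  obtain ⟨d, k1, k2, -, k4⟩ := key (List.finite_length_eq Bool n).toFinset
  exact ⟨τ.ZQk.ev t d, n, Pres.le_ev_anti (k1.trans h3) h2, k2.val_ne,
    fun r hr => k4 r (by simpa using hr) hr⟩

end Pool.Agent.Lib.MP_f79ffc_lc.U.Tp
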