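import Pool.Agent.Lib.MP_f79ffc_lc.U.G.Wr
import Pool.Agent.Lib.MP_f79ffc_lc.U.M.BDefs

/-! The names of the labels. -/

namespace Pool.Agent.Lib.MP_f79ffc_lc.U

open Pool.Agent.Lib.MP_5d9fac_lc Pool.Agent.Lib.MP_f79ffc_lc.R Filter

theorem sep_alg {A U : Type} [CompleteBooleanAlgebra A] [CompleteBooleanAlgebra U] (e : Hm A U)
    {y y' : U} (h : pj e y ≤ pj e y') (x : ℕ → U)
    (H : ∀ n b, pj e (y ⊓ lit b (x n)) ⊓ pj e (y' ⊓ lit (!b) (x n)) = ⊥) :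
    y ≤ eqv x fun n => e (pj e (y ⊓ x n)) := eqv_le_iff.2 fun n => by
  refine le_antisymm (le_inf inf_le_left (le_map_pj _ _)) (le_inf inf_le_left ?_)
  have h1 : pj e (y ⊓ x n) ⊓ pj e (y' ⊓ (x n)ᶜ) = ⊥ := H n true
  have h2 : pj e (y ⊓ (x n)ᶜ) ⊓ pj e (y' ⊓ x n) = ⊥ := H n false
  have h3 : pj e (y ⊓ x n) ≤ pj e (y' ⊓ x n) := by
    have h4 := (pj_mono e (inf_le_left : y ⊓ x n ≤ y)).trans h
    rw [← inf_top_eq y', ← sup_compl_eq_top (x := x n), inf_sup_left, pj_sup] at h4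
    exact (disjoint_iff.2 h1).left_le_of_le_sup_right h4
  have h5 : y ⊓ (x n)ᶜ ⊓ e (pj e (y ⊓ x n)) = ⊥ :=
    inf_map_eq_bot.2 (le_bot_iff.1 ((inf_le_inf_left _ h3).trans h2.le))
  rw [inf_right_comm] at h5
  exact (disjoint_iff.2 h5).le_compl_right.trans (compl_compl _).le

theorem true_mem_append {s : List Bool} (hs : true ∈ s) (r : List Bool) : true ∈ s ++ r :=
  List.mem_append_left r hs

theorem Lv.of_cell {α : Type} {n : ℕ} {f g : Pt → α} (h : Lv n f) {s : List Bool}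
    (hs : s.length = n) {y : α} (h1 : ∀ x, In s x → g x = y) (h2 : ∀ x, ¬ In s x → g x = f x) :
    Lv n g := fun x x' e => by
  subst hs
  by_cases e' : In s x
  · rw [h1 x e', h1 x' (e'.of_ag e.symm)]
  · rw [h2 x e', h2 x' fun e'' => e' (e''.of_ag e), h x x' e]

namespace Tp

variable {R J L : Type} [Preorder R] [Preorder J] [Preorder L] (τ : Tp R J L)

variable {τ} in
theorem exists_ite (k : KN τ.top) (c : τ.P (τ.ku k)) {a : τ.A} (h0 : a ≠ ⊥) (ha : a ≤ c.1.a)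
    {p : Pt → Prop} (hp : LC p) (hz : ¬ p z0) {y : Pt → τ.W k.ix} (hy : LC y)
    (h1 : ∀ x, p x → y x ≤ τ.foc k c.1 x) (h2 : ∀ x, p x → a ≤ τ.pA _ (y x)) :
    ∃ c' : τ.P (τ.ku k), c' ≤ c ∧ c'.1.a = a ∧ c'.1.σ = c.1.σ ∧
      (∀ x, p x → τ.foc k c'.1 x = y x) ∧ ∀ x, ¬ p x → τ.foc k c'.1 x = τ.foc k c.1 x := by
  obtain ⟨c', g1, g2, g3, g4⟩ := exists_wr c (Wr.ite c.2.1 h0 ha hp hz hy h1 h2)
  exact ⟨c', g1, g2, g3, fun x e => (congrFun g4 x).trans (if_pos e),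
    fun x e => (congrFun g4 x).trans (if_neg e)⟩

theorem lab_mono (k : KN τ.top) (s : List Bool) {w w' : τ.W k.ix} (h : w ≤ w') :
    τ.Lab k s w ≤ τ.Lab k s w' := op_le.2 fun _ H => le_op fun x hx e => (H x hx e).trans h

theorem lab_inf (k : KN τ.top) (s : List Bool) (w w' : τ.W k.ix) :
    τ.Lab k s (w ⊓ w') = τ.Lab k s w ⊓ τ.Lab k s w' := by
  refine le_antisymm (le_inf (τ.lab_mono k s inf_le_left) (τ.lab_mono k s inf_le_right))
    (le_of_em fun c hc => ?_)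
  obtain ⟨r, h1, h2⟩ := exists_lab (hc.trans inf_le_left)
  obtain ⟨r', h3, h4⟩ := exists_lab ((em_mono h1).trans (hc.trans inf_le_right))
  exact ⟨r', h3.trans h1, le_op fun x hx e => le_inf (h2.anti h3 x hx e) (h4 x hx e)⟩

theorem lab_top (k : KN τ.top) (s : List Bool) : τ.Lab k s ⊤ = ⊤ :=
  top_unique (le_of_em fun c _ => ⟨c, le_rfl, le_op fun _ _ _ => le_top⟩)

theorem lab_append (k : KN τ.top) (s r : List Bool) (w : τ.W k.ix) :
    τ.Lab k s w ≤ τ.Lab k (s ++ r) w := op_le.2 fun _ H => le_op fun x hx => H x hx.of_append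

theorem lab_iff (k : KN τ.top) {s : List Bool} (hs : true ∈ s) {w : τ.W k.ix} {c : τ.P (τ.ku k)} :
    em c ≤ τ.Lab k s w ↔ τ.LabP k s w c := by
  refine ⟨fun h x hx e => ?_, le_op⟩
  by_contra hc
  have h0 : τ.foc k c.1 x ⊓ τ.eA _ c.1.a ⊓ wᶜ ≠ ⊥ := fun h0 =>
    hc ((disjoint_iff.2 h0).le_compl_right.trans (compl_compl _).le)
  obtain ⟨n, hn⟩ := (foc_lc c.2.1).comp₂ (k.lc_act c.1.σ) Prod.mk
  obtain ⟨r0, hr⟩ := hx.pref (in_res (s.length + n) x) (by simp)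
  generalize hs' : res x (s.length + n) = s' at hr
  have hl : s'.length = s.length + n := by rw [← hs', length_res]
  have hx' : In s' x := hs' ▸ in_res _ x
  have k1 : ∀ y, In s' y → τ.foc k c.1 y = τ.foc k c.1 x ∧ k.act c.1.σ y := fun y hy => by
    have := Prod.mk.inj (hn.of_in (by omega) hy hx')
    exact ⟨this.1, this.2 ▸ e⟩
  obtain ⟨c', h1, -, h3, h4, -⟩ := exists_ite k (c.shp (c.1.σ.up_le s'.length 0)) (pj_ne_bot.2 h0)
    ((pj_mono _ inf_le_left).trans (pA_foc c.2.1 x le_rfl).le) (lc_In s')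
    (not_in_z0 (hr ▸ true_mem_append hs r0)) (LC.const _)
    (fun y hy => by
      rw [foc_shp, (k1 y hy).1]
      exact inf_le_left.trans inf_le_left) fun _ _ => le_rfl
  obtain ⟨r, h5, h6⟩ := exists_lab ((em_mono (h1.trans (c.shp_le _))).trans h)
  have e' : k.act r.1.σ (app s' z0) := act_of_le
    (fun e1 => Sh.not_O_far ((h5.σ e1).trans h3.le) le_rfl) (k1 _ (in_app _ _)).2
  have h7 := foc_mono h5 e'
  rw [h4 _ (in_app _ _)] at h7
  exact foc_ne r.2.1 _ le_rfl r.2.2 (le_bot_iff.1 ((le_inf (h6 _ (In.of_append (t := r0) (by rw [← hr]; exact in_app s' z0)) e')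
    (inf_le_left.trans (h7.trans inf_le_right))).trans (inf_compl_self w).le))

theorem lab_base (k : KN τ.top) (s : List Bool) (a : τ.A) :
    τ.eB (τ.ku k) a ≤ τ.Lab k s (τ.eA _ a) := le_of_em fun c h =>
  ⟨c, le_rfl, le_op fun _ _ _ => inf_le_right.trans (hm_mono _ (em_le_eB.1 h))⟩

variable {τ} in
theorem foc_pr0 {k k' : KN τ.top} (h : k ≤ k') (hk : k = .C0 → k' = .C0)
    (m : τ.Cd (τ.ku k').ix) (x : Pt) :
    τ.foc k (pr0 (τ.ku_mono h) m) x = τ.pW (KN.ix_mono h) (τ.foc k' m x) := by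
  cases k <;> cases k' <;>
    first | exact h.elim | rfl | exact (τ.pW_refl _ _).symm | exact absurd (hk rfl) nofun

theorem act_down {top : J} {k k' : KN top} (h : k ≤ k') {σ : Sh} {x : Pt} (e : k'.act σ x) :
    k.act σ x := by
  cases k <;> cases k' <;> first | exact h.elim | exact trivial | exact e

theorem lab_e {k k' : KN τ.top} (h : k ≤ k') (hk : k = .C0 → k' = .C0) (s : List Bool)
    (w : τ.W k.ix) :
    τ.eN (τ.ku_mono h) (τ.Lab k s w) ≤ τ.Lab k' s (τ.eW (KN.ix_mono h) w) := le_of_em fun m H => by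
  obtain ⟨m', h1, h2⟩ := exists_op_eN _ (fun _ _ => LabP.anti) H
  refine ⟨m', h1, le_op fun x hx e => pj_le.1 ?_⟩
  have := h2 x hx (act_down h e)
  rwa [show τ.foc k (pr _ m').1 x = _ from foc_pr0 h hk m'.1 x, ← pW_inf] at this

theorem lab_link (t : List Bool) (k : ℕ) (r : List Bool) (w : τ.W τ.top) :
    τ.be t k ⊓ τ.eN τ.bM (τ.Lab .C0 (root k ++ r) w) = τ.be t k ⊓ τ.Lab .M (t ++ r) w := by
  have key : ∀ m : τ.P .M, (t, k) ∈ m.1.b → ∀ y,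
      m.1.w1 (app (root k ++ r) y) = m.1.w2 (app (t ++ r) y) := fun m hm y =>
    m.2.1.lk.2 _ _ ⟨_, hm, app r y, app_append _ _ _, app_append _ _ _⟩
  refine le_antisymm (le_inf inf_le_left (le_of_em fun c hc => ?_))
    (le_inf inf_le_left (le_of_em fun c hc => ?_))
  · obtain ⟨r1, h1, h2⟩ := exists_be (hc.trans inf_le_left)
    obtain ⟨m, h3, h4⟩ := exists_op_eN τ.bM (fun _ _ => LabP.anti (k := .C0))
      ((em_mono h1).trans (hc.trans inf_le_right))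
    refine ⟨m, h3.trans h1, le_op ?_⟩
    rintro _ ⟨y, rfl⟩ -
    exact (inf_le_inf_right _ (key m (h3.b rfl h2) y).ge).trans (h4 _ (in_app _ y) trivial)
  · obtain ⟨r1, h1, h2⟩ := exists_be (hc.trans inf_le_left)
    obtain ⟨m, h3, h4⟩ := exists_lab (k := .M) ((em_mono h1).trans (hc.trans inf_le_right))
    refine ⟨m, h3.trans h1, (em_le_eN _).2 (le_op ?_)⟩
    rintro _ ⟨y, rfl⟩ -
    exact (inf_le_inf_right _ (key m (h3.b rfl h2) y).le).trans (h4 _ (in_app _ y) trivial)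

theorem lab_pj {j j' : J} (h : j ≤ j') {s : List Bool} (hs : true ∈ s) (p : τ.W j') :
    τ.Lab (.E j) s (τ.pW h p) ≤ pj (τ.eN (u := .C j) (v := .C j') h) (τ.Lab (.E j') s p) := by
  refine op_le.2 fun c H => le_of_em fun r0 hr => ?_
  obtain ⟨r, h1, h2⟩ := exists_of_em_le hr
  replace H := H.anti h2
  have pe : ∀ y, τ.pW h (τ.eW h y) = y := pj_map (τ.St.inj _)
  let m : τ.P (.C j') := ⟨⟨r.1.a, r.1.σ, r.1.b, r.1.w1, fun x => τ.eW h (r.1.w2 x)⟩,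
    ⟨r.2.1.lc1, r.2.1.lc2.comp (τ.eW h), r.2.1.z1,
      (congrArg (τ.eW h) r.2.1.z2).trans (map_top _), r.2.1.le1,
      fun x => by
        rw [← τ.pA_pW h]
        exact (r.2.1.le2 x).trans (congrArg _ (pe _)).ge, trivial⟩, r.2.2⟩
  have w := Wr.ite (k := .E j') m.2.1 r.2.2 le_rfl ((lc_In s).comp₂ (r.1.σ.lc_O.comp Not) And)
    (fun e => not_in_z0 hs e.1) (m.2.1.lc2.comp (· ⊓ p)) (fun _ _ => inf_le_left) fun x e => by
      show _ ≤ τ.pA j' (τ.eW h (r.1.w2 x) ⊓ p)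
      rw [← τ.pA_pW h, pW, pj_inf']
      exact (pA_foc (k := .E j) r.2.1 x le_rfl).ge.trans
        (pj_mono _ (le_inf inf_le_left (H x e.1 e.2)))
  refine ⟨pr (u := .C j) (v := .C j') h (m.wr (k := .E j') w), le_trans ?_ h1, ?_⟩
  · exact ⟨le_rfl, fun _ => le_rfl, nofun, fun _ _ => le_rfl,
      fun x _ => (pj_mono _ (w.le x)).trans (pe _).le⟩
  · rw [← pj_eN]
    exact pj_mono _ (le_op fun x hx e => inf_le_left.trans ((if_pos ⟨hx, e⟩).le.trans inf_le_right))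

theorem lab_unb {j j' : J} (h : j ≤ j') {t : ℕ → ℕ → τ.W j'} (ht : Mat t) (H : Unb (τ.eW h) t)
    {s : List Bool} (hs : true ∈ s) :
    Unb (τ.eN (u := .C j) (v := .C j') h) fun n l => τ.Lab (.E j') s (t n l) := by
  refine Unb.of_dense fun p hp => ?_
  obtain ⟨c, hc⟩ := exists_em_le hp
  refine ⟨em c, hc, ?_⟩
  obtain ⟨a, a0, a1, a2⟩ := exists_seq_ne c.2.1.lc2.finite
    (fun y a => ∀ᶠ n in atTop, a ≤ τ.pA j (⨅ l, τ.pW h (y ⊓ t n l)))
    (fun _ _ _ e e' => e'.mono fun _ e'' => e.trans e'') c.2.2 (by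
      rintro _ ⟨x, rfl⟩ a a0 a1
      obtain ⟨n, hn⟩ := H _ (foc_ne (k := .E j') c.2.1 x a1 a0)
      refine ⟨τ.pA j _, pj_ne_bot.2 hn, le_trans (pj_mono _ (iInf_le_of_le 0 (pj_mono _ inf_le_left)))
        ((τ.pA_pW h _).trans (pA_foc (k := .E j') c.2.1 x a1)).le,
        (eventually_ge_atTop n).mono fun n' e => pj_mono _ (iInf_mono fun l => pj_mono _
          (inf_le_inf inf_le_left (ht.mono e l)))⟩)
  obtain ⟨n, hn⟩ := ((eventually_all_finite c.2.1.lc2.finite).2 a2).exists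
  have w0 := Wr.ite (k := .E j) (pr (u := .C j) (v := .C j') h c).2.1 a0 a1 (lc_In s) (not_in_z0 hs)
    (c.2.1.lc2.comp fun y => ⨅ l, τ.pW h (y ⊓ t n l))
    (fun x _ => (iInf_le _ 0).trans (pj_mono _ inf_le_left)) fun x _ => hn _ ⟨x, rfl⟩
  refine ⟨n, ne_bot_of_le (le_iInf fun l => ?_) (em_ne (P.wr (k := .E j) _ w0))⟩
  have w := Wr.ite (k := .E j') c.2.1 a0 a1 (lc_In s) (not_in_z0 hs) (c.2.1.lc2.comp (· ⊓ t n l))
    (fun x _ => inf_le_left) fun x _ => (hn _ ⟨x, rfl⟩).trans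
      ((pj_mono _ (iInf_le _ l)).trans (τ.pA_pW h _).le)
  refine le_trans ?_ (pj_mono _ (le_inf (em_mono (c.wr_le (k := .E j') w))
    (le_op fun x hx _ => inf_le_left.trans ((if_pos hx).le.trans inf_le_right))))
  rw [pj_eN]
  refine em_mono ⟨le_rfl, fun _ => le_rfl, nofun, fun _ _ => le_rfl, fun x _ => ?_⟩
  by_cases e : In s x
  · exact (if_pos e).le.trans ((iInf_le _ l).trans (pj_mono _ (if_pos e).ge))
  · exact (if_neg e).le.trans (pj_mono _ (if_neg e).ge)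

theorem lab_dense (k : KN τ.top) {s : List Bool} (hs : true ∈ s) (S : Set (τ.W k.ix))
    {c : τ.P (τ.ku k)} (h : em c ≤ τ.Lab k s (sSup S)) : ∃ c' m, c' ≤ c ∧ ∀ r : List Bool,
      r.length = m → (∃ w ∈ S, τ.LabP k (s ++ r) w c') ∨
        ∀ x, In (s ++ r) x → ¬ k.act c'.1.σ x := by
  classical
  have H := (τ.lab_iff k hs).1 h
  obtain ⟨a, a0, a1, a2⟩ := exists_seq_ne ((foc_lc c.2.1).finite.subset
    (show {y | ∃ x, (In s x ∧ k.act c.1.σ x) ∧ τ.foc k c.1 x = y} ⊆ _ from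
      fun _ ⟨x, _, e⟩ => ⟨x, e⟩))
    (fun y a => ∃ w ∈ S, a ≤ τ.pA _ (y ⊓ w))
    (fun _ _ _ e ⟨w, e1, e2⟩ => ⟨w, e1, e.trans e2⟩) c.2.2 (by
      rintro _ ⟨x, ⟨e1, e2⟩, rfl⟩ a a0 a1
      have h1 := (inf_le_inf_left _ (hm_mono (τ.eA _) a1)).trans (H x e1 e2)
      rw [sSup_eq_iSup'] at h1
      obtain ⟨w, hw⟩ := exists_inf_ne_bot_of_le (foc_ne c.2.1 x a1 a0) h1
      exact ⟨_, pj_ne_bot.2 hw, (pj_mono _ inf_le_left).trans (pA_foc c.2.1 x a1).le, w.1, w.2,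
        pj_mono _ (inf_le_inf_right _ inf_le_left)⟩)
  choose! f f1 f2 using a2
  obtain ⟨c', h1, -, h3, h4, -⟩ := exists_ite k c a0 a1
    ((lc_In s).comp₂ (k.lc_act c.1.σ) And) (fun e => not_in_z0 hs e.1)
    ((foc_lc c.2.1).comp fun y => y ⊓ f y) (fun _ _ => inf_le_left) fun x e => f2 _ ⟨x, e, rfl⟩
  obtain ⟨n, hn⟩ := (foc_lc c.2.1).comp₂ (k.lc_act c.1.σ) Prod.mk
  refine ⟨c', n, h1, fun r hr => ?_⟩
  rw [h3]
  refine (Classical.em (∃ x, In (s ++ r) x ∧ k.act c.1.σ x)).imp ?_ fun e x e1 e2 => e ⟨x, e1, e2⟩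
  rintro ⟨x, e1, e2⟩
  refine ⟨_, f1 _ ⟨x, ⟨e1.of_append, e2⟩, rfl⟩, fun y e3 e4 => inf_le_left.trans ?_⟩
  rw [h4 _ ⟨e3.of_append, h3 ▸ e4⟩, (Prod.mk.inj (hn.of_in (by simp [hr]) e3 e1)).1]
  exact inf_le_right

theorem lab_le_base (s : List Bool) (p : τ.W τ.top) : τ.Lab .N s p ≤ τ.eB .N (τ.pA _ p) :=
  op_le.2 fun c H => em_le_eB.2 ((pA_foc (k := .N) c.2.1 _ le_rfl).ge.trans
    (pj_mono _ (H _ (in_app s z0) trivial)))

theorem pj_lab {s : List Bool} (hs : true ∈ s) (p : τ.W τ.top) :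
    pj (τ.eB .N) (τ.Lab .N s p) = τ.pA _ p := by
  refine le_antisymm (pj_le.2 (τ.lab_le_base s p)) ?_
  by_cases h0 : τ.pA _ p = ⊥
  · exact h0.le.trans _root_.bot_le
  obtain ⟨c, -, h2, -, h4, -⟩ := exists_ite .N (triv .N h0) h0 le_rfl
    (lc_In s) (not_in_z0 hs) (LC.const p) (fun _ _ => le_top) fun _ _ => le_rfl
  refine le_trans ?_ (pj_mono _ (le_op (c := c) fun x hx _ => inf_le_left.trans ?_))
  · exact (((pj_root _ c).trans (τ.St.p_refl _ _)).trans h2).ge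
  · exact (h4 x hx).le

theorem lab_ne {s : List Bool} (hs : true ∈ s) {p : τ.W τ.top} (hp : p ≠ ⊥) :
    τ.Lab .N s p ≠ ⊥ := pj_ne_bot.1 ((τ.pj_lab hs p).trans_ne (pj_ne_bot.2 hp))

/-- separation of the pieces -/
theorem lab_sep {s : List Bool} (hs : true ∈ s) {p : τ.W τ.top} {x : ℕ → τ.W τ.top}
    (hx : ∀ z : ℕ → τ.A, p ⊓ eqv x (fun n => τ.eA _ (z n)) = ⊥) (m : ℕ) {q : τ.Xn .N}
    (h0 : q ≠ ⊥) (hq : q ≤ τ.Lab .N s p) : ∃ q', q' ≠ ⊥ ∧ q' ≤ q ∧ ∃ m', m ≤ m' ∧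
      ∀ r r' : List Bool, r.length = m' → r'.length = m' → r ≠ r' → ∃ n b,
        q' ≤ τ.Lab .N (s ++ r) (lit b (x n)) ⊓ τ.Lab .N (s ++ r') (lit (!b) (x n)) := by
  classical
  obtain ⟨c, hc⟩ := exists_em_le h0
  have H := (τ.lab_iff .N hs).1 (hc.trans hq)
  obtain ⟨n, hn⟩ := c.2.1.lc2
  obtain ⟨c', h1, -, h3⟩ := exists_seq_le (P := τ.P .N) (· ≤ ·) le_refl (fun _ _ _ => le_trans)
    ((finite_len (m + n)).prod (finite_len (m + n)))
    (fun d => τ.LabP .N s p d ∧ Lv (s.length + (m + n)) d.1.w2)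
    (fun z d => z.1 ≠ z.2 → ∃ n b, τ.LabP .N (s ++ z.1) (lit b (x n)) d ∧
      τ.LabP .N (s ++ z.2) (lit (!b) (x n)) d)
    (fun _ _ _ e e' e'' => (e' e'').imp fun _ => Exists.imp fun _ e => ⟨e.1.anti ‹_›, e.2.anti ‹_›⟩)
    (by
      rintro ⟨r, r'⟩ ⟨e1, e2⟩ d ⟨d1, d2⟩
      by_cases e : r = r'
      · exact ⟨d, le_rfl, ⟨d1, d2⟩, fun e' => absurd e e'⟩
      have l1 : (s ++ r).length = s.length + (m + n) := by rw [List.length_append, e1]
      have l2 : (s ++ r').length = s.length + (m + n) := by rw [List.length_append, e2]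
      have p1 := pA_foc (k := .N) d.2.1 (app (s ++ r) z0) le_rfl
      have p2 := pA_foc (k := .N) d.2.1 (app (s ++ r') z0) le_rfl
      obtain ⟨i, b, hb⟩ : ∃ i b, τ.pA _ (d.1.w2 (app (s ++ r) z0) ⊓ τ.eA _ d.1.a ⊓ lit b (x i)) ⊓
          τ.pA _ (d.1.w2 (app (s ++ r') z0) ⊓ τ.eA _ d.1.a ⊓ lit (!b) (x i)) ≠ ⊥ := by
        by_contra hb
        push Not at hb
        exact foc_ne (k := .N) d.2.1 _ le_rfl d.2.2 (le_bot_iff.1 ((le_inf
          (d1 _ (in_app _ _).of_append trivial) (sep_alg _ (p1.trans p2.symm).le x hb)).trans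
            (hx _).le))
      have la := inf_le_left.trans ((pj_mono _ inf_le_left).trans p1.le) (a := τ.pA _
        (d.1.w2 (app (s ++ r) z0) ⊓ τ.eA _ d.1.a ⊓ lit b (x i)) ⊓
          τ.pA _ (d.1.w2 (app (s ++ r') z0) ⊓ τ.eA _ d.1.a ⊓ lit (!b) (x i)))
      obtain ⟨d', g1, g2, -, g3, g4⟩ := exists_ite .N d hb la (lc_In _)
        (not_in_z0 (true_mem_append hs r)) (LC.const _) (fun y hy =>
          inf_le_left.trans (inf_le_left.trans (d2.of_in l1.ge (in_app _ _) hy).le))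
        fun _ _ => inf_le_left
      obtain ⟨d'', g5, -, -, g6, g7⟩ := exists_ite .N d' hb g2.ge (lc_In _)
        (not_in_z0 (true_mem_append hs r')) (LC.const _) (fun y hy => by
          rw [g4 y fun hy' => e (List.append_cancel_left (hy'.eq_of_length hy (l1.trans l2.symm)))]
          exact inf_le_left.trans (inf_le_left.trans (d2.of_in l2.ge (in_app _ _) hy).le))
        fun _ _ => inf_le_right
      exact ⟨d'', g5.trans g1, ⟨d1.anti (g5.trans g1), Lv.of_cell (Lv.of_cell d2 l1 g3 g4) l2 g6 g7⟩,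
        fun _ => ⟨i, b, LabP.anti (fun y hy _ => inf_le_left.trans
          ((g3 y hy).le.trans inf_le_right)) g5,
          fun y hy _ => inf_le_left.trans ((g6 y hy).le.trans inf_le_right)⟩⟩)
    c ⟨H, hn.mono (by omega)⟩
  refine ⟨em c', em_ne c', (em_mono h1).trans hc, m + n, by omega, fun r r' e1 e2 e => ?_⟩
  obtain ⟨i, b, g1, g2⟩ := h3 (r, r') ⟨e1, e2⟩ e
  exact ⟨i, b, le_inf (le_op g1) (le_op g2)⟩

end Tp

end Pool.Agent.Lib.MP_f79ffc_lc.U
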