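import Pool.Agent.Lib.MP_f79ffc_lc.U.G.Sg

/-! The names of the generic sequence and of the generic matching. -/

namespace Pool.Agent.Lib.MP_f79ffc_lc.U.Tp

open Pool.Agent.Lib.MP_5d9fac_lc Pool.Agent.Lib.MP_f79ffc_lc.R

variable {R J L : Type} [Preorder R] [Preorder J] [Preorder L] (τ : Tp R J L)

section
variable {τ} {u : Nd τ.top}

/-- extend the shape -/
def P.setσ (c : τ.P u) {σ : Sh} (h : σ ≤ c.1.σ) : τ.P u :=
  ⟨{ c.1 with σ := σ }, ⟨c.2.1.lc1, c.2.1.lc2, c.2.1.z1, c.2.1.z2, c.2.1.le1, c.2.1.le2, by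
    have := c.2.1.lk
    cases u with
    | M => exact ⟨this.1.mono h, this.2⟩
    | _ => trivial⟩, c.2.2⟩

theorem P.setσ_le (c : τ.P u) {σ : Sh} (h : σ ≤ c.1.σ) : c.setσ h ≤ c :=
  ⟨le_rfl, fun _ => h, fun _ => subset_rfl, fun _ _ => le_rfl, fun _ _ => le_rfl⟩

theorem of_th {n k : ℕ} {c : τ.P (.C τ.bot)} (h : em c ≤ τ.th n k) :
    ∃ r, r ≤ c ∧ n < r.1.σ.n ∧ r.1.σ.T n = k := by
  obtain ⟨r, c', h1, h2, h3, h4⟩ := exists_of_le_op h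
  have := h2.σ nofun
  exact ⟨r, h1, h3.trans_le this.1, (this.2.1 n h3).trans h4⟩

theorem le_th {n : ℕ} {c : τ.P (.C τ.bot)} (h : n < c.1.σ.n) : em c ≤ τ.th n (c.1.σ.T n) :=
  le_op (Q := fun c' => n < c'.1.σ.n ∧ c'.1.σ.T n = c.1.σ.T n) ⟨h, rfl⟩

theorem le_ge {n k : ℕ} {c : τ.P (.C τ.bot)} (h : k ≤ c.1.σ.T n) : em c ≤ τ.ge n k := by
  refine le_of_em fun c' hc => ?_
  obtain ⟨r, h1, h2⟩ := exists_of_em_le hc
  have h3 := r.1.σ.up_le 0 (n + 1)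
  refine ⟨r.setσ h3, (r.setσ_le h3).trans h1, le_iSup₂_of_le _
    (h.trans (((h2.σ nofun).2.2 n).trans (h3.2.2 n))) (le_th (c := r.setσ h3) ?_)⟩
  show n < r.1.σ.n + (n + 1)
  omega

theorem of_ge {n k : ℕ} {c : τ.P (.C τ.bot)} (h : em c ≤ τ.ge n k) :
    ∃ r, r ≤ c ∧ k ≤ r.1.σ.T n := by
  obtain ⟨l, r, h1, h2⟩ := exists_of_em_le_iSup h
  obtain ⟨hl, r', h3, h4⟩ := exists_of_em_le_iSup h2
  obtain ⟨r'', h5, -, h6⟩ := of_th h4
  exact ⟨r'', h5.trans (h3.trans h1), h6 ▸ hl⟩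

theorem of_be {t : List Bool} {k : ℕ} {c : τ.P .M} (h : em c ≤ τ.be t k) :
    ∃ r, r ≤ c ∧ (t, k) ∈ r.1.b := by
  obtain ⟨r, c', h1, h2, h3⟩ := exists_of_le_op h
  exact ⟨r, h1, h2.b rfl h3⟩

theorem le_be {t : List Bool} {k : ℕ} {c : τ.P .M} (h : (t, k) ∈ c.1.b) : em c ≤ τ.be t k :=
  le_op (Q := fun c => (t, k) ∈ c.1.b) h

/-- match one more cell with a root -/
theorem exists_match (c : τ.P .M) {σ : Sh} (hσ : σ ≤ c.1.σ) (t : List Bool) (k : ℕ)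
    (B : BOk σ (insert (t, k) c.1.b))
    (h : ∀ y, c.1.a ≤ τ.pA _ (c.1.w1 (app (root k) y) ⊓ c.1.w2 (app t y))) :
    ∃ r, r ≤ c ∧ r.1.σ = σ ∧ r.1.b = insert (t, k) c.1.b := by
  have H := c.2.1
  have tot : ∀ x x', Link (insert (t, k) c.1.b) x x' →
      c.1.a ≤ τ.pA _ (c.1.w1 x' ⊓ c.1.w2 x) := by
    rintro _ _ ⟨p, hp, y, rfl, rfl⟩
    rcases Finset.mem_insert.1 hp with rfl | hp
    · exact h y
    · rw [H.lk.2 _ _ ⟨p, hp, y, rfl, rfl⟩, inf_idem]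
      exact H.le2 _
  refine ⟨⟨nrm (sym .M { c.1 with σ := σ, b := insert (t, k) c.1.b }),
    ok_nrm_sym H.lc1 H.lc2 H.z1 H.z2 fun _ => B, ne_bot_of_le (le_inf (le_inf le_rfl
      (le_iInf fun x => ?_)) (le_iInf fun x => ?_)) c.2.2⟩,
    ⟨inf_le_left.trans inf_le_left, fun _ => hσ, fun _ => Finset.subset_insert _ _,
      fun _ _ => inf_le_left, fun _ _ => inf_le_left⟩, rfl, rfl⟩
  · by_cases e : ∃ y, Link (insert (t, k) c.1.b) y x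
    · obtain ⟨y, l⟩ := e
      exact (tot y x l).trans (pj_mono _ (inf_le_inf_left _ (le_iInf₂ fun y' l' => by
        rw [B.left l' l])))
    · exact (H.le1 x).trans (pj_mono _ (le_inf le_rfl (le_iInf₂ fun y l => absurd ⟨y, l⟩ e)))
  · by_cases e : ∃ y, Link (insert (t, k) c.1.b) x y
    · obtain ⟨y, l⟩ := e
      exact (tot x y l).trans (pj_mono _ ((inf_comm _ _).le.trans (inf_le_inf_left _
        (le_iInf₂ fun y' l' => by rw [B.right l' l]))))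
    · exact (H.le2 x).trans (pj_mono _ (le_inf le_rfl (le_iInf₂ fun y l => absurd ⟨y, l⟩ e)))

end

theorem bok_insert {σ : Sh} {b : Finset (List Bool × ℕ)} (B : BOk σ b) {t : List Bool} {k : ℕ}
    (h1 : ∀ x, In t x → σ.O x) (h2 : ∀ p ∈ b, ∀ x, In t x → ¬ In p.1 x) (h3 : ∀ p ∈ b, p.2 ≠ k) :
    BOk σ (insert (t, k) b) := by
  refine ⟨fun p hp => ?_, fun p hp q hq x hx hx' => ?_, fun p hp q hq e => ?_⟩
  · rcases Finset.mem_insert.1 hp with rfl | hp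
    exacts [h1, B.sub p hp]
  · rcases Finset.mem_insert.1 hp with rfl | hp <;> rcases Finset.mem_insert.1 hq with rfl | hq
    exacts [rfl, (h2 q hq x hx hx').elim, (h2 p hp x hx' hx).elim, B.eq1 p hp q hq x hx hx']
  · rcases Finset.mem_insert.1 hp with rfl | hp <;> rcases Finset.mem_insert.1 hq with rfl | hq
    exacts [rfl, (h3 q hq e.symm).elim, (h3 p hp e).elim, B.eq2 p hp q hq e]

theorem th_sup (n : ℕ) : ⨆ k, τ.th n k = ⊤ :=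
  top_unique (le_of_em fun c _ => ⟨c, le_rfl, (le_ge (Nat.zero_le _)).trans
    (iSup₂_le fun l _ => le_iSup (τ.th n) l)⟩)

theorem th_disj (n : ℕ) {k k' : ℕ} (h : k ≠ k') : τ.th n k ⊓ τ.th n k' = ⊥ := by
  by_contra h0
  obtain ⟨c, hc⟩ := exists_em_le h0
  obtain ⟨r, h1, h2, h3⟩ := of_th (hc.trans inf_le_left)
  obtain ⟨r', h4, -, h5⟩ := of_th ((em_mono h1).trans (hc.trans inf_le_right))
  exact h (h3.symm.trans (((h4.σ nofun).2.1 n h2).symm.trans h5))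

theorem ge_mat : Mat τ.ge :=
  ⟨fun n _ => le_of_em fun _ hc => (of_ge hc).imp fun r h =>
      ⟨h.1, le_ge (h.2.trans (r.1.σ.mono n.le_succ))⟩,
    fun _ k => le_of_em fun _ hc => (of_ge hc).imp fun _ h => ⟨h.1, le_ge (k.le_succ.trans h.2)⟩⟩

theorem ge_th {m n k : ℕ} (h : k < m) : τ.ge 0 m ⊓ τ.th n k = ⊥ := by
  by_contra h0
  obtain ⟨c, hc⟩ := exists_em_le h0
  obtain ⟨r, h1, h2⟩ := of_ge (hc.trans inf_le_left)
  obtain ⟨r', h4, -, h5⟩ := of_th ((em_mono h1).trans (hc.trans inf_le_right))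
  exact h.not_ge (h2.trans (((h4.σ nofun).2.2 0).trans ((r'.1.σ.mono n.zero_le).trans h5.le)))

theorem unb_ge : Unb (τ.eN τ.NM) fun n k => τ.eN τ.bM (τ.ge n k) := by
  intro p hp
  obtain ⟨m, hm⟩ := exists_em_le hp
  refine ⟨m.1.σ.n, ne_bot_of_le (le_iInf fun k => ?_) (em_ne (pr τ.NM m))⟩
  have h1 := m.1.σ.up_le k 0
  refine le_trans (em_mono (c := pr τ.NM (m.setσ h1)) ⟨le_rfl, fun e => absurd rfl e, nofun,
    fun e => absurd rfl e, fun _ _ => le_rfl⟩) ((pj_eN τ.NM _).ge.trans (pj_mono _ (le_inf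
      ((em_mono (m.setσ_le h1)).trans hm) ((em_le_eN τ.bM).2 (le_ge ?_)))))
  exact (le_max_right _ _).trans (m.1.σ.up_T k 0 le_rfl).ge

theorem pj_ge (m : ℕ) : pj (τ.eN τ.NM) (τ.eN τ.bM (τ.ge 0 m)) = ⊤ := by
  refine top_unique (le_of_em fun c _ => ?_)
  have H := c.2.1
  let m₀ : τ.P .M := ⟨⟨c.1.a, Sh.one.up m 0, ∅, c.1.w1, c.1.w2⟩, ⟨H.lc1, H.lc2, H.z1, H.z2, H.le1,
    H.le2, BOk.empty _, fun _ _ ⟨_, h, _⟩ => absurd h (Finset.notMem_empty _)⟩, c.2.2⟩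
  refine ⟨pr τ.NM m₀, ⟨le_rfl, fun e => absurd rfl e, nofun, fun e => absurd rfl e,
    fun x _ => (τ.pW_refl _ _).le⟩, (pj_eN τ.NM _).ge.trans (pj_mono _
      ((em_le_eN τ.bM).2 (le_ge ?_)))⟩
  exact (le_max_right _ _).trans (Sh.one.up_T m 0 le_rfl).ge

theorem be_sup (k : ℕ) : ⨆ t, τ.be t k = ⊤ := by
  refine top_unique (le_of_em fun c _ => ?_)
  by_cases h : ∃ t, (t, k) ∈ c.1.b
  · obtain ⟨t, ht⟩ := h
    exact ⟨c, le_rfl, le_iSup_of_le t (le_be ht)⟩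
  have H := c.2.1
  obtain ⟨K, hK⟩ := (H.lc2.comp₂ c.1.σ.lc_O Prod.mk).near
  have h1 := c.1.σ.up_le K 1
  have h2 : ∀ x, In (root (max (c.1.σ.T c.1.σ.n) K) ++ List.replicate (c.1.σ.n + 1) true) x →
      c.1.w2 x = ⊤ ∧ ¬ c.1.σ.O x := fun x hx => by
    have := Prod.ext_iff.1 (hK _ (le_max_right _ _) x hx.of_append)
    exact ⟨this.1.trans H.z2, fun o => c.1.σ.not_O_z0 (this.2.mp o)⟩
  have h5 : ∀ x, In (root (max (c.1.σ.T c.1.σ.n) K) ++ List.replicate (c.1.σ.n + 1) true) x →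
      (c.1.σ.up K 1).O x := fun x hx => by
    refine ⟨c.1.σ.n, Nat.lt_succ_self _, ?_⟩
    rw [c.1.σ.up_T K 1 le_rfl]
    intro j h5 h6
    rcases h5.eq_or_lt with rfl | h5
    · exact (in_root.1 hx.of_append).2
    · obtain ⟨y, rfl⟩ := hx
      rw [app_lt (by simp; omega), List.getElem_append_right (by simp; omega),
        List.getElem_replicate]
  obtain ⟨r, h3, -, h4⟩ := exists_match c h1 _ k (bok_insert (H.lk.1.mono h1) h5
    (fun p hp x hx hx' => (h2 x hx).2 (H.lk.1.sub p hp x hx')) fun p hp e => h ⟨p.1, e ▸ hp⟩)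
    fun y => by
      rw [(h2 _ (in_app _ y)).1, inf_top_eq]
      exact H.le1 _
  exact ⟨r, h3, le_iSup_of_le _ (le_be (h4 ▸ Finset.mem_insert_self _ _))⟩

theorem be_disj {t t' : List Bool} {k k' : ℕ} (h : τ.be t k ⊓ τ.be t' k' ≠ ⊥)
    (h' : k = k' ∨ t <+: t') : t = t' ∧ k = k' := by
  obtain ⟨c, hc⟩ := exists_em_le h
  obtain ⟨r, h1, h2⟩ := of_be (hc.trans inf_le_left)
  obtain ⟨r', h3, h4⟩ := of_be ((em_mono h1).trans (hc.trans inf_le_right))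
  have h5 := h3.b rfl h2
  have B := r'.2.1.lk.1
  rcases h' with e | ⟨s, rfl⟩
  · exact Prod.ext_iff.1 (B.eq2 _ h5 _ h4 e)
  · exact Prod.ext_iff.1 (B.eq1 _ h5 _ h4 _ (in_app (t ++ s) z0).of_append (in_app _ z0))

theorem be_true {t : List Bool} {k : ℕ} (h : τ.be t k ≠ ⊥) : true ∈ t := by
  obtain ⟨c, hc⟩ := exists_em_le h
  obtain ⟨r, -, h2⟩ := of_be hc
  by_contra ht
  refine r.1.σ.not_O_z0 (r.2.1.lk.1.sub _ h2 z0 (in_iff.2 (mem_cylS.2 fun i hi => ?_)))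
  exact (Bool.eq_false_iff.2 fun e => ht (e ▸ List.getElem_mem hi)).symm

theorem be_le (t : List Bool) (k : ℕ) : τ.be t k ≤ ⨆ m, ⨆ _ : t.length ≤ m,
    ⨅ s, ⨅ _ : s.length = m ∧ t <+: s,
    ⨆ n, ⨆ l, ⨆ _ : cylS s ⊆ Zs l n, τ.eN τ.bM (τ.th n l) := by
  refine op_le.2 fun c hc => le_iSup₂_of_le (c.1.σ.T c.1.σ.n + c.1.σ.n + 2 + t.length)
    (Nat.le_add_left _ _) (le_iInf₂ ?_)
  rintro _ ⟨hs, s, rfl⟩
  obtain ⟨n, h1, h2⟩ := c.2.1.lk.1.sub _ hc _ (in_app (t ++ s) z0).of_append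
  refine le_iSup₂_of_le n (c.1.σ.T n) (le_iSup_of_le (fun x hx => ?_)
    ((em_le_eN τ.bM).2 (le_th (c := pr τ.bM c) h1)))
  refine ((lv_Zs _ n).of_in (s := t ++ s) ?_ (in_app _ z0) (in_iff.2 hx)).mp h2
  have := c.1.σ.mono h1.le
  omega

variable {τ} in
/-- match all cells of a finite family inside the open set -/
theorem exists_match_all (m : ℕ) (c : τ.P .M) (hc : ∀ p ∈ c.1.b, p.1.length ≤ m)
    (F : Finset (List Bool)) (hF : ∀ s ∈ F, s.length = m ∧ ∀ x, In s x → c.1.σ.O x) :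
    ∃ r, r ≤ c ∧ r.1.σ = c.1.σ ∧ (∀ p ∈ r.1.b, p.1.length ≤ m) ∧
      ∀ s ∈ F, ∃ t k, t <+: s ∧ (t, k) ∈ r.1.b := by
  induction F using Finset.induction_on with
  | empty => exact ⟨c, le_rfl, rfl, hc, fun _ h => absurd h (Finset.notMem_empty _)⟩
  | insert s F _ ih =>
    obtain ⟨r, h1, h2, h3, h4⟩ := ih fun s hs => hF s (Finset.mem_insert_of_mem hs)
    obtain ⟨h5, h6⟩ := hF s (Finset.mem_insert_self _ _)
    by_cases h : ∃ p ∈ r.1.b, ∃ x, In s x ∧ In p.1 x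
    · obtain ⟨p, hp, x, hx, hx'⟩ := h
      obtain ⟨w, hw⟩ := hx'.pref hx ((h3 p hp).trans h5.ge)
      exact ⟨r, h1, h2, h3, Finset.forall_mem_insert _ _ _ |>.2 ⟨⟨p.1, p.2, ⟨w, hw.symm⟩, hp⟩, h4⟩⟩
    · have H := r.2.1
      obtain ⟨K, hK⟩ := H.lc1.near
      obtain ⟨r', h7, h8, h9⟩ := exists_match r le_rfl s (K + r.1.b.sup Prod.snd + 1)
        (bok_insert H.lk.1 (h2 ▸ h6) (fun p hp x hx hx' => h ⟨p, hp, x, hx, hx'⟩) fun p hp e => by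
          have := Finset.le_sup (f := Prod.snd) hp
          omega)
        fun y => by
          rw [hK _ (by omega) _ (in_app _ y), H.z1, top_inf_eq]
          exact H.le2 _
      refine ⟨r', h7.trans h1, h8.trans h2, ?_, Finset.forall_mem_insert _ _ _ |>.2
        ⟨⟨s, _, List.prefix_rfl, h9 ▸ Finset.mem_insert_self _ _⟩, fun s' hs' => ?_⟩⟩
      · rw [h9]
        exact Finset.forall_mem_insert _ _ _ |>.2 ⟨h5.le, h3⟩
      · obtain ⟨t, k, e, e'⟩ := h4 s' hs'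
        exact ⟨t, k, e, h7.b rfl e'⟩

theorem th_le (n l : ℕ) : τ.eN τ.bM (τ.th n l) ≤ ⨆ m, ⨆ _ : l + n + 2 ≤ m,
    ⨅ s, ⨅ _ : s.length = m ∧ cylS s ⊆ Zs l n, ⨆ t, ⨆ k, ⨆ _ : t <+: s, τ.be t k := by
  classical
  refine le_of_em fun c hc => ?_
  obtain ⟨r₀, h1, h2, h3⟩ := of_th ((em_le_eN τ.bM).1 hc)
  obtain ⟨r, h4, h5, -⟩ := exists_lift τ.bM c h1
  have h6 : r.1.σ ≤ r₀.1.σ := h5.σ nofun
  obtain ⟨r', h7, -, -, h8⟩ := exists_match_all ((r.1.b.sup fun p => p.1.length) + (l + n + 2)) r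
    (fun p hp => (Finset.le_sup (f := fun p : List Bool × ℕ => p.1.length) hp).trans
      (Nat.le_add_right _ _))
    ((List.finite_length_eq Bool _).toFinset.filter fun s => cylS s ⊆ Zs l n) fun s hs => by
      rw [Finset.mem_filter, Set.Finite.mem_toFinset] at hs
      exact ⟨hs.1, fun x hx => Sh.O.mono ⟨n, h2, h3.symm ▸ hs.2 (in_iff.1 hx)⟩ h6⟩
  refine ⟨r', h7.trans h4, le_iSup₂_of_le ((r.1.b.sup fun p => p.1.length) + (l + n + 2))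
    (Nat.le_add_left _ _) (le_iInf₂ fun s hs => ?_)⟩
  obtain ⟨t, k, e, e'⟩ := h8 s (Finset.mem_filter.2 ⟨(Set.Finite.mem_toFinset _).2 hs.1, hs.2⟩)
  exact le_iSup₂_of_le t k (le_iSup_of_le e (le_be e'))

end Pool.Agent.Lib.MP_f79ffc_lc.U.Tp
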