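import Pool.Agent.Lib.MP_f79ffc_lc.U.G.PhiD
import Pool.Agent.Lib.MP_f79ffc_lc.U.G.Th
import Pool.Agent.Lib.MP_f79ffc_lc.U.G.Lab
import Pool.Agent.Lib.MP_f79ffc_lc.R.Lnk

/-! The maps `phi` are homomorphisms; their relations, full support and small cells. -/

namespace Pool.Agent.Lib.MP_f79ffc_lc.U

open Pool.Agent.Lib.MP_5d9fac_lc Pool.Agent.Lib.MP_f79ffc_lc.R Cardinal

section
variable {X : Type} [CompleteBooleanAlgebra X] [Fact (CCC X)]

theorem cell_le_Ev {a : X} {s : List Bool} {g : List Bool → X} (h : ∀ r, a ≤ g (s ++ r)) :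
    ri a ⊓ cyl s ≤ Ev g := le_of_sh (by rw [sh_ri, sh_Ev, ← Ev_const]; exact Ev_mono h)

theorem Ev_le_cells (g : List Bool → X) : Ev g ≤ ⨆ s, ⨆ _ : true ∈ s, ri (g s) ⊓ cyl s := by
  refine (Ev_mono' (g' := fun s => ⨆ _ : true ∈ s, g s) 0 fun s _ h =>
    le_iSup (fun _ : true ∈ s => g s) h).trans ?_
  rw [Ev_eq]
  refine iSup_le fun m => (iInf₂_le m le_rfl).trans (iSup_le fun s => le_iSup_of_le s.1 ?_)
  rw [map_iSup, inf_iSup_eq]
  exact iSup_mono fun _ => (inf_comm _ _).le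

theorem le_of_subcells {s : List Bool} (m : ℕ) {E F : RX X}
    (h : ∀ r : List Bool, r.length = m → E ⊓ cyl (s ++ r) ≤ F) : E ⊓ cyl s ≤ F := by
  have : (⊤ : RX X) ⊓ cyl s ≤ ⨆ r : {r : List Bool // r.length = m}, cyl (s ++ r.1) :=
    le_of_sh (by simp only [map_iSup, sh_cyl_append, iSup_cyl, le_top])
  rw [top_inf_eq] at this
  refine (inf_le_inf_left _ this).trans ?_
  rw [inf_iSup_eq]
  exact iSup_le fun r => h r.1 r.2

theorem le_of_compl {Z : Type} [CompleteBooleanAlgebra Z] {A A' T B : Z} (h0 : A ⊓ A' = ⊥)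
    (hA : A ≤ T) (h : T ⊓ Bᶜ ≤ A') : A ≤ B := by
  rw [← sdiff_eq_bot_iff, sdiff_eq, ← le_bot_iff, ← h0]
  exact le_inf inf_le_left ((inf_le_inf_right _ hA).trans h)

end

namespace Tp

variable {R J L : Type} [Preorder R] [Preorder J] [Preorder L] {τ : Tp R J L}

open Classical in
/-- write a label on an unlabelled cell of the sheet -/
theorem write2 {u : Nd τ.top} (c : τ.P u) {σ : Sh} (hσ : σ ≤ c.1.σ) {s : List Bool} (hs : true ∈ s)
    {p : τ.W u.ix} (hp : c.1.a ≤ τ.pA _ p) (h1 : ∀ x, In s x → c.1.w2 x = ⊤)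
    (h2 : ∀ x, In s x → ¬ c.1.σ.O x) :
    ∃ c' : τ.P u, c' ≤ c ∧ c'.1.σ = σ ∧ ∀ x, In s x → c'.1.w2 x = p := by
  refine ⟨⟨{ c.1 with σ := σ, w2 := fun x => if In s x then p else c.1.w2 x }, ⟨c.2.1.lc1,
    (lc_In s).comp₂ c.2.1.lc2 fun (q : Prop) y => if q then p else y, c.2.1.z1,
    (if_neg (not_in_z0 hs)).trans c.2.1.z2, c.2.1.le1, fun x => ?_, ?_⟩, c.2.2⟩,
    ⟨le_rfl, fun _ => hσ, fun _ => subset_rfl, fun _ _ => le_rfl, fun x _ => ?_⟩, rfl,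
    fun x hx => if_pos hx⟩
  · dsimp only
    split_ifs
    exacts [hp, c.2.1.le2 x]
  · have := c.2.1.lk
    cases u with
    | M => exact ⟨this.1.mono hσ, fun x x' l => (this.2 x x' l).trans
        (if_neg fun h => h2 x h (this.1.O l)).symm⟩
    | _ => trivial
  · dsimp only
    split_ifs with h
    exacts [le_top.trans (h1 x h).ge, le_rfl]

open Classical in
/-- write a label on an unlabelled cell of the core -/
theorem write1 {j : J} (c : τ.P (.C j)) {s : List Bool} (hs : true ∈ s)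
    {p : τ.W τ.top} (hp : c.1.a ≤ τ.pA _ p) (h1 : ∀ x, In s x → c.1.w1 x = ⊤) :
    ∃ c' : τ.P (.C j), c' ≤ c ∧ ∀ x, In s x → c'.1.w1 x = p := by
  refine ⟨⟨{ c.1 with w1 := fun x => if In s x then p else c.1.w1 x },
    ⟨(lc_In s).comp₂ c.2.1.lc1 fun (q : Prop) y => if q then p else y, c.2.1.lc2,
    (if_neg (not_in_z0 hs)).trans c.2.1.z1, c.2.1.z2, fun x => ?_, c.2.1.le2, trivial⟩, c.2.2⟩,
    ⟨le_rfl, fun _ => le_rfl, fun _ => subset_rfl, fun _ x => ?_, fun x _ => le_rfl⟩,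
    fun x hx => if_pos hx⟩
  · dsimp only
    split_ifs
    exacts [hp, c.2.1.le1 x]
  · dsimp only
    split_ifs with h
    exacts [le_top.trans (h1 x h).ge, le_rfl]

theorem exists_far {u : Nd τ.top} (c : τ.P u) : ∃ K, ∀ x, In (root K) x →
    c.1.w1 x = ⊤ ∧ c.1.w2 x = ⊤ ∧ ¬ c.1.σ.O x := by
  obtain ⟨a, ha⟩ := c.2.1.lc1.near
  obtain ⟨b, hb⟩ := c.2.1.lc2.near
  obtain ⟨d, hd⟩ := c.1.σ.lc_O.near
  exact ⟨a + b + d, fun x hx => ⟨(ha _ (by omega) x hx).trans c.2.1.z1,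
    (hb _ (by omega) x hx).trans c.2.1.z2, hd _ (by omega) x hx ▸ c.1.σ.not_O_z0⟩⟩

variable [∀ i, Fact (CCC (τ.Sg.X i))]

theorem ri_le_of_em {u : Nd τ.top} {x : τ.Xn u} {E F : RX (τ.Xn u)}
    (h : ∀ c, em c ≤ x → ∃ r, r ≤ c ∧ ri (em r) ⊓ E ≤ F) : ri x ⊓ E ≤ F :=
  le_himp_iff.1 (ri_le_iff.2 (le_of_em fun c hc =>
    (h c hc).imp fun _ H => ⟨H.1, ri_le_iff.1 (le_himp_iff.2 H.2)⟩))

theorem em_O {v : Nd τ.top} (h : Nd.C τ.bot ≤ v) (c : τ.P v) {s : List Bool}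
    (hs : ∀ x, In s x → c.1.σ.O x) : ri (em c) ⊓ cyl s ≤ (rmap (τ.eN h) τ.dd)ᶜ := by
  rw [← hm_compl, dd, compl_compl]
  refine (inf_le_inf_left _ (rg_mono (T := ⋃ m : {m // m < c.1.σ.n}, Zs (c.1.σ.T m.1) m.1)
    fun x hx => ?_)).trans ?_
  · obtain ⟨m, h1, h2⟩ := hs x (in_iff.2 hx)
    exact Set.mem_iUnion.2 ⟨⟨m, h1⟩, h2⟩
  rw [rg_iUnion fun _ => measurableSet_Zs _ _, inf_iSup_eq]
  simp only [map_iSup, map_inf, rmap_ri, rmap_rg]
  exact iSup_le fun m => le_iSup₂_of_le m.1 (c.1.σ.T m.1) (inf_le_inf_right _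
    (hm_mono _ ((em_le_eN h).2 (le_op ⟨m.2, rfl⟩))))

theorem land_off (k : KN τ.top) (c : τ.P (τ.ku k)) {s : List Bool}
    (hs : ∀ x, In s x → ¬ k.act c.1.σ x) : τ.land k ⊓ (ri (em c) ⊓ cyl s) = ⊥ := by
  cases k with
  | Y => exact disjoint_iff.1 (le_compl_iff_disjoint_left.1
      (em_O τ.bM c fun x hx => not_not.1 (hs x hx)))
  | E j => exact disjoint_iff.1 (le_compl_iff_disjoint_left.1
      (em_O (τ.bC j) c fun x hx => not_not.1 (hs x hx)))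
  | _ => exact absurd trivial (hs _ (in_app s z0))

open Classical in
theorem em_le_Big {v : Nd τ.top} (h : Nd.C τ.bot ≤ v) (c : τ.P v) {s : List Bool}
    (h1 : ∀ x, In s x → ¬ c.1.σ.O x) (h2 : s.length ≤ c.1.σ.T c.1.σ.n) :
    em c ≤ Big (1 / 2) (sh s (rmap (τ.eN h) τ.dd)) := by
  rw [← rmap_sh, Big_rmap, em_le_eN]
  refine (le_Big_oZ (θ := fun n k => if ∀ x, In s x → x ∉ Zs k n then ⊥ else τ.th n k)
    (fun n k k' e => le_bot_iff.1 ((inf_le_inf ?_ ?_).trans (τ.th_disj n e).le)) s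
    fun n k hk => ?_).trans (Big_mono le_rfl ?_)
  · split_ifs
    exacts [_root_.bot_le, le_rfl]
  · split_ifs
    exacts [_root_.bot_le, le_rfl]
  · split_ifs with e
    · exact inf_bot_eq _
    by_contra h0
    obtain ⟨r, hr⟩ := exists_em_le h0
    obtain ⟨r1, a1, a2⟩ := exists_of_em_le (hr.trans inf_le_left)
    obtain ⟨r2, c', b1, b2, b3⟩ := exists_of_le_op ((em_mono a1).trans (hr.trans inf_le_right))
    have s1 : r2.1.σ ≤ c.1.σ := (b1.trans a2).σ nofun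
    have s2 : r2.1.σ.T n = k := ((b2.σ nofun).2.1 n b3.1).trans b3.2
    rcases lt_or_ge n c.1.σ.n with hn | hn
    · exact e fun x hx hz => h1 x hx ⟨n, hn, by rwa [← s1.2.1 n hn, s2]⟩
    · have := s1.2.2 n
      rw [c.1.σ.ev n hn] at this
      omega
  · rw [dd, hm_compl, hm_compl, compl_le_compl_iff_le, oZ]
    simp only [map_iSup, map_inf]
    refine iSup₂_mono fun n k => ?_
    split_ifs with e
    · rw [sh_rg s (measurableSet_Zs k n), show app s ⁻¹' Zs k n = ∅ from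
        Set.eq_empty_of_forall_notMem fun y => e _ (in_app s y),
        rg_null MeasureTheory.measure_empty, inf_bot_eq, inf_bot_eq]
    · exact le_rfl

variable (τ)

theorem be_le_land (t : List Bool) (k : ℕ) : ri (τ.be t k) ⊓ cyl t ≤ τ.land .M :=
  ri_le_of_em fun c hc => by
    obtain ⟨r, c', h1, h2, h3⟩ := exists_of_le_op hc
    exact ⟨r, h1, em_O τ.bM r fun x hx => (r.2.1.bok rfl).sub _ (h2.b rfl h3) x hx⟩

theorem land_M : τ.land .M = ⨆ t, ⨆ k, ri (τ.be t k) ⊓ cyl t := by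
  refine le_antisymm ?_ (iSup₂_le τ.be_le_land)
  rw [land, ← hm_compl, dd, compl_compl]
  simp only [map_iSup, map_inf, rmap_ri, rmap_rg]
  refine iSup₂_le fun n l => (inf_le_inf_right _ (hm_mono _ (τ.th_le n l))).trans ?_
  simp only [map_iSup, iSup_inf_eq]
  refine iSup₂_le fun m hm => ?_
  rw [← inf_top_eq (_ ⊓ rg _), ← cyl_nil]
  refine le_of_subcells m fun s hs => ?_
  rw [List.nil_append]
  by_cases e : cylS s ⊆ Zs l n
  · refine (inf_le_inf_right _ (inf_le_left.trans (hm_mono _ (iInf₂_le s ⟨hs, e⟩)))).trans ?_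
    simp only [map_iSup, iSup_inf_eq]
    exact iSup₂_mono fun t k => iSup_le fun ht => inf_le_inf_left _ (cyl_anti ht)
  · rw [inf_assoc, cyl, ← rg_inter (measurableSet_Zs _ _) (measurableSet_cylS _),
      show Zs l n ∩ cylS s = ∅ from Set.eq_empty_of_forall_notMem fun y hy => e fun z hz =>
        (lv_Zs l n y z (((in_iff.2 hy.2).ag (in_iff.2 hz)).mono (hs ▸ hm))).mp hy.1,
      rg_null MeasureTheory.measure_empty, inf_bot_eq]
    exact _root_.bot_le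

theorem ge_le_Big (s : List Bool) : τ.ge 0 s.length ≤ Big (1 / 2) (sh s τ.dd) :=
  le_Big_oZ (θ := τ.th) (fun n _ _ e => τ.th_disj n e) s fun _ _ hk => τ.ge_th hk

theorem lab_le_phi (k : KN τ.top) (s : List Bool) (w : τ.W k.ix) :
    τ.land k ⊓ ri (τ.Lab k s w) ⊓ cyl s ≤ τ.phi k w := by
  rw [inf_assoc]
  exact inf_le_inf_left _ (cell_le_Ev fun r => τ.lab_append k s r w)

theorem phi_eq (k : KN τ.top) (w : τ.W k.ix) :
    τ.phi k w = ⨆ s, ⨆ _ : true ∈ s, τ.land k ⊓ ri (τ.Lab k s w) ⊓ cyl s := by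
  refine le_antisymm ((inf_le_inf_left _ (Ev_le_cells _)).trans ?_)
    (iSup₂_le fun s _ => τ.lab_le_phi k s w)
  simp only [inf_iSup_eq, inf_assoc, le_refl]

theorem phi_mono (k : KN τ.top) {w w' : τ.W k.ix} (h : w ≤ w') : τ.phi k w ≤ τ.phi k w' :=
  inf_le_inf_left _ (Ev_mono fun s => τ.lab_mono k s h)

theorem phi_sSup (k : KN τ.top) (S : Set (τ.W k.ix)) : τ.phi k (sSup S) = ⨆ w ∈ S, τ.phi k w := by
  refine le_antisymm ?_ (iSup₂_le fun w hw => τ.phi_mono k (le_sSup hw))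
  rw [phi_eq]
  refine iSup₂_le fun s hs => ?_
  rw [inf_comm (τ.land k), inf_assoc]
  refine ri_le_of_em fun c hc => ?_
  obtain ⟨c', m, h1, h2⟩ := τ.lab_dense k hs S hc
  refine ⟨c', h1, ?_⟩
  rw [← inf_assoc, inf_comm _ (τ.land k)]
  refine le_of_subcells m fun r hr => ?_
  rcases h2 r hr with ⟨w, hw, h3⟩ | h3
  · exact le_iSup₂_of_le w hw (le_trans (inf_le_inf_right _ (inf_le_inf_left _
      (hm_mono _ (le_op h3)))) (τ.lab_le_phi k _ w))
  · rw [inf_assoc, land_off k c' h3]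
    exact _root_.bot_le

theorem phi_inf (k : KN τ.top) (w w' : τ.W k.ix) :
    τ.phi k (w ⊓ w') = τ.phi k w ⊓ τ.phi k w' := by
  simp only [phi, lab_inf, ← Ev_inf]
  exact inf_inf_distrib_left _ _ _

theorem phi_top (k : KN τ.top) : τ.phi k ⊤ = τ.land k := by
  simp only [phi, lab_top, Ev_const, map_top, inf_top_eq]

theorem phi_bot (k : KN τ.top) : τ.phi k ⊥ = ⊥ := by simpa using τ.phi_sSup k ∅

theorem phi_compl (k : KN τ.top) (w : τ.W k.ix) : τ.land k ⊓ (τ.phi k w)ᶜ ≤ τ.phi k wᶜ := by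
  have := τ.phi_sSup k {w, wᶜ}
  rw [sSup_pair, iSup_pair, sup_compl_eq_top, phi_top] at this
  rw [this, inf_sup_right, inf_compl_eq_bot, bot_sup_eq]
  exact inf_le_left

theorem phi_disj (k : KN τ.top) (w : τ.W k.ix) : τ.phi k w ⊓ τ.phi k wᶜ = ⊥ := by
  rw [← phi_inf, inf_compl_eq_bot, phi_bot]

theorem phi_base (k : KN τ.top) (a : τ.A) :
    τ.phi k (τ.eA _ a) = τ.land k ⊓ ri (τ.eB (τ.ku k) a) := by
  have key : ∀ a : τ.A, τ.land k ⊓ ri (τ.eB (τ.ku k) a) ≤ τ.phi k (τ.eA _ a) := fun a =>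
    inf_le_inf_left _ ((Ev_const _).ge.trans (Ev_mono fun s => τ.lab_base k s a))
  refine le_antisymm (le_inf inf_le_left (le_of_compl (τ.phi_disj k _) inf_le_left ?_)) (key a)
  refine le_trans (inf_le_inf_left _ (le_of_eq ?_)) ((key aᶜ).trans (le_of_eq ?_))
  · exact ((congrArg ri (hm_compl (τ.eB (τ.ku k)) a)).trans (hm_compl ri _)).symm
  · exact congrArg _ (hm_compl _ _)

theorem land_le {k k' : KN τ.top} (h : k ≤ k') (hk : k = .C0 → k' = .C0) :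
    τ.land k' ≤ rmap (τ.eN (τ.ku_mono h)) (τ.land k) := by
  have i : ∀ {u : Nd τ.top} (h : u ≤ u) (E : RX (τ.Xn u)), E ≤ rmap (τ.eN h) E := fun h E =>
    (rmap_id (fun x => τ.Sg.e_refl _ x) E).ge
  have t : ∀ {u v : Nd τ.top} (h : u ≤ v) (E : RX (τ.Xn v)), E ≤ rmap (τ.eN h) ⊤ := fun h E =>
    le_top.trans (map_top _).ge
  have r : ∀ {u v : Nd τ.top} (h0 : Nd.C τ.bot ≤ u) (h : u ≤ v) (h1 : Nd.C τ.bot ≤ v),
      rmap (τ.eN h1) τ.dd ≤ rmap (τ.eN h) (rmap (τ.eN h0) τ.dd) := fun h0 h h1 =>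
    (rmap_rmap (fun x => τ.Sg.e_trans _ _ x) _).ge
  match k, k', h, hk with
  | .N, .N, _, _ => exact t _ _
  | .N, .M, _, _ => exact t _ _
  | .N, .Y, _, _ => exact t _ _
  | .M, .M, _, _ => exact i _ _
  | .Y, .Y, _, _ => exact i _ _
  | .C0, .C0, _, _ => exact i _ _
  | .C0, .M, _, hk => exact absurd (hk rfl) nofun
  | .E j, .E j', _, _ => exact r _ _ _
  | .E j, .Y, _, _ => exact r _ _ _
  | .N, .C0, h, _ | .N, .E _, h, _ | .M, .N, h, _ | .M, .Y, h, _ | .M, .C0, h, _ | .M, .E _, h, _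
  | .Y, .N, h, _ | .Y, .M, h, _ | .Y, .C0, h, _ | .Y, .E _, h, _ | .C0, .N, h, _ | .C0, .Y, h, _
  | .C0, .E _, h, _ | .E _, .N, h, _ | .E _, .M, h, _ | .E _, .C0, h, _ => exact h.elim

theorem phi_e {k k' : KN τ.top} (h : k ≤ k') (hk : k = .C0 → k' = .C0) (w : τ.W k.ix) :
    τ.phi k' (τ.eW (KN.ix_mono h) w) = τ.land k' ⊓ rmap (τ.eN (τ.ku_mono h)) (τ.phi k w) := by
  have key : ∀ w, τ.land k' ⊓ rmap (τ.eN (τ.ku_mono h)) (τ.phi k w) ≤
      τ.phi k' (τ.eW (KN.ix_mono h) w) := fun w => inf_le_inf_left _ (by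
    rw [phi, map_inf, rmap_Ev]
    exact inf_le_right.trans (Ev_mono fun s => τ.lab_e h hk s w))
  refine le_antisymm (le_inf inf_le_left (le_of_compl (τ.phi_disj k' _) inf_le_left ?_)) (key w)
  rw [← hm_compl, ← hm_compl]
  refine le_trans (le_inf inf_le_left ?_) (key wᶜ)
  refine (inf_le_inf_right _ (τ.land_le h hk)).trans ?_
  rw [← map_inf]
  exact hm_mono _ (τ.phi_compl k w)

theorem phi_link (t : List Bool) (k : ℕ) (w : τ.W τ.top) :
    ri (τ.be t k) ⊓ sh t (τ.phi .M w) =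
      ri (τ.be t k) ⊓ rmap (τ.eN τ.bM) (sh (root k) (τ.phi .C0 w)) := by
  have h := hm_mono (sh t) (τ.be_le_land t k)
  rw [map_inf, sh_ri, sh_cyl, inf_top_eq] at h
  rw [phi, phi, map_inf, ← inf_assoc, inf_eq_left.2 h, show τ.land .C0 = ⊤ from rfl, top_inf_eq,
    sh_Ev, sh_Ev, rmap_Ev, ri_inf_Ev, ri_inf_Ev]
  exact congrArg Ev (funext fun r => (τ.lab_link t k r w).symm)

theorem le_Pos_phi (k : KN τ.top) {c : τ.P (τ.ku k)} {s : List Bool} {p : τ.W k.ix}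
    (h1 : ∀ x, In s x → τ.foc k c.1 x = p) (h2 : em c ≤ Big (1 / 2) (sh s (τ.land k))) :
    em c ≤ Pos (τ.phi k p) := by
  have h3 : em c ≤ τ.Lab k s p := le_op fun x hx _ => inf_le_left.trans (h1 x hx).le
  have h4 := hm_mono (sh s) (τ.lab_le_phi k s p)
  rw [map_inf, map_inf, sh_ri, sh_cyl, inf_top_eq, inf_comm] at h4
  refine (le_inf h3 h2).trans ((Big_loc h4 _).trans ((Big_le_Pos (by norm_num) _).trans ?_))
  rw [Pos_le, ← sh_ri s]
  exact hm_mono _ (le_map_pj _ _)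

/-- full support -/
theorem phi_pos (k : KN τ.top) (hk : k ≠ .M) (p : τ.W k.ix) :
    τ.eB (τ.ku k) (τ.pA _ p) ≤ Pos (τ.phi k p) := by
  refine le_of_em fun c hc => ?_
  rw [em_le_eB] at hc
  obtain ⟨K, hK⟩ := exists_far c
  have two : ∀ {u : Nd τ.top} (h : Nd.C τ.bot ≤ u) (c c' : τ.P u),
      (∀ x, In (root K) x → ¬ c.1.σ.O x) → c'.1.σ = c.1.σ.up (K + 1) 0 →
      em c' ≤ Big (1 / 2) (sh (root K) (rmap (τ.eN h) τ.dd)) := fun h c c' h1 e =>
    em_le_Big h c' (fun x hx => by rw [e, Sh.O_congr (Sh.up_le _ _ _) rfl]; exact h1 x hx) (by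
      rw [e, length_root]
      exact (le_max_right _ _).trans (Sh.up_T _ _ _ (Nat.le_add_right _ 0)).ge)
  have top : ∀ {u : Nd τ.top} (c : τ.P u), em c ≤ Big (1 / 2) (sh (root K) ⊤) := fun c => by
    rw [map_top, Big_top (by norm_num)]; exact le_top
  cases k with
  | M => exact absurd rfl hk
  | C0 =>
    obtain ⟨c', h1, h2⟩ := write1 c (true_mem_root K) hc fun x hx => (hK x hx).1
    exact ⟨c', h1, τ.le_Pos_phi .C0 h2 (top _)⟩
  | N =>
    obtain ⟨c', h1, -, h2⟩ := write2 c le_rfl (true_mem_root K) hc (fun x hx => (hK x hx).2.1)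
      fun x hx => (hK x hx).2.2
    exact ⟨c', h1, τ.le_Pos_phi .N h2 (top _)⟩
  | Y =>
    obtain ⟨c', h1, e, h2⟩ := write2 c (Sh.up_le _ (K + 1) 0) (true_mem_root K) hc
      (fun x hx => (hK x hx).2.1) fun x hx => (hK x hx).2.2
    exact ⟨c', h1, τ.le_Pos_phi .Y h2 (two τ.bM c c' (fun x hx => (hK x hx).2.2) e)⟩
  | E j =>
    obtain ⟨c', h1, e, h2⟩ := write2 c (Sh.up_le _ (K + 1) 0) (true_mem_root K) hc
      (fun x hx => (hK x hx).2.1) fun x hx => (hK x hx).2.2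
    exact ⟨c', h1, τ.le_Pos_phi (.E j) h2 (two (τ.bC j) c c' (fun x hx => (hK x hx).2.2) e)⟩

/-- `phi N` as a homomorphism -/
noncomputable def phiN : Hm (τ.W τ.top) (RX (τ.Xn .N)) :=
  mkHm (τ.phi .N) (τ.phi_sSup .N) (τ.phi_inf .N) (τ.phi_top .N)

theorem lab_le_phiN (s : List Bool) (w : τ.W τ.top) : ri (τ.Lab .N s w) ≤ sh s (τ.phiN w) := by
  have h := hm_mono (sh s) (τ.lab_le_phi .N s w)
  rwa [show τ.land .N = ⊤ from rfl, top_inf_eq, map_inf, sh_ri, sh_cyl, inf_top_eq] at h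

/-- the atomless step of CLAIM A -/
theorem phi_small {s : List Bool} (hs : true ∈ s) {p : τ.W τ.top} {x : ℕ → τ.W τ.top}
    (hx : ∀ z : ℕ → τ.A, p ⊓ eqv x (fun n => τ.eA _ (z n)) = ⊥) {ε : ℝ} (hε : 0 < ε) :
    τ.Lab .N s p ≤ ⨆ n, ⨅ v : List Bool, ⨅ _ : v.length = n,
      Big ε (sh s (τ.phiN (inC x v)))ᶜ := by
  classical
  refine le_of_forall_inf fun q h0 hq => ?_
  obtain ⟨m, hm⟩ := exists_pow_lt_of_lt_one hε (by norm_num : (1 / 2 : ℝ) < 1)
  obtain ⟨q', a1, a2, m', a3, a4⟩ := τ.lab_sep hs hx m h0 hq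
  choose! n b hn using a4
  obtain ⟨N, hN⟩ := (((List.finite_length_eq Bool m').prod (List.finite_length_eq Bool m')).image
    fun r => n r.1 r.2).bddAbove
  refine ne_bot_of_le (le_inf a2 (le_iSup_of_le (N + 1) (le_iInf₂ fun v hv => ?_))) a1
  obtain ⟨r0, e0, hr0⟩ : ∃ r0 : List Bool, r0.length = m' ∧ ∀ r : List Bool, r.length = m' →
      r ≠ r0 → ∃ w, w ⊓ inC x v = ⊥ ∧ q' ≤ τ.Lab .N (s ++ r) w := by
    by_contra hc
    push Not at hc
    obtain ⟨r, h1, -, h2⟩ := hc (List.replicate m' false) List.length_replicate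
    obtain ⟨r', h3, h4, h5⟩ := hc r h1
    have h6 : n r' r < v.length := by
      rw [hv]; exact Nat.lt_succ_of_le (hN ⟨(r', r), ⟨h3, h1⟩, rfl⟩)
    have h7 := le_inC.1 (le_refl (inC x v)) _ h6
    have h8 := hn r' r h3 h1 h4
    have h9 : ∀ c : Bool, c ≠ v[n r' r] → lit c (x (n r' r)) ⊓ inC x v = ⊥ := fun c hc =>
      le_bot_iff.1 ((inf_le_inf_left _ h7).trans (by
        revert hc
        cases c <;> cases v[n r' r] <;> simp [lit]))
    by_cases e : b r' r = v[n r' r]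
    · exact h2 _ (h9 _ (by rw [← e]; cases b r' r <;> simp)) (h8.trans inf_le_right)
    · exact h5 _ (h9 _ e) (h8.trans inf_le_left)
  refine le_trans (le_inf le_rfl (le_top.trans (Big_rg (ε := ε)
    (measurableSet_cylS r0).compl ?_).ge)) (Big_loc ?_ _)
  · rw [MeasureTheory.probReal_compl_eq_one_sub (measurableSet_cylS r0), lam_cylS, e0]
    have := pow_le_pow_of_le_one (by norm_num : (0 : ℝ) ≤ 1 / 2) (by norm_num) a3
    linarith
  rw [rg_compl (measurableSet_cylS r0), ← inf_top_eq (_ ⊓ _), ← cyl_nil]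
  refine le_of_subcells m' fun r hr => ?_
  rw [List.nil_append]
  by_cases e : r = r0
  · rw [e, inf_assoc, cyl, compl_inf_eq_bot, inf_bot_eq]
    exact _root_.bot_le
  obtain ⟨w, h1, h2⟩ := hr0 r hr e
  have h3 : ri q' ⊓ cyl r ≤ sh s (τ.phiN w) := le_of_sh (by
    rw [sh_ri, ← sh_append]
    exact (hm_mono _ h2).trans (τ.lab_le_phiN _ w))
  refine (inf_le_inf_right _ inf_le_left).trans (h3.trans ?_)
  rw [le_compl_iff_disjoint_right, disjoint_iff, ← map_inf, ← map_inf, h1, map_bot, map_bot]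

end Tp

end Pool.Agent.Lib.MP_f79ffc_lc.U
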