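import Pool.Agent.Lib.MP_f79ffc_lc.U.G.Card
import Pool.Agent.Lib.MP_f79ffc_lc.U.G.G0
import Pool.Agent.Lib.MP_f79ffc_lc.U.G.Th
import Pool.Agent.Lib.MP_f79ffc_lc.U.G.Lab
import Pool.Agent.Lib.MP_f79ffc_lc.U.G.Phi

/-! The exports of the generator. -/
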