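import Pool.Agent.Lib.MP_f79ffc_lc.U.G.K

/-! The algebras of the generator system have size at most continuum. -/

namespace Pool.Agent.Lib.MP_f79ffc_lc.U

open Pool.Agent.Lib.MP_5d9fac_lc Pool.Agent.Lib.MP_f79ffc_lc.R Cardinal

theorem mk_lc_le {α : Type} (h : #α ≤ 𝔠) : #{w : Pt → α // LC w} ≤ 𝔠 := by
  choose n hn using fun w : {w : Pt → α // LC w} => w.2
  have h1 : Function.Injective fun w : {w : Pt → α // LC w} =>
      ((n w, fun s => w.1 (app s z0)) : ℕ × (List Bool → α)) := fun w w' e => by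
    obtain ⟨e1, e2⟩ := Prod.mk.inj e
    refine Subtype.ext (funext fun x => ?_)
    have k : ∀ v : {w : Pt → α // LC w}, v.1 x = v.1 (app (res x (n v)) z0) := fun v =>
      (hn v).of_in (s := res x (n v)) (by simp) (in_res _ _) (in_app _ _)
    rw [k w, k w', ← e1]
    exact congrFun e2 _
  refine (mk_le_of_injective h1).trans ?_
  rw [mk_prod, lift_id, lift_id, ← power_def]
  exact (mul_le_mul' (mk_le_aleph0.trans aleph0_le_continuum)
    ((power_le_power_right h).trans ((power_le_power_left continuum_ne_zero mk_le_aleph0).trans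
      continuum_power_aleph0.le))).trans continuum_mul_self.le

theorem mk_prod_le_c {α β : Type} (h : #α ≤ 𝔠) (h' : #β ≤ 𝔠) : #(α × β) ≤ 𝔠 := by
  rw [mk_prod, lift_id, lift_id]
  exact (mul_le_mul' h h').trans continuum_mul_self.le

theorem mk_RO_le_c {P : Type} [Preorder P] (h : CCC (RO P)) (hP : #P ≤ 𝔠) : #(RO P) ≤ 𝔠 := by
  have h1 : #(RO P) ≤ #{t : Set P // #t ≤ ℵ₀} :=
    mk_le_of_surjective (f := fun t => ⨆ s : t.1, RO.emb s.1) fun b => by
      obtain ⟨T, h1, h2⟩ := RO.exists_countable h b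
      exact ⟨⟨T, le_aleph0_iff_set_countable.2 h1⟩, h2.symm⟩
  refine h1.trans ((mk_bounded_set_le P ℵ₀).trans ?_)
  rw [← continuum_power_aleph0]
  exact power_le_power_right (max_le hP aleph0_le_continuum)

namespace Tp

variable {R J L : Type} [Preorder R] [Preorder J] [Preorder L] (τ : Tp R J L)

theorem mk_P (hc : ∀ l, #(τ.St.X l) ≤ 𝔠) (u : Nd τ.top) : #(τ.P u) ≤ 𝔠 := by
  have h1 : Function.Injective fun c : τ.P u => ((c.1.a, (c.1.σ, c.1.b), ⟨c.1.w1, c.2.1.lc1⟩,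
      ⟨c.1.w2, c.2.1.lc2⟩) : τ.A × (Sh × Finset (List Bool × ℕ)) ×
        {w : Pt → τ.W τ.top // LC w} × {w : Pt → τ.W u.ix // LC w}) := fun c c' e => by
    simp only [Prod.mk.injEq, Subtype.mk.injEq] at e
    exact Subtype.ext (Cd.ext e.1 e.2.1.1 e.2.1.2 e.2.2.1 e.2.2.2)
  exact (mk_le_of_injective h1).trans (mk_prod_le_c (hc _) (mk_prod_le_c
    (mk_le_aleph0.trans aleph0_le_continuum) (mk_prod_le_c (mk_lc_le (hc _)) (mk_lc_le (hc _)))))

theorem mk_Sg (h : τ.St.K) (hc : ∀ l, #(τ.St.X l) ≤ 𝔠) (i : GI τ.a τ.top) : #(τ.Sg.X i) ≤ 𝔠 := by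
  cases i with
  | root r => exact hc _
  | nd u => exact mk_RO_le_c ((τ.K_Sg h).ccc (.nd u)) (τ.mk_P hc u)

end Tp

end Pool.Agent.Lib.MP_f79ffc_lc.U
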