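import Pool.Agent.Lib.MP_f79ffc_lc.R.Pt

/-! Cells of the Cantor space, locally constant functions, links and shapes. -/

namespace Pool.Agent.Lib.MP_f79ffc_lc.U

open Pool.Agent.Lib.MP_f79ffc_lc.R

/-- the point `0^ω` -/
def z0 : Pt := fun _ => false

/-- `x` lies in the cell `s` -/
def In (s : List Bool) (x : Pt) : Prop := ∃ y, x = app s y

/-- agreement below `n` -/
def Ag (n : ℕ) (x y : Pt) : Prop := ∀ i, i < n → x i = y i

/-- constant on the cells of length `n` -/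
def Lv {α : Type} (n : ℕ) (w : Pt → α) : Prop := ∀ x y, Ag n x y → w x = w y

/-- locally constant -/
def LC {α : Type} (w : Pt → α) : Prop := ∃ n, Lv n w

theorem Ag.rfl' (n : ℕ) (x : Pt) : Ag n x x := fun _ _ => rfl

theorem Ag.symm {n : ℕ} {x y : Pt} (h : Ag n x y) : Ag n y x := fun i hi => (h i hi).symm

theorem Ag.trans {n : ℕ} {x y z : Pt} (h : Ag n x y) (h' : Ag n y z) : Ag n x z :=
  fun i hi => (h i hi).trans (h' i hi)

theorem Ag.mono {n m : ℕ} {x y : Pt} (h : Ag n x y) (hm : m ≤ n) : Ag m x y :=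
  fun i hi => h i (hi.trans_le hm)

theorem Ag.app {n : ℕ} {x y : Pt} (h : Ag n x y) (s : List Bool) :
    Ag (s.length + n) (app s x) (app s y) := fun i hi => by
  rcases lt_or_ge i s.length with h1 | h1
  · rw [app_lt h1, app_lt h1]
  · obtain ⟨j, rfl⟩ := Nat.exists_eq_add_of_le h1
    rw [app_add, app_add, h j (by omega)]

theorem Ag.drop {n m : ℕ} {x y : Pt} (h : Ag (m + n) x y) : Ag n (drop m x) (drop m y) :=
  fun i hi => h _ (by omega)

theorem ag_app (s : List Bool) (x y : Pt) : Ag s.length (app s x) (app s y) :=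
  (Ag.app (n := 0) (fun _ h => absurd h (Nat.not_lt_zero _)) s)

theorem in_iff {s : List Bool} {x : Pt} : In s x ↔ x ∈ cylS s :=
  ⟨fun ⟨y, h⟩ => h ▸ app_mem_cylS s y, fun h => ⟨_, (app_drop h).symm⟩⟩

theorem app_drp {s : List Bool} {x y : Pt} (h : Ag s.length x (app s y)) :
    x = app s (drop s.length x) :=
  (app_drop (mem_cylS.2 fun i hi => (h i hi).trans (app_lt hi y))).symm

theorem in_app (s : List Bool) (y : Pt) : In s (app s y) := ⟨y, rfl⟩

theorem in_res (n : ℕ) (x : Pt) : In (res x n) x := in_iff.2 (mem_cylS_res x n)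

theorem In.of_ag {s : List Bool} {x y : Pt} (h : In s x) (h' : Ag s.length y x) : In s y := by
  obtain ⟨z, rfl⟩ := h
  exact ⟨_, app_drp h'⟩

theorem In.ag {s : List Bool} {x y : Pt} (h : In s x) (h' : In s y) : Ag s.length x y := by
  obtain ⟨z, rfl⟩ := h
  obtain ⟨z', rfl⟩ := h'
  exact ag_app s z z'

theorem In.of_append {s t : List Bool} {x : Pt} (h : In (s ++ t) x) : In s x := by
  obtain ⟨z, rfl⟩ := h
  exact ⟨_, app_append s t z⟩

theorem in_append {s t : List Bool} {y : Pt} : In (s ++ t) (app s y) ↔ In t y :=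
  ⟨fun ⟨z, h⟩ => ⟨z, app_injective _ (h.trans (app_append s t z))⟩,
    fun ⟨z, h⟩ => ⟨z, by rw [h, app_append]⟩⟩

theorem In.eq_of_length {s t : List Bool} {x : Pt} (h : In s x) (h' : In t x)
    (e : s.length = t.length) : s = t := eq_of_mem_cylS (in_iff.1 h) (in_iff.1 h') e

theorem In.pref {s t : List Bool} {x : Pt} (h : In s x) (h' : In t x)
    (e : s.length ≤ t.length) : ∃ r, t = s ++ r := by
  obtain ⟨r, hr⟩ := (mem_cylS_iff_prefix e).1 (in_iff.1 h)
  exact ⟨r, (show res x t.length = t from in_iff.1 h').symm.trans hr.symm⟩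

theorem in_root {k : ℕ} {x : Pt} : In (root k) x ↔ (∀ i, i < k → x i = false) ∧ x k = true :=
  (in_iff.trans mem_cylS_root).trans and_comm

theorem In.root_unique {k l : ℕ} {x : Pt} (h : In (root k) x) (h' : In (root l) x) : k = l :=
  R.root_unique (in_iff.1 h) (in_iff.1 h')

theorem exists_in_root {x : Pt} (h : x ≠ z0) : ∃ k, In (root k) x := by
  refine (exists_root ?_).imp fun _ => in_iff.2
  by_contra hc
  exact h (funext fun k => Bool.eq_false_iff.2 fun e => hc ⟨k, e⟩)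

theorem not_in_z0 {s : List Bool} (h : true ∈ s) : ¬ In s z0 := fun ⟨y, e⟩ => by
  obtain ⟨i, hi, e'⟩ := List.getElem_of_mem h
  have := congrFun e i
  rw [app_lt hi, e'] at this
  exact absurd this (by simp [z0])

theorem true_mem_root (k : ℕ) : true ∈ root k := by simp [root]

theorem In.ag_z0 {k n : ℕ} {x : Pt} (h : In (root k) x) (hn : n ≤ k) : Ag n x z0 :=
  fun i hi => (in_root.1 h).1 i (hi.trans_le hn)

theorem not_Zs_z0 (k n : ℕ) : z0 ∉ Zs k n := fun h => absurd (h k le_rfl (by omega)) (by simp [z0])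

theorem exists_root_pref {s : List Bool} (h : true ∈ s) : ∃ k r, s = root k ++ r := by
  obtain ⟨k, hk⟩ := exists_in_root (x := app s z0) fun e => not_in_z0 h (e ▸ in_app s z0)
  refine ⟨k, hk.pref (in_app s z0) ?_⟩
  by_contra hc
  rw [length_root] at hc
  exact not_in_z0 h ((in_app s z0).of_ag (hk.ag_z0 (by omega)).symm)

section
variable {α β γ : Type}

theorem Lv.mono {n m : ℕ} {w : Pt → α} (h : Lv n w) (hm : n ≤ m) : Lv m w :=
  fun x y e => h x y (e.mono hm)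

theorem Lv.of_in {n : ℕ} {w : Pt → α} (h : Lv n w) {s : List Bool} (hs : n ≤ s.length) {x y : Pt}
    (hx : In s x) (hy : In s y) : w x = w y := h x y ((hx.ag hy).mono hs)

theorem LC.const (a : α) : LC fun _ => a := ⟨0, fun _ _ _ => rfl⟩

theorem LC.comp {w : Pt → α} (h : LC w) (f : α → β) : LC fun x => f (w x) :=
  h.imp fun _ h x y e => congrArg f (h x y e)

theorem LC.comp₂ {w : Pt → α} {v : Pt → β} (h : LC w) (h' : LC v) (f : α → β → γ) :
    LC fun x => f (w x) (v x) := by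
  obtain ⟨n, h⟩ := h
  obtain ⟨m, h'⟩ := h'
  exact ⟨n + m, fun x y e => by
    show f (w x) (v x) = f (w y) (v y)
    rw [h x y (e.mono (by omega)), h' x y (e.mono (by omega))]⟩

theorem LC.app {w : Pt → α} (h : LC w) (s : List Bool) : LC fun x => w (app s x) :=
  h.imp fun _ h _ _ e => h _ _ ((e.app s).mono (by omega))

theorem LC.drop {w : Pt → α} (h : LC w) (m : ℕ) : LC fun x => w (drop m x) := by
  obtain ⟨n, h⟩ := h
  exact ⟨m + n, fun x y e => h _ _ e.drop⟩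

theorem lv_In (s : List Bool) : Lv s.length (In s) :=
  fun _ _ e => propext ⟨fun h => h.of_ag e.symm, fun h => h.of_ag e⟩

theorem lc_In (s : List Bool) : LC (In s) := ⟨_, lv_In s⟩

theorem lv_Zs (k n : ℕ) : Lv (k + n + 2) (· ∈ Zs k n) := fun _ _ e =>
  propext ⟨fun h i h1 h2 => (e i h2).symm.trans (h i h1 h2), fun h i h1 h2 => (e i h2).trans (h i h1 h2)⟩

theorem LC.finite {w : Pt → α} (h : LC w) : (Set.range w).Finite := by
  obtain ⟨n, h⟩ := h
  refine (Set.finite_range fun f : Fin n → Bool => w (R.app (List.ofFn f) z0)).subset ?_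
  rintro _ ⟨x, rfl⟩
  exact ⟨fun i => x i, h.of_in (s := List.ofFn fun i : Fin n => x i) (by simp) (in_app _ _)
    (in_iff.2 (mem_cylS.2 fun i hi => by simp))⟩

theorem LC.near {w : Pt → α} (h : LC w) : ∃ n, ∀ k, n ≤ k → ∀ x, In (root k) x → w x = w z0 :=
  h.imp fun _ h _ hk _ hx => h _ _ (hx.ag_z0 hk)

theorem lc_link [CompleteLattice α] (b : Finset β) (f g : β → List Bool) {w : Pt → α} (h : LC w) :
    LC fun x => ⨅ x', ⨅ _ : ∃ p ∈ b, ∃ y, x = app (f p) y ∧ x' = app (g p) y, w x' := by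
  obtain ⟨n, h⟩ := h
  have key : ∀ x1 x2, Ag ((b.sup fun p => (f p).length) + n) x1 x2 →
      (⨅ x', ⨅ _ : ∃ p ∈ b, ∃ y, x1 = app (f p) y ∧ x' = app (g p) y, w x') ≤
        ⨅ x', ⨅ _ : ∃ p ∈ b, ∃ y, x2 = app (f p) y ∧ x' = app (g p) y, w x' := fun x1 x2 e => by
    refine le_iInf₂ ?_
    rintro _ ⟨p, hp, y, rfl, rfl⟩
    have e1 := e.mono (Nat.add_le_add_right (Finset.le_sup (f := fun p => (f p).length) hp) n)
    refine (iInf₂_le _ ⟨p, hp, _, app_drp (e1.mono (Nat.le_add_right _ _)), rfl⟩).trans (h _ _ ?_).le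
    have e2 := e1.drop
    rw [drop_app] at e2
    exact (e2.app _).mono (Nat.le_add_left _ _)
  exact ⟨_, fun x y e => le_antisymm (key x y e) (key y x e.symm)⟩

end

/-- the point `x` of the sheet is linked to the point `x'` of the core -/
def Link (b : Finset (List Bool × ℕ)) (x x' : Pt) : Prop :=
  ∃ p ∈ b, ∃ y, x = app p.1 y ∧ x' = app (root p.2) y

/-- finitely many values of a nondecreasing sequence and a lower bound for the next ones -/
@[ext] structure Sh where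
  n : ℕ
  T : ℕ → ℕ
  mono : Monotone T
  ev : ∀ m, n ≤ m → T m = T n

namespace Sh

instance : PartialOrder Sh where
  le σ' σ := σ.n ≤ σ'.n ∧ (∀ m, m < σ.n → σ'.T m = σ.T m) ∧ ∀ m, σ.T m ≤ σ'.T m
  le_refl _ := ⟨le_rfl, fun _ _ => rfl, fun _ => le_rfl⟩
  le_trans _ _ _ h h' := ⟨h'.1.trans h.1, fun m hm => (h.2.1 m (hm.trans_le h'.1)).trans (h'.2.1 m hm),
    fun m => (h'.2.2 m).trans (h.2.2 m)⟩
  le_antisymm _ _ h h' := Sh.ext (le_antisymm h'.1 h.1)
    (funext fun m => le_antisymm (h'.2.2 m) (h.2.2 m))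

instance : Countable Sh :=
  Function.Injective.countable (f := fun σ : Sh => (⟨σ.n, fun i => σ.T i⟩ : Σ n, Fin (n + 1) → ℕ))
    fun σ σ' h => by
      obtain ⟨n, T, h1, h2⟩ := σ
      obtain ⟨n', T', h3, h4⟩ := σ'
      obtain ⟨rfl, e⟩ := Sigma.mk.inj_iff.1 h
      have e' : ∀ i, i ≤ n → T i = T' i := fun i hi =>
        congrFun (eq_of_heq e) ⟨i, Nat.lt_succ_of_le hi⟩
      refine Sh.ext rfl (funext fun m => ?_)
      rcases le_total m n with h5 | h5
      · exact e' m h5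
      · exact (h2 m h5).trans ((e' n le_rfl).trans (h4 m h5).symm)

/-- the empty shape -/
def one : Sh := ⟨0, fun _ => 0, monotone_const, fun _ _ => rfl⟩

/-- raise the bound to `k` and fix `e` more values -/
def up (σ : Sh) (k e : ℕ) : Sh where
  n := σ.n + e
  T m := if m < σ.n then σ.T m else max (σ.T σ.n) k
  mono m m' h := by
    dsimp only
    split_ifs with h1 h2 h2
    · exact σ.mono h
    · exact (σ.mono h1.le).trans (le_max_left _ _)
    · omega
    · exact le_rfl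
  ev m h := by rw [if_neg (by omega), if_neg (by omega)]

theorem up_le (σ : Sh) (k e : ℕ) : σ.up k e ≤ σ :=
  ⟨Nat.le_add_right _ _, fun m hm => if_pos hm, fun m => by
    show _ ≤ ite _ _ _
    split_ifs with h
    · exact le_rfl
    · exact (σ.ev m (not_lt.1 h)).le.trans (le_max_left _ _)⟩

theorem up_T (σ : Sh) (k e : ℕ) {m : ℕ} (h : σ.n ≤ m) : (σ.up k e).T m = max (σ.T σ.n) k :=
  if_neg (not_lt.2 h)

/-- the open set of the shape -/
def O (σ : Sh) (x : Pt) : Prop := ∃ m, m < σ.n ∧ x ∈ Zs (σ.T m) m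

theorem O.mono {σ σ' : Sh} {x : Pt} (h : σ.O x) (h' : σ' ≤ σ) : σ'.O x := by
  obtain ⟨m, h1, h2⟩ := h
  exact ⟨m, h1.trans_le h'.1, (h'.2.1 m h1).symm ▸ h2⟩

theorem O_congr {σ σ' : Sh} (h : σ' ≤ σ) (e : σ'.n = σ.n) {x : Pt} : σ'.O x ↔ σ.O x :=
  ⟨fun ⟨m, h1, h2⟩ => ⟨m, e ▸ h1, h.2.1 m (e ▸ h1) ▸ h2⟩, fun h1 => h1.mono h⟩

theorem not_O_z0 (σ : Sh) : ¬ σ.O z0 := fun ⟨_, _, h⟩ => not_Zs_z0 _ _ h

theorem lc_O (σ : Sh) : LC σ.O := by
  have key : ∀ x y, Ag (σ.T σ.n + σ.n + 2) x y → σ.O x → σ.O y := fun x y e ⟨m, h1, h2⟩ =>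
    ⟨m, h1, (lv_Zs (σ.T m) m x y (e.mono (by have := σ.mono h1.le; omega))).mp h2⟩
  exact ⟨_, fun x y e => propext ⟨key x y e, key y x e.symm⟩⟩

end Sh

/-- the cells of `b` are disjoint and lie in `O σ`, the roots are distinct -/
structure BOk (σ : Sh) (b : Finset (List Bool × ℕ)) : Prop where
  sub : ∀ p ∈ b, ∀ x, In p.1 x → σ.O x
  eq1 : ∀ p ∈ b, ∀ q ∈ b, ∀ x, In p.1 x → In q.1 x → p = q
  eq2 : ∀ p ∈ b, ∀ q ∈ b, p.2 = q.2 → p = q

namespace BOk

variable {σ σ' : Sh} {b : Finset (List Bool × ℕ)} {x x' y y' : Pt}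

theorem mono (h : BOk σ b) (h' : σ' ≤ σ) : BOk σ' b :=
  ⟨fun p hp x hx => (h.sub p hp x hx).mono h', h.eq1, h.eq2⟩

theorem O (h : BOk σ b) (l : Link b x x') : σ.O x := by
  obtain ⟨p, hp, y, rfl, -⟩ := l
  exact h.sub p hp _ (in_app _ _)

theorem right (h : BOk σ b) (l : Link b x x') (l' : Link b x y') : x' = y' := by
  obtain ⟨p, hp, y, rfl, rfl⟩ := l
  obtain ⟨q, hq, z, e, rfl⟩ := l'
  obtain rfl := h.eq1 p hp q hq _ (in_app _ _) ⟨z, e⟩
  rw [app_injective _ e]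

theorem left (h : BOk σ b) (l : Link b x x') (l' : Link b y x') : x = y := by
  obtain ⟨p, hp, y, rfl, rfl⟩ := l
  obtain ⟨q, hq, z, rfl, e⟩ := l'
  obtain rfl := h.eq2 p hp q hq ((in_app _ y).root_unique ⟨z, e⟩)
  rw [app_injective _ e]

theorem empty (σ : Sh) : BOk σ ∅ := ⟨by simp, by simp, by simp⟩

end BOk

theorem Link.mono {b b' : Finset (List Bool × ℕ)} {x x' : Pt} (l : Link b x x') (h : b ⊆ b') :
    Link b' x x' := by
  obtain ⟨p, hp, l⟩ := l
  exact ⟨p, h hp, l⟩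

theorem Link.ne_z0 {b : Finset (List Bool × ℕ)} {x : Pt} : ¬ Link b x z0 := by
  rintro ⟨p, -, y, -, e⟩
  exact not_in_z0 (true_mem_root _) ⟨y, e⟩

end Pool.Agent.Lib.MP_f79ffc_lc.U
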