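import Pool.Agent.Lib.MP_f79ffc_lc.U.G.Sg

/-! Writing a new label on one piece of a condition of the generator. -/

namespace Pool.Agent.Lib.MP_f79ffc_lc.U.Tp

open Pool.Agent.Lib.MP_5d9fac_lc Pool.Agent.Lib.MP_f79ffc_lc.R

variable {R J L : Type} [Preorder R] [Preorder J] [Preorder L] {τ : Tp R J L}

/-- equivalent raw conditions -/
structure ZEqv (u : Nd τ.top) (c d : τ.Cd u.ix) : Prop where
  a : c.a = d.a
  σ : u ≠ .N → c.σ = d.σ
  b : u = .M → c.b = d.b
  w1 : u ≠ .N → ∀ x, c.w1 x = d.w1 x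
  w2 : ∀ x, u.act c.σ x → c.w2 x = d.w2 x

theorem zeqv_iff {u : Nd τ.top} {c d : τ.Cd u.ix} : ZEqv u c d ↔ Le u c d ∧ Le u d c := by
  refine ⟨fun h => ⟨⟨h.a.le, fun e => (h.σ e).le, fun e => (h.b e).ge, fun e x => (h.w1 e x).le,
    fun x e => (h.w2 x e).le⟩, h.a.ge, fun e => (h.σ e).ge, fun e => (h.b e).le,
    fun e x => (h.w1 e x).ge, fun x e => (h.w2 x (Nd.act_mono (fun e => (h.σ e).ge) e)).ge⟩,
    fun ⟨h, h'⟩ => ⟨le_antisymm h.a h'.a, fun e => le_antisymm (h.σ e) (h'.σ e),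
      fun e => subset_antisymm (h'.b e) (h.b e), fun e x => le_antisymm (h.w1 e x) (h'.w1 e x),
      fun x e => le_antisymm (h.w2 x e) (h'.w2 x (Nd.act_mono ?_ e))⟩⟩
  exact fun e => (le_antisymm (h.σ e) (h'.σ e)).le

/-- the points of the core that get the new label -/
def zwS1 : KN τ.top → Finset (List Bool × ℕ) → List Bool → Pt → Prop
  | .M, b, s, x' => ∃ x, Link b x x' ∧ In s x
  | .Y, b, s, x' => ∃ x, Link b x x' ∧ In s x
  | .C0, _, s, x' => In s x'
  | _, _, _, _ => False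

/-- the points of the sheet that get the new label -/
def zwS2 : KN τ.top → List Bool → Pt → Prop
  | .C0, _, _ => False
  | _, s, x => In s x

/-- the new label on the core -/
def zwc1 : ∀ k : KN τ.top, τ.W k.ix → τ.W τ.top
  | .N, w => w
  | .M, w => w
  | .Y, w => w
  | .C0, w => w
  | .E _, _ => ⊤

/-- the new label on the sheet -/
def zwc2 : ∀ k : KN τ.top, τ.W k.ix → τ.W (τ.ku k).ix
  | .N, w => w
  | .M, w => w
  | .Y, w => w
  | .C0, _ => ⊤
  | .E _, w => w

open Classical in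
/-- write the label `w` on the cell `s` -/
noncomputable def zwr (k : KN τ.top) (s : List Bool) (c : τ.Cd (τ.ku k).ix) (w : τ.W k.ix) :
    τ.Cd (τ.ku k).ix :=
  ⟨τ.pA _ w, c.σ, c.b, fun x => if zwS1 k c.b s x then zwc1 k w else c.w1 x,
    fun x => if zwS2 k s x then zwc2 k w else c.w2 x⟩

theorem zlc_lnk (b : Finset (List Bool × ℕ)) (s : List Bool) :
    LC fun x' => ∃ x, Link b x x' ∧ In s x := by
  have h := (lc_link (α := Prop) b (fun p => root p.2) Prod.fst ((lc_In s).comp Not)).comp Not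
  refine (congrArg LC (funext fun x' => propext ?_)).mp h
  simp only [iInf_Prop_eq, not_forall, not_not, Link, and_comm, exists_prop]

theorem zlc_wS1 (k : KN τ.top) (b : Finset (List Bool × ℕ)) (s : List Bool) : LC (zwS1 k b s) := by
  cases k
  exacts [LC.const False, zlc_lnk b s, zlc_lnk b s, lc_In s, LC.const False]

theorem zlc_wS2 (k : KN τ.top) (s : List Bool) : LC (zwS2 k s) := by
  cases k
  exacts [lc_In s, lc_In s, lc_In s, LC.const False, lc_In s]

variable {k k' : KN τ.top} {s s' : List Bool}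

theorem zle_pA_foc {c : τ.Cd (τ.ku k).ix} (H : Ok (τ.ku k) c) (x : Pt) :
    c.a ≤ τ.pA _ (τ.foc k c x) := by
  cases k
  exacts [H.le2 x, H.le2 x, H.le2 x, H.le1 x, H.le2 x]

theorem zlc_foc {c : τ.Cd (τ.ku k).ix} (H : Ok (τ.ku k) c) : LC (τ.foc k c) := by
  cases k
  exacts [H.lc2, H.lc2, H.lc2, H.lc1, H.lc2]

theorem zlc_kact (k : KN τ.top) (σ : Sh) : LC (k.act σ) := by
  cases k
  exacts [LC.const True, LC.const True, σ.lc_O.comp Not, LC.const True, σ.lc_O.comp Not]

open Classical in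
theorem zfoc_wr (c : τ.Cd (τ.ku k).ix) (w : τ.W k.ix) (x : Pt) :
    τ.foc k (zwr k s c w) x = if In s x then w else τ.foc k c x := by
  cases k <;> rfl

theorem zok_wr {c : τ.Cd (τ.ku k).ix} (H : Ok (τ.ku k) c) (hs : true ∈ s) {w : τ.W k.ix}
    (hw : τ.pA _ w ≤ c.a) : Ok (τ.ku k) (zwr k s c w) := by
  classical
  refine ⟨(zlc_wS1 k c.b s).comp₂ H.lc1 fun p y => if p then zwc1 k w else y,
    (zlc_wS2 k s).comp₂ H.lc2 fun p y => if p then zwc2 k w else y, ?_, ?_, fun x => ?_,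
    fun x => ?_, ?_⟩
  · refine (if_neg ?_).trans H.z1
    cases k
    exacts [id, fun ⟨_, l, _⟩ => Link.ne_z0 l, fun ⟨_, l, _⟩ => Link.ne_z0 l, not_in_z0 hs, id]
  · refine (if_neg ?_).trans H.z2
    cases k
    exacts [not_in_z0 hs, not_in_z0 hs, not_in_z0 hs, id, not_in_z0 hs]
  · show τ.pA _ w ≤ τ.pA _ (ite _ _ _)
    split_ifs with e
    · cases k
      exacts [le_rfl, le_rfl, le_rfl, le_rfl, e.elim]
    · exact hw.trans (H.le1 x)
  · show τ.pA _ w ≤ τ.pA _ (ite _ _ _)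
    split_ifs with e
    · cases k
      exacts [le_rfl, le_rfl, le_rfl, e.elim, le_rfl]
    · exact hw.trans (H.le2 x)
  · have key : ∀ c : τ.Cd τ.top, Lk .M c → ∀ x x', Link c.b x x' → ∀ w : τ.W τ.top,
        (if ∃ x, Link c.b x x' ∧ In s x then w else c.w1 x') = if In s x then w else c.w2 x :=
      fun c H x x' l w => if_congr ⟨fun ⟨y, l', e⟩ => H.1.left l' l ▸ e, fun e => ⟨x, l, e⟩⟩ rfl
        (H.2 x x' l)
    cases k
    exacts [trivial, ⟨H.lk.1, fun x x' l => key c H.lk x x' l w⟩,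
      ⟨H.lk.1, fun x x' l => key c H.lk x x' l w⟩, trivial, trivial]

theorem zwr_le {c : τ.Cd (τ.ku k).ix} (H : Ok (τ.ku k) c) {w : τ.W k.ix} (hw : τ.pA _ w ≤ c.a)
    (h : ∀ x, In s x → w ≤ τ.foc k c x) : Le (τ.ku k) (zwr k s c w) c := by
  classical
  refine ⟨hw, fun _ => le_rfl, fun _ => subset_rfl, fun _ x => ?_, fun x _ => ?_⟩
  · show ite _ _ _ ≤ _
    split_ifs with e
    · cases k
      exacts [e.elim, e.elim fun y l => (h y l.2).trans (H.lk.2 y x l.1).ge,
        e.elim fun y l => (h y l.2).trans (H.lk.2 y x l.1).ge, h x e, e.elim]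
    · exact le_rfl
  · show ite _ _ _ ≤ _
    split_ifs with e
    · cases k
      exacts [h x e, h x e, h x e, e.elim, h x e]
    · exact le_rfl

/-- the cells at the two ends of an edge between random nodes are matched by `b` -/
def ZMk : KN τ.top → KN τ.top → List Bool → List Bool → Finset (List Bool × ℕ) → Prop
  | .C0, .M, s, s', b => ∃ t l r, s = root l ++ r ∧ s' = t ++ r ∧ (t, l) ∈ b
  | _, _, s, s', _ => s = s'

theorem ZMk.append {b : Finset (List Bool × ℕ)} (h : ZMk k k' s s' b) (r : List Bool) :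
    ZMk k k' (s ++ r) (s' ++ r) b := by
  cases k <;> cases k' <;> try exact congrArg (· ++ r) h
  obtain ⟨t, l, r', rfl, rfl, e⟩ := h
  exact ⟨t, l, r' ++ r, List.append_assoc .., List.append_assoc .., e⟩

theorem ZMk.mono {b b' : Finset (List Bool × ℕ)} (h : ZMk k k' s s' b)
    (hb : τ.ku k' = .M → b ⊆ b') : ZMk k k' s s' b' := by
  cases k <;> cases k' <;> try exact h
  obtain ⟨t, l, r', e1, e2, e⟩ := h
  exact ⟨t, l, r', e1, e2, hb rfl e⟩

theorem zlink_app {b : Finset (List Bool × ℕ)} {t r : List Bool} {l : ℕ} (e : (t, l) ∈ b) (y : Pt) :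
    Link b (app (t ++ r) y) (app (root l ++ r) y) :=
  ⟨_, e, app r y, app_append .., app_append ..⟩

/-- the labels of matched points along an edge -/
theorem zfoc_edge (h : k ≤ k') {c : τ.Cd (τ.ku k).ix} {c' : τ.Cd (τ.ku k').ix}
    (H' : Ok (τ.ku k') c') (e : ZEqv (τ.ku k) c (pr0 (τ.ku_mono h) c')) (m : ZMk k k' s s' c'.b)
    (y : Pt) (ha : k.act c.σ (app s y)) :
    τ.pW (KN.ix_mono h) (τ.foc k' c' (app s' y)) = τ.foc k c (app s y) := by
  cases k <;> cases k' <;> try exact h.elim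
  case C0.M =>
    obtain ⟨t, l, r, rfl, rfl, e1⟩ := m
    exact (τ.pW_refl _ _).trans ((H'.lk.2 _ _ (zlink_app e1 y)).symm.trans (e.w1 nofun _).symm)
  case C0.C0 =>
    obtain rfl : s = s' := m
    exact (τ.pW_refl _ _).trans (e.w1 nofun _).symm
  case Y.Y =>
    obtain rfl : s = s' := m
    exact (e.w2 _ trivial).symm
  all_goals
    obtain rfl : s = s' := m
    exact (e.w2 _ ha).symm

/-- writing matched labels on matched cells keeps the edge coherent -/
theorem zwr_edge (h : k ≤ k') {c : τ.Cd (τ.ku k).ix} {c' : τ.Cd (τ.ku k').ix}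
    (H' : Ok (τ.ku k') c') (e : ZEqv (τ.ku k) c (pr0 (τ.ku_mono h) c')) (m : ZMk k k' s s' c'.b)
    (ha : ∀ x, In s' x → k'.act c'.σ x) {w : τ.W k.ix} {w' : τ.W k'.ix}
    (hw : τ.pW (KN.ix_mono h) w' = w) :
    ZEqv (τ.ku k) (zwr k s c w) (pr0 (τ.ku_mono h) (zwr k' s' c' w')) := by
  classical
  subst hw
  refine ⟨τ.pA_pW _ _, e.σ, e.b, fun hk x => ?_, fun x hx => ?_⟩
  · refine if_ctx_congr ?_ (fun h1 => ?_) fun _ => e.w1 hk x
    · cases k <;> cases k' <;> try exact h.elim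
      case C0.M =>
        obtain ⟨t, l, r, rfl, rfl, e1⟩ := m
        refine ⟨fun ⟨y, e2⟩ => ⟨_, e2 ▸ zlink_app e1 y, in_app _ y⟩, ?_⟩
        rintro ⟨_, l1, y, rfl⟩
        exact ⟨y, H'.lk.1.right l1 (zlink_app e1 y)⟩
      case E.Y => exact ⟨False.elim, fun ⟨y, l1, e1⟩ => ha y e1 (H'.lk.1.O l1)⟩
      case M.M =>
        obtain rfl : s = s' := m
        rw [show c.b = c'.b from e.b rfl]
      case Y.Y =>
        obtain rfl : s = s' := m
        rw [show c.b = c'.b from e.b rfl]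
      case C0.C0 =>
        obtain rfl : s = s' := m
        exact Iff.rfl
      case E.E => exact Iff.rfl
      all_goals exact (hk rfl).elim
    · cases k <;> cases k' <;> try exact h.elim
      case E.Y => exact h1.elim fun y l => (ha y l.2 (H'.lk.1.O l.1)).elim
      case E.E => exact h1.elim
      all_goals exact τ.pW_refl _ _
  · show ite _ _ _ = τ.pW _ (ite _ _ _)
    rw [apply_ite (τ.pW _)]
    have hi : zwS2 k s x ↔ zwS2 k' s' x := by
      cases k <;> cases k' <;> try exact h.elim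
      case C0.M =>
        obtain ⟨t, l, r, rfl, rfl, e1⟩ := m
        refine ⟨False.elim, fun e2 => hx ?_⟩
        rw [show (zwr KN.C0 (root l ++ r) c _).σ = c'.σ from e.σ nofun]
        exact H'.lk.1.sub _ e1 x e2.of_append
      case C0.C0 => exact Iff.rfl
      all_goals
        obtain rfl : s = s' := m
        exact Iff.rfl
    refine if_ctx_congr hi (fun h1 => ?_) fun _ => e.w2 x hx
    have h2 := hi.2 h1
    cases k <;> cases k' <;> try exact h.elim
    case C0.M => exact h2.elim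
    case C0.C0 => exact h2.elim
    all_goals rfl

end Pool.Agent.Lib.MP_f79ffc_lc.U.Tp
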