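import Pool.Agent.Lib.MP_f79ffc_lc.U.G.Sg

/-! The generator system has the chain condition `K`. -/

namespace Pool.Agent.Lib.MP_f79ffc_lc.U

open Pool.Agent.Lib.MP_5d9fac_lc Pool.Agent.Lib.MP_f79ffc_lc.R Cardinal

theorem Sys.Gn.iInf_lc {I : Type} [Preorder I] {S : Sys I} {ι : Type} {i : I}
    {w : Pt → Finset ι → S.X i} (hl : LC w) (hg : ∀ x, S.Gn ι i (w x)) (P : Pt → Prop) :
    S.Gn ι i fun F => ⨅ x, ⨅ _ : P x, w x F :=
  (Sys.Gn.iInf (κ := {x // P x}) (Φ := fun x => w x.1)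
    (hl.finite.subset (by rintro _ ⟨x, rfl⟩; exact ⟨x.1, rfl⟩)) fun x => hg x.1).of_eq
    fun F => iInf_subtype'

theorem Sys.Gn.iInf_prop {I : Type} [Preorder I] {S : Sys I} {ι : Type} {i : I}
    {w : Finset ι → S.X i} (hg : S.Gn ι i w) (P : Prop) : S.Gn ι i fun F => ⨅ _ : P, w F := by
  by_cases h : P
  · exact hg.of_eq fun F => iInf_pos h
  · exact (Sys.Gn.top i).of_eq fun F => iInf_neg h

namespace Tp

variable {R J L : Type} [Preorder R] [Preorder J] [Preorder L] {τ : Tp R J L} {ι : Type}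

/-- generated families of raw conditions of a fixed shape -/
structure GF {j : J} (C : Finset ι → τ.Cd j) (σ : Sh) (b : Finset (List Bool × ℕ)) : Prop where
  a : τ.St.Gn ι _ fun F => (C F).a
  g1 : ∀ x, τ.St.Gn ι _ fun F => (C F).w1 x
  g2 : ∀ x, τ.St.Gn ι _ fun F => (C F).w2 x
  l1 : LC fun x F => (C F).w1 x
  l2 : LC fun x F => (C F).w2 x
  σ : ∀ F, (C F).σ = σ
  b : ∀ F, (C F).b = b

variable {u v : Nd τ.top} {σ σ' : Sh} {b b' : Finset (List Bool × ℕ)}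

theorem GF.nrm {j : J} {C : Finset ι → τ.Cd j} (h : GF C σ b) : GF (fun F => nrm (C F)) σ b where
  a := (h.a.inf ((Sys.Gn.iInf_lc (h.l1.comp fun f F => τ.pA _ (f F))
      (fun x => (h.g1 x).map_p (τ.le _)) fun _ => True).of_eq fun F => by simp)).inf
    ((Sys.Gn.iInf_lc (h.l2.comp fun f F => τ.pA _ (f F))
      (fun x => (h.g2 x).map_p (τ.le _)) fun _ => True).of_eq fun F => by simp)
  g1 := h.g1
  g2 := h.g2
  l1 := h.l1
  l2 := h.l2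
  σ := h.σ
  b := h.b

theorem GF.sym {C : Finset ι → τ.Cd u.ix} (h : GF C σ b) : GF (fun F => sym u (C F)) σ b := by
  cases u with
  | M =>
    refine ⟨h.a, fun x' => ((h.g1 x').inf (Sys.Gn.iInf_lc h.l2 h.g2 fun x => Link b x x')).of_eq
        fun F => by rw [← h.b F]; rfl,
      fun x => ((h.g2 x).inf (Sys.Gn.iInf_lc h.l1 h.g1 fun x' => Link b x x')).of_eq
        fun F => by rw [← h.b F]; rfl, ?_, ?_, h.σ, h.b⟩
    · have := h.l1.comp₂ (lc_link b (fun p => root p.2) Prod.fst h.l2) (· ⊓ ·)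
      convert this using 3 with x F
      simp only [Pi.inf_apply, iInf_apply, ← h.b F, Tp.sym, Link, and_comm]
    · have := h.l2.comp₂ (lc_link b Prod.fst (fun p => root p.2) h.l1) (· ⊓ ·)
      convert this using 3 with x F
      simp only [Pi.inf_apply, iInf_apply, ← h.b F, Tp.sym, Link]
  | _ => exact h

theorem GF.pr0 (e : u ≤ v) {C : Finset ι → τ.Cd v.ix} (h : GF C σ b) :
    GF (fun F => pr0 e (C F)) σ b :=
  ⟨h.a, h.g1, fun x => (h.g2 x).map_p (τ.wm (Nd.ix_mono e)), h.l1,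
    h.l2.comp fun f F => τ.pW (Nd.ix_mono e) (f F), h.σ, h.b⟩

theorem GF.am (e : u ≤ v) {C : Finset ι → τ.Cd v.ix} {C' : Finset ι → τ.Cd u.ix} (h : GF C σ b)
    (h' : GF C' σ' b') (hσ : u ≠ .N → σ' = σ) (hb : u = .M → b' = b) :
    GF (fun F => am e (C F) (C' F)) σ b := by
  refine GF.nrm (GF.sym (C := fun F => am0 e (C F) (C' F)) ⟨h.a.inf h'.a,
    fun x => (h.g1 x).inf ((h'.g1 x).iInf_prop _),
    fun x => ((h.g2 x).inf (((h'.g2 x).map_e (τ.wm (Nd.ix_mono e))).iInf_prop (u.act σ' x))).of_eq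
      fun F => by rw [← h'.σ F]; rfl,
    h.l1.comp₂ h'.l1 fun f g F => f F ⊓ ⨅ _ : u ≠ .N, g F, ?_, fun F => ?_, fun F => ?_⟩)
  · have := h.l2.comp₂ ((u.lc_act σ').comp₂ h'.l2
      fun (p : Prop) g F => ⨅ _ : p, τ.eW (Nd.ix_mono e) (g F)) fun f g F => f F ⊓ g F
    convert this using 3 with x F
    rw [← h'.σ F]
    rfl
  · unfold am0
    dsimp only
    split_ifs with e'
    exacts [h.σ F, (h'.σ F).trans (hσ e')]
  · unfold am0
    dsimp only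
    split_ifs with e'
    exacts [(h'.b F).trans (hb e'), h.b F]

/-- the shape of a condition -/
def HasSh : ∀ i : GI τ.a τ.top, τ.gP i → Sh × Finset (List Bool × ℕ) × ℕ → Prop
  | .root _, _, _ => True
  | .nd _, c, z => c.1.σ = z.1 ∧ c.1.b = z.2.1 ∧ Lv z.2.2 c.1.w1 ∧ Lv z.2.2 c.1.w2

theorem exists_hasSh (i : GI τ.a τ.top) (c : τ.gP i) : ∃ z, HasSh i c z := by
  cases i with
  | root r => exact ⟨(Sh.one, ∅, 0), trivial⟩
  | nd u =>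
    obtain ⟨n, h1⟩ := c.2.1.lc1
    obtain ⟨m, h2⟩ := c.2.1.lc2
    exact ⟨(c.1.σ, c.1.b, n + m), rfl, rfl, h1.mono (Nat.le_add_right _ _),
      h2.mono (Nat.le_add_left _ _)⟩

/-- `Ψ` is bounded below by a family generated from the template that lies above the heads `c` -/
def Gd : ∀ i : GI τ.a τ.top, (ι → τ.gP i) → (Finset ι → τ.Sg.X i) → Prop
  | .root r, c, Ψ => ∃ Φ : Finset ι → τ.St.X (τ.ρ r), τ.St.Gn ι _ Φ ∧ (∀ k, (c k).1 ≤ Φ {k}) ∧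
      ∀ F, Φ F ≤ Ψ F
  | .nd u, c, Ψ => ∃ (C : Finset ι → τ.Cd u.ix) (σ : Sh) (b : Finset (List Bool × ℕ)), GF C σ b ∧
      (∀ F, Ok u (C F)) ∧ (∀ k, (c k).1.σ = σ ∧ (c k).1.b = b) ∧ (∀ k, Le u (c k).1 (C {k})) ∧
      ∀ F (p : τ.P u), Le u p.1 (C F) → em p ≤ Ψ F

theorem gd_var (k₀ : ι) {i : GI τ.a τ.top} {c : ι → τ.gP i} {z} (hz : ∀ k, HasSh i (c k) z)
    {a : ι → τ.Sg.X i} (ha : ∀ k, τ.gM i (c k) ≤ a k) : Gd i c fun F => F.inf a := by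
  cases i with
  | root r => exact ⟨_, Sys.Gn.var _ fun k => (c k).1, fun k => Finset.inf_singleton.ge,
      fun F => Finset.inf_mono_fun fun k _ => ha k⟩
  | nd u =>
    let C : Finset ι → τ.Cd u.ix := fun F => ⟨F.inf fun k => (c k).1.a, z.1, z.2.1,
      fun x => F.inf fun k => (c k).1.w1 x, fun x => F.inf fun k => (c k).1.w2 x⟩
    have l1 : LC fun x F => (C F).w1 x := ⟨z.2.2, fun x y e => funext fun F =>
      Finset.inf_congr rfl fun k _ => (hz k).2.2.1 x y e⟩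
    have l2 : LC fun x F => (C F).w2 x := ⟨z.2.2, fun x y e => funext fun F =>
      Finset.inf_congr rfl fun k _ => (hz k).2.2.2 x y e⟩
    refine ⟨fun F => nrm (sym u (C F)), z.1, z.2.1, GF.nrm (GF.sym ⟨Sys.Gn.var _ _,
      fun x => Sys.Gn.var _ _, fun x => Sys.Gn.var _ _, l1, l2, fun _ => rfl, fun _ => rfl⟩),
      fun F => ok_nrm_sym (l1.comp fun f => f F) (l2.comp fun f => f F)
        (top_unique (Finset.le_inf fun k _ => (c k).2.1.z1.ge))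
        (top_unique (Finset.le_inf fun k _ => (c k).2.1.z2.ge)) fun e => ?_,
      fun k => ⟨(hz k).1, (hz k).2.1⟩, fun k => le_nrm_sym (c k).2.1
        ⟨Finset.inf_singleton.ge, fun _ => (hz k).1.le, fun _ => (hz k).2.1.ge,
          fun _ _ => Finset.inf_singleton.ge, fun _ _ => Finset.inf_singleton.ge⟩
        (fun _ => (hz k).2.1)
        (fun x _ => ((c k).2.1.le1 x).trans (pj_mono _ Finset.inf_singleton.ge))
        fun x _ => ((c k).2.1.le2 x).trans (pj_mono _ Finset.inf_singleton.ge),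
      fun F p hp => Finset.le_inf fun k hk => le_trans (em_mono (hp.trans ?_)) (ha k)⟩
    · have := (c k₀).2.1.bok e
      rwa [(hz k₀).1, (hz k₀).2.1] at this
    · exact ⟨inf_le_left.trans (inf_le_left.trans ((sym_a _).le.trans (Finset.inf_le hk))),
        fun _ => ((sym_σ (C F)).trans (hz k).1.symm).le,
        fun _ => ((sym_b (C F)).trans (hz k).2.1.symm).ge,
        fun _ x => (sym_w1 _ x).trans (Finset.inf_le (f := fun k => (c k).1.w1 x) hk),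
        fun x _ => (sym_w2 _ x).trans (Finset.inf_le (f := fun k => (c k).1.w2 x) hk)⟩

/-- the amalgam of two generated families -/
theorem gd_am (e : u ≤ v) {n : ι → τ.P v} {C : Finset ι → τ.Cd v.ix} {C' : Finset ι → τ.Cd u.ix}
    (h : GF C σ b) (h' : GF C' σ' b') (hσ : u ≠ .N → σ' = σ) (hb : u = .M → b' = b)
    (o : ∀ F, Ok v (C F)) (o' : ∀ F, Ok u (C' F)) (hn : ∀ k, (n k).1.σ = σ ∧ (n k).1.b = b)
    (l : ∀ k, Le v (n k).1 (C {k})) (l' : ∀ k, Le u (pr0 e (n k).1) (C' {k}))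
    {Ψ : Finset ι → τ.Xn v}
    (H : ∀ F (p : τ.P v), Le v p.1 (C F) → Le u (pr0 e p.1) (C' F) → em p ≤ Ψ F) :
    Gd (.nd v) n Ψ := by
  have G := h.am e h' hσ hb
  have s : ∀ F, u ≠ .N → (C' F).σ ≤ (C F).σ := fun F e' =>
    ((h'.σ F).trans ((hσ e').trans (h.σ F).symm)).le
  refine ⟨_, σ, b, G, fun F => (o F).am e (o' F) (s F), hn, fun k =>
    le_am e (n k).2.1 (o _) (l k) (l' k) (fun e' => (hn k).1.trans ((hσ e').symm.trans (h'.σ _).symm))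
      fun _ => (hn k).2.trans ((G.b {k}).symm.trans (am_b _ _ _)), fun F p hp => H F p
    (hp.trans (am_le e (s F) fun e' => ((h.b F).trans ((hb e').symm.trans (h'.b F).symm)).le))
    ((hp.pr0 e).trans (pr_am_le e _ _))⟩

theorem gd_emb (k₀ : ι) {i j : GI τ.a τ.top} (h : j ≤ i) {c : ι → τ.Pg.P i} {d : ι → τ.Pg.P j}
    {Ψ : Finset ι → τ.Sg.X i} {Ψ' : Finset ι → τ.Sg.X j} (H : Gd i c Ψ) (H' : Gd j d Ψ')
    (h1 : ∀ k, τ.Pg.pr h (c k) ≤ d k) (h2 : ∀ k, d k ≤ τ.Pg.pr h (c k)) :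
    Gd i c fun F => Ψ F ⊓ τ.Sg.e h (Ψ' F) := by
  cases i <;> cases j
  · obtain ⟨Φ, g1, g2, g3⟩ := H
    obtain ⟨Φ', k1, k2, k3⟩ := H'
    exact ⟨_, Sys.Gn.emb (τ.ρm h) g1 k1, fun k => le_inf (g2 k) (pj_le.1 (le_trans (h1 k) (k2 k))),
      fun F => inf_le_inf (g3 F) (hm_mono _ (k3 F))⟩
  · exact h.elim
  · obtain ⟨C, σ, b, g1, g2, g3, g4, g5⟩ := H
    obtain ⟨Φ', k1, k2, k3⟩ := H'
    refine ⟨fun F => { C F with a := (C F).a ⊓ τ.St.e (τ.ρm h) (Φ' F) }, σ, b,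
      ⟨Sys.Gn.emb (τ.ρm h) g1.a k1, g1.g1, g1.g2, g1.l1, g1.l2, g1.σ, g1.b⟩,
      fun F => ⟨(g2 F).lc1, (g2 F).lc2, (g2 F).z1, (g2 F).z2,
        fun x => inf_le_left.trans ((g2 F).le1 x), fun x => inf_le_left.trans ((g2 F).le2 x), ?_⟩,
      g3, fun k => ⟨le_inf (g4 k).a (pj_le.1 (le_trans (h1 k) (k2 k))), (g4 k).σ, (g4 k).b,
        (g4 k).w1, (g4 k).w2⟩, fun F p hp => le_inf
      (g5 F p ⟨hp.a.trans inf_le_left, hp.σ, hp.b, hp.w1, hp.w2⟩)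
      ((em_le_root h).2 (hp.a.trans (inf_le_right.trans (hm_mono _ (k3 F)))))⟩
    rename_i u _
    have := (g2 F).lk
    cases u <;> exact this
  · obtain ⟨C, σ, b, g1, g2, g3, g4, g5⟩ := H
    obtain ⟨C', σ', b', k1, k2, k3, k4, k5⟩ := H'
    exact gd_am h g1 k1
      (fun e => (k3 k₀).1.symm.trans ((le_antisymm ((h2 k₀).σ e) ((h1 k₀).σ e)).trans (g3 k₀).1))
      (fun e => (k3 k₀).2.symm.trans
        ((Finset.Subset.antisymm ((h1 k₀).b e) ((h2 k₀).b e)).trans (g3 k₀).2))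
      g2 k2 g3 g4 (fun k => Le.trans (h1 k) (k4 k))
      fun F p e e' => le_inf (g5 F p e) ((em_le_eN h).2 (k5 F (pr h p) e'))

theorem gd_prj (k₀ : ι) {i j : GI τ.a τ.top} (h : i ≤ j) {c : ι → τ.Pg.P i} {d : ι → τ.Pg.P j}
    {Ψ : Finset ι → τ.Sg.X i} {Ψ' : Finset ι → τ.Sg.X j} (H : Gd i c Ψ) (H' : Gd j d Ψ')
    (h1 : ∀ k, τ.Pg.pr h (d k) ≤ c k) (h2 : ∀ k, c k ≤ τ.Pg.pr h (d k)) :
    Gd i c fun F => Ψ F ⊓ τ.Sg.p h (Ψ' F) := by
  cases i <;> cases j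
  · obtain ⟨Φ, g1, g2, g3⟩ := H
    obtain ⟨Φ', k1, k2, k3⟩ := H'
    exact ⟨_, Sys.Gn.prj (τ.ρm h) g1 k1,
      fun k => le_inf (g2 k) (le_trans (h2 k) (pj_mono _ (k2 k))),
      fun F => inf_le_inf (g3 F) (pj_mono _ (k3 F))⟩
  · obtain ⟨Φ, g1, g2, g3⟩ := H
    obtain ⟨C', σ', b', k1, k2, k3, k4, k5⟩ := H'
    refine ⟨_, Sys.Gn.prj (τ.ρm h) g1 k1.a,
      fun k => le_inf (g2 k) (le_trans (h2 k) (pj_mono _ (k4 k).a)),
      fun F => inf_le_inf (g3 F) ?_⟩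
    rcases eq_or_ne (C' F).a ⊥ with e | e
    · exact le_of_eq_of_le (pj_eq_bot.2 e) _root_.bot_le
    · exact le_trans (pj_root h ⟨C' F, k2 F, e⟩).ge
        (pj_mono (τ.Sg.e h) (k5 F ⟨C' F, k2 F, e⟩ (Le.refl _)))
  · exact h.elim
  · obtain ⟨C, σ, b, g1, g2, g3, g4, g5⟩ := H
    obtain ⟨C', σ', b', k1, k2, k3, k4, k5⟩ := H'
    refine gd_am le_rfl g1 (k1.pr0 h)
      (fun e => (k3 k₀).1.symm.trans ((le_antisymm ((h1 k₀).σ e) ((h2 k₀).σ e)).trans (g3 k₀).1))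
      (fun e => (k3 k₀).2.symm.trans
        ((Finset.Subset.antisymm ((h2 k₀).b e) ((h1 k₀).b e)).trans (g3 k₀).2))
      g2 (fun F => (k2 F).pr0 h) g3 g4
      (fun k => by rw [pr0_refl]; exact Le.trans (h2 k) ((k4 k).pr0 h))
      fun F p e e' => le_inf (g5 F p e) ?_
    rw [pr0_refl] at e'
    have e0 : (C' F).a ≠ ⊥ := ne_bot_of_le e'.a p.2.2
    exact (em_mono (c := pr h ⟨C' F, k2 F, e0⟩) e').trans ((pj_eN h _).ge.trans
      (pj_mono _ (k5 F ⟨C' F, k2 F, e0⟩ (Le.refl _))))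

theorem gd_tm (k₀ : ι) : ∀ {i : GI τ.a τ.top} (t : Tm (GI τ.a τ.top) i) (c : ι → τ.Pg.Asg t)
    (z : Fam (fun _ => Sh × Finset (List Bool × ℕ) × ℕ) t)
    (a : Fam (fun i => ι → τ.Sg.X i) t), (∀ k, τ.Pg.Coh t (c k)) →
    (∀ k, Fam.All₂ HasSh t (c k) z) → (∀ k, τ.Sg.Le t (τ.Pg.ev t (c k)) (τ.Sg.mem t a k)) →
    Gd i (fun k => Fam.head t (c k)) fun F => τ.Sg.val t (τ.Sg.fin t a F)
  | _, .var _, _, _, _, _, hz, ha => gd_var k₀ hz ha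
  | _, .emb t h s, c, z, a, hc, hz, ha => gd_emb k₀ h
      (gd_tm k₀ t (fun k => (c k).1) z.1 a.1 (fun k => (hc k).1) (fun k => (hz k).1)
        fun k => (ha k).1)
      (gd_tm k₀ s (fun k => (c k).2) z.2 a.2 (fun k => (hc k).2.1) (fun k => (hz k).2)
        fun k => (ha k).2) (fun k => (hc k).2.2.1) fun k => (hc k).2.2.2
  | _, .prj t h s, c, z, a, hc, hz, ha => gd_prj k₀ h
      (gd_tm k₀ t (fun k => (c k).1) z.1 a.1 (fun k => (hc k).1) (fun k => (hz k).1)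
        fun k => (ha k).1)
      (gd_tm k₀ s (fun k => (c k).2) z.2 a.2 (fun k => (hc k).2.1) (fun k => (hz k).2)
        fun k => (ha k).2) (fun k => (hc k).2.2.1) fun k => (hc k).2.2.2

theorem Gd.exists {i : GI τ.a τ.top} {c : ι → τ.gP i} {Ψ : Finset ι → τ.Sg.X i} (H : Gd i c Ψ) :
    ∃ (l : L) (Φ : Finset ι → τ.St.X l), τ.St.Gn ι l Φ ∧ (∀ k, Φ {k} ≠ ⊥) ∧
      ∀ F, Φ F ≠ ⊥ → Ψ F ≠ ⊥ := by
  cases i with
  | root r =>
    obtain ⟨Φ, g1, g2, g3⟩ := H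
    exact ⟨_, Φ, g1, fun k => ne_bot_of_le (g2 k) (c k).2, fun F => ne_bot_of_le (g3 F)⟩
  | nd u =>
    obtain ⟨C, σ, b, g1, g2, -, g4, g5⟩ := H
    exact ⟨_, _, g1.a, fun k => ne_bot_of_le (g4 k).a (c k).2.2,
      fun F e => ne_bot_of_le (g5 F ⟨C F, g2 F, e⟩ (Le.refl _)) (em_ne _)⟩

variable (τ)

theorem K_Sg (h : τ.St.K) : τ.Sg.K := by
  classical
  refine Sys.K_of_tm fun ι h1 h2 i t a A₀ h3 h4 => ?_
  obtain ⟨z, A₁, k1, k2, k3⟩ := @exists_fiber' ι _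
    (Fam.countable (Y := fun _ => Sh × Finset (List Bool × ℕ) × ℕ) t) h1 h2 A₀ h3
    (fun k z => ∃ c : τ.Pg.Asg t, τ.Pg.Coh t c ∧ τ.Sg.Le t (τ.Pg.ev t c) (τ.Sg.mem t a k) ∧
      Fam.All₂ HasSh t c z) fun k hk => by
      obtain ⟨c, e1, e2⟩ := Pres.exists_coh (Q := τ.Pg) t _ (h4 k hk)
      obtain ⟨z, hz⟩ := Fam.exists_all₂ t (Fam.all_of exists_hasSh t c)
      exact ⟨z, c, e1, e2, hz⟩
  obtain ⟨k₀, hk₀⟩ : A₁.Nonempty := by
    rw [Set.nonempty_iff_ne_empty]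
    rintro rfl
    rw [← k2] at h2
    simp at h2
  have k4 : ∀ k, ∃ c : τ.Pg.Asg t, τ.Pg.Coh t c ∧ Fam.All₂ HasSh t c z ∧
      (k ∈ A₁ → τ.Sg.Le t (τ.Pg.ev t c) (τ.Sg.mem t a k)) := fun k => by
    by_cases hk : k ∈ A₁
    · obtain ⟨c, e1, e2, e3⟩ := k3 k hk
      exact ⟨c, e1, e3, fun _ => e2⟩
    · obtain ⟨c, e1, -, e3⟩ := k3 k₀ hk₀
      exact ⟨c, e1, e3, fun e => absurd e hk⟩
  choose c c1 c2 c3 using k4
  obtain ⟨l, Φ, g1, g2, g3⟩ := (gd_tm k₀ t c z (Fam.pi t fun k => τ.Pg.ev t (c k)) c1 c2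
    fun k => by rw [Sys.mem_pi]; exact Sys.le_rfl' t _).exists
  refine (h ι h1 h2 l Φ g1 A₁ k2 fun k _ => g2 k).mono k1 fun F hF e =>
    Sys.val_ne_of_le (Sys.le_fin t a fun k hk => ?_) (g3 F e)
  have := Sys.fin_le_mem t (Fam.pi t fun k => τ.Pg.ev t (c k)) hk
  rw [Sys.mem_pi] at this
  exact this.trans (c3 k (hF hk))

end Tp

end Pool.Agent.Lib.MP_f79ffc_lc.U
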