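import Pool.Agent.Lib.MP_f79ffc_lc.U.G.Sg
import Pool.Agent.Lib.MP_f79ffc_lc.R.Api

/-! The maps from the template to the random extensions of the generator system. -/

namespace Pool.Agent.Lib.MP_f79ffc_lc.U.Tp

open Pool.Agent.Lib.MP_5d9fac_lc Pool.Agent.Lib.MP_f79ffc_lc.R

variable {R J L : Type} [Preorder R] [Preorder J] [Preorder L] (τ : Tp R J L)

/-- the complement of the generic open set -/
noncomputable def dd [Fact (CCC (τ.Xn (.C τ.bot)))] : RX (τ.Xn (.C τ.bot)) :=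
  (⨆ n, ⨆ k, ri (τ.th n k) ⊓ rg (Zs k n))ᶜ

variable [∀ i, Fact (CCC (τ.Sg.X i))]

/-- the part of the random extension used at a random node -/
noncomputable def land : ∀ k : KN τ.top, RX (τ.Xn (τ.ku k))
  | .N => ⊤
  | .M => (rmap (τ.eN τ.bM) τ.dd)ᶜ
  | .Y => rmap (τ.eN τ.bM) τ.dd
  | .C0 => ⊤
  | .E j => rmap (τ.eN (τ.bC j)) τ.dd

/-- the random point is labelled below `w` -/
noncomputable def phi (k : KN τ.top) (w : τ.W k.ix) : RX (τ.Xn (τ.ku k)) :=
  τ.land k ⊓ Ev fun s => τ.Lab k s w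

end Pool.Agent.Lib.MP_f79ffc_lc.U.Tp
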