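import Pool.Agent.Lib.MP_f79ffc_lc.U.SysL
import Pool.Agent.Lib.MP_f79ffc_lc.U.G.Cell

/-! The conditions of the generator, projections and amalgams. -/

namespace Pool.Agent.Lib.MP_f79ffc_lc.U

open Pool.Agent.Lib.MP_5d9fac_lc Pool.Agent.Lib.MP_f79ffc_lc.R

/-- the tags of the generator block -/
inductive Nd {J : Type} (top : J) : Type
  | N
  | M
  | C (j : J)

namespace Nd

variable {J : Type} [Preorder J] {top : J}

/-- the order of the tags -/
def le : Nd top → Nd top → Prop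
  | N, N => True
  | N, M => True
  | M, M => True
  | C j, M => j ≤ top
  | C j, C j' => j ≤ j'
  | _, _ => False

instance : Preorder (Nd top) where
  le := le
  le_refl u := by cases u <;> simp [le]
  le_trans u v w h h' := by
    cases u <;> cases v <;> cases w <;> first | exact trivial | exact h.elim | exact h'.elim | exact h | exact le_trans h h'

/-- the index of the labels on the sheet -/
@[reducible] def ix : Nd top → J
  | N => top
  | M => top
  | C j => j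

theorem ix_mono {u v : Nd top} (h : u ≤ v) : u.ix ≤ v.ix := by
  cases u <;> cases v <;> first | exact le_rfl | exact h.elim | exact h

/-- active points of the sheet -/
def act : Nd top → Sh → Pt → Prop
  | C _, σ, x => ¬ σ.O x
  | _, _, _ => True

omit [Preorder J] in
theorem act_mono {u : Nd top} {σ σ' : Sh} (h : u ≠ N → σ' ≤ σ) {x : Pt} (H : u.act σ' x) :
    u.act σ x := by
  cases u with
  | C j => exact fun h1 => H (h1.mono (h nofun))
  | _ => trivial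

theorem act_le {u v : Nd top} (h : u ≤ v) {σ : Sh} {x : Pt} (H : u.act σ x) : v.act σ x := by
  cases u <;> cases v <;> first | exact trivial | exact h.elim | exact H

theorem ne_N {u v : Nd top} (h : u ≤ v) (H : u ≠ N) : v ≠ N := by
  rintro rfl
  cases u <;> first | exact H rfl | exact h.elim

theorem eq_M {u v : Nd top} (h : u ≤ v) (H : u = M) : v = M := by
  subst H
  cases v <;> first | rfl | exact h.elim

omit [Preorder J] in
theorem lc_act (u : Nd top) (σ : Sh) : LC (u.act σ) := by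
  cases u with
  | C j => exact σ.lc_O.comp Not
  | _ => exact LC.const True

omit [Preorder J] in
theorem act_of {u : Nd top} {σ : Sh} {x : Pt} (h : ¬ σ.O x) : u.act σ x := by
  cases u <;> first | exact trivial | exact h

end Nd

/-- a template -/
structure Tp (R J L : Type) [Preorder R] [Preorder J] [Preorder L] : Type 1 where
  a : R
  bot : J
  top : J
  bot_le : ∀ j, bot ≤ j
  ρ : R → L
  w : J → L
  ρm : Monotone ρ
  wm : Monotone w
  le : ∀ j, ρ a ≤ w j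
  St : Sys L

namespace Tp

variable {R J L : Type} [Preorder R] [Preorder J] [Preorder L] (τ : Tp R J L)

/-- the base algebra -/
abbrev A : Type := τ.St.X (τ.ρ τ.a)
/-- the label algebras -/
abbrev W (j : J) : Type := τ.St.X (τ.w j)
abbrev eA (j : J) : Hm τ.A (τ.W j) := τ.St.e (τ.le j)
abbrev pA (j : J) (y : τ.W j) : τ.A := pj (τ.eA j) y
abbrev eW {j j' : J} (h : j ≤ j') : Hm (τ.W j) (τ.W j') := τ.St.e (τ.wm h)
abbrev pW {j j' : J} (h : j ≤ j') (y : τ.W j') : τ.W j := pj (τ.eW h) y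

theorem pA_pW {j j' : J} (h : j ≤ j') (y : τ.W j') : τ.pA j (τ.pW h y) = τ.pA j' y :=
  pj_pj (τ.St.e_trans _ _) y

theorem pW_refl {j : J} (h : j ≤ j) (y : τ.W j) : τ.pW h y = y := pj_id (τ.St.e_refl _) y

theorem eW_refl {j : J} (h : j ≤ j) (y : τ.W j) : τ.eW h y = y := τ.St.e_refl _ y

/-- raw conditions -/
@[ext] structure Cd (j : J) where
  a : τ.A
  σ : Sh
  b : Finset (List Bool × ℕ)
  w1 : Pt → τ.W τ.top
  w2 : Pt → τ.W j

variable {τ}

/-- linked points carry the same label -/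
def Lk : ∀ u : Nd τ.top, τ.Cd u.ix → Prop
  | .M, c => BOk c.σ c.b ∧ ∀ x x', Link c.b x x' → c.w1 x' = c.w2 x
  | _, _ => True

/-- valid raw conditions -/
structure Ok (u : Nd τ.top) (c : τ.Cd u.ix) : Prop where
  lc1 : LC c.w1
  lc2 : LC c.w2
  z1 : c.w1 z0 = ⊤
  z2 : c.w2 z0 = ⊤
  le1 : ∀ x, c.a ≤ τ.pA _ (c.w1 x)
  le2 : ∀ x, c.a ≤ τ.pA _ (c.w2 x)
  lk : Lk u c

/-- the order at the node `u` -/
structure Le (u : Nd τ.top) (c' c : τ.Cd u.ix) : Prop where
  a : c'.a ≤ c.a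
  σ : u ≠ .N → c'.σ ≤ c.σ
  b : u = .M → c.b ⊆ c'.b
  w1 : u ≠ .N → ∀ x, c'.w1 x ≤ c.w1 x
  w2 : ∀ x, u.act c'.σ x → c'.w2 x ≤ c.w2 x

variable {u v v' : Nd τ.top}

theorem Le.refl (c : τ.Cd u.ix) : Le u c c :=
  ⟨le_rfl, fun _ => le_rfl, fun _ => subset_rfl, fun _ _ => le_rfl, fun _ _ => le_rfl⟩

theorem Le.trans {c c' c'' : τ.Cd u.ix} (h : Le u c'' c') (h' : Le u c' c) : Le u c'' c :=
  ⟨h.a.trans h'.a, fun e => (h.σ e).trans (h'.σ e), fun e => (h'.b e).trans (h.b e),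
    fun e x => (h.w1 e x).trans (h'.w1 e x),
    fun x e => (h.w2 x e).trans (h'.w2 x (Nd.act_mono h.σ e))⟩

/-- the projection -/
def pr0 (h : u ≤ v) (m : τ.Cd v.ix) : τ.Cd u.ix :=
  ⟨m.a, m.σ, m.b, m.w1, fun x => τ.pW (Nd.ix_mono h) (m.w2 x)⟩

theorem Ok.pr0 (h : u ≤ v) {m : τ.Cd v.ix} (H : Ok v m) : Ok u (pr0 h m) where
  lc1 := H.lc1
  lc2 := H.lc2.comp (τ.pW (Nd.ix_mono h))
  z1 := H.z1
  z2 := by
    show τ.pW _ (m.w2 z0) = ⊤
    rw [H.z2]
    exact pj_top (τ.St.inj _)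
  le1 := H.le1
  le2 x := (H.le2 x).trans (τ.pA_pW _ _).ge
  lk := by
    cases u with
    | M =>
      obtain rfl := Nd.eq_M h rfl
      exact ⟨H.lk.1, fun x x' l => (H.lk.2 x x' l).trans (τ.pW_refl _ _).symm⟩
    | _ => trivial

theorem Le.pr0 (h : u ≤ v) {m m' : τ.Cd v.ix} (H : Le v m' m) : Le u (pr0 h m') (pr0 h m) :=
  ⟨H.a, fun e => H.σ (Nd.ne_N h e), fun e => H.b (Nd.eq_M h e), fun e => H.w1 (Nd.ne_N h e),
    fun x e => pj_mono _ (H.w2 x (Nd.act_le h e))⟩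

theorem pr0_refl (h : u ≤ u) (m : τ.Cd u.ix) : pr0 h m = m :=
  Cd.ext rfl rfl rfl rfl (funext fun _ => τ.pW_refl _ _)

theorem pr0_pr0 (h : u ≤ v) (h' : v ≤ v') (m : τ.Cd v'.ix) :
    pr0 h (pr0 h' m) = pr0 (h.trans h') m :=
  Cd.ext rfl rfl rfl rfl (funext fun _ => pj_pj (τ.St.e_trans _ _) _)

/-- shrink the base element below all labels -/
def nrm {j : J} (c : τ.Cd j) : τ.Cd j :=
  { c with a := c.a ⊓ (⨅ x, τ.pA _ (c.w1 x)) ⊓ ⨅ x, τ.pA _ (c.w2 x) }

/-- multiply the labels of linked points -/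
def sym : ∀ u : Nd τ.top, τ.Cd u.ix → τ.Cd u.ix
  | .M, c => { c with
      w1 := fun x' => c.w1 x' ⊓ ⨅ x, ⨅ _ : Link c.b x x', c.w2 x
      w2 := fun x => c.w2 x ⊓ ⨅ x', ⨅ _ : Link c.b x x', c.w1 x' }
  | _, c => c

open Classical in
/-- the pointwise meet of `m` with the lift of `c` -/
noncomputable def am0 (h : u ≤ v) (m : τ.Cd v.ix) (c : τ.Cd u.ix) : τ.Cd v.ix where
  a := m.a ⊓ c.a
  σ := if u = .N then m.σ else c.σ
  b := if u = .M then c.b else m.b
  w1 x := m.w1 x ⊓ ⨅ _ : u ≠ .N, c.w1 x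
  w2 x := m.w2 x ⊓ ⨅ _ : u.act c.σ x, τ.eW (Nd.ix_mono h) (c.w2 x)

/-- the amalgam -/
noncomputable def am (h : u ≤ v) (m : τ.Cd v.ix) (c : τ.Cd u.ix) : τ.Cd v.ix :=
  nrm (sym v (am0 h m c))

theorem sym_a (c : τ.Cd u.ix) : (sym u c).a = c.a := by cases u <;> rfl
theorem sym_σ (c : τ.Cd u.ix) : (sym u c).σ = c.σ := by cases u <;> rfl
theorem sym_b (c : τ.Cd u.ix) : (sym u c).b = c.b := by cases u <;> rfl

theorem sym_w1 (c : τ.Cd u.ix) (x : Pt) : (sym u c).w1 x ≤ c.w1 x := by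
  cases u <;> first | exact le_rfl | exact inf_le_left

theorem sym_w2 (c : τ.Cd u.ix) (x : Pt) : (sym u c).w2 x ≤ c.w2 x := by
  cases u <;> first | exact le_rfl | exact inf_le_left

/-- validity after `sym` and `nrm` -/
theorem ok_nrm_sym {c : τ.Cd u.ix} (h1 : LC c.w1) (h2 : LC c.w2) (h3 : c.w1 z0 = ⊤)
    (h4 : c.w2 z0 = ⊤) (h5 : u = .M → BOk c.σ c.b) : Ok u (nrm (sym u c)) := by
  have l1 : ∀ x, (nrm (sym u c)).a ≤ τ.pA _ ((sym u c).w1 x) := fun x =>
    inf_le_left.trans (inf_le_right.trans (iInf_le _ x))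
  have l2 : ∀ x, (nrm (sym u c)).a ≤ τ.pA _ ((sym u c).w2 x) := fun x =>
    inf_le_right.trans (iInf_le _ x)
  cases u with
  | M =>
    have B := h5 rfl
    refine ⟨h1.comp₂ (?_ : LC fun x' => ⨅ x, ⨅ _ : Link c.b x x', c.w2 x) (· ⊓ ·),
      h2.comp₂ (lc_link c.b Prod.fst (fun p => root p.2) h1) (· ⊓ ·), ?_, ?_, l1, l2, B,
      fun x x' l => ?_⟩
    · simpa only [Link, and_comm] using lc_link c.b (fun p => root p.2) Prod.fst h2
    · exact top_unique (le_inf h3.ge (le_iInf₂ fun x l => absurd l Link.ne_z0))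
    · exact top_unique (le_inf h4.ge (le_iInf₂ fun x l => absurd (B.O l) c.σ.not_O_z0))
    · refine le_antisymm (le_inf (inf_le_right.trans (iInf₂_le x l)) (le_iInf₂ fun y l' => ?_))
        (le_inf (inf_le_right.trans (iInf₂_le x' l)) (le_iInf₂ fun y l' => ?_))
      · rw [B.right l' l]
        exact inf_le_left
      · rw [B.left l' l]
        exact inf_le_left
  | _ => exact ⟨h1, h2, h3, h4, l1, l2, trivial⟩

theorem Ok.bok {c : τ.Cd u.ix} (H : Ok u c) (e : u = .M) : BOk c.σ c.b := by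
  subst e
  exact H.lk.1

theorem am_σ (h : u ≤ v) (m : τ.Cd v.ix) (c : τ.Cd u.ix) : (am h m c).σ = (am0 h m c).σ := sym_σ _
theorem am_b (h : u ≤ v) (m : τ.Cd v.ix) (c : τ.Cd u.ix) : (am h m c).b = (am0 h m c).b := sym_b _

theorem am0_σ_le (h : u ≤ v) {m : τ.Cd v.ix} {c : τ.Cd u.ix} (hσ : u ≠ .N → c.σ ≤ m.σ) :
    (am0 h m c).σ ≤ m.σ := by
  unfold am0
  dsimp only
  split_ifs with e
  exacts [le_rfl, hσ e]

theorem am0_σ (h : u ≤ v) (m : τ.Cd v.ix) (c : τ.Cd u.ix) (e : u ≠ .N) : (am0 h m c).σ = c.σ :=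
  if_neg e

theorem am0_act (h : u ≤ v) (m : τ.Cd v.ix) (c : τ.Cd u.ix) {x : Pt} :
    u.act (am0 h m c).σ x ↔ u.act c.σ x :=
  ⟨Nd.act_mono fun e => (am0_σ h m c e).le, Nd.act_mono fun e => (am0_σ h m c e).ge⟩

theorem Ok.am (h : u ≤ v) {m : τ.Cd v.ix} {c : τ.Cd u.ix} (H : Ok v m) (H' : Ok u c)
    (hσ : u ≠ .N → c.σ ≤ m.σ) : Ok v (am h m c) := by
  refine ok_nrm_sym (H.lc1.comp₂ H'.lc1 fun y z => y ⊓ ⨅ _ : u ≠ .N, z)
    (H.lc2.comp₂ ((u.lc_act c.σ).comp₂ H'.lc2 fun (p : Prop) z => ⨅ _ : p, τ.eW (Nd.ix_mono h) z)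
      (· ⊓ ·)) ?_ ?_ fun e => ?_
  · exact top_unique (le_inf H.z1.ge (le_iInf fun _ => H'.z1.ge))
  · exact top_unique (le_inf H.z2.ge (le_iInf fun _ => by rw [H'.z2, map_top]))
  · by_cases e' : u = .M
    · have := H'.bok e'
      rwa [← am0_σ h m c (e' ▸ nofun), ← show (am0 h m c).b = c.b from if_pos e'] at this
    · have := (H.bok e).mono (am0_σ_le h hσ)
      rwa [← show (am0 h m c).b = m.b from if_neg e'] at this

theorem am_a (h : u ≤ v) (m : τ.Cd v.ix) (c : τ.Cd u.ix) : (am h m c).a ≤ m.a ⊓ c.a :=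
  inf_le_left.trans (inf_le_left.trans (sym_a _).le)

theorem am_le (h : u ≤ v) {m : τ.Cd v.ix} {c : τ.Cd u.ix} (hσ : u ≠ .N → c.σ ≤ m.σ)
    (hb : u = .M → m.b ⊆ c.b) : Le v (am h m c) m where
  a := (am_a h m c).trans inf_le_left
  σ _ := (am_σ h m c).trans_le (am0_σ_le h hσ)
  b _ := by
    rw [am_b]
    unfold am0
    dsimp only
    split_ifs with e
    exacts [hb e, subset_rfl]
  w1 _ x := (sym_w1 _ x).trans inf_le_left
  w2 x _ := (sym_w2 _ x).trans inf_le_left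

theorem pr_am_le (h : u ≤ v) (m : τ.Cd v.ix) (c : τ.Cd u.ix) : Le u (pr0 h (am h m c)) c where
  a := (am_a h m c).trans inf_le_right
  σ e := ((am_σ h m c).trans (am0_σ h m c e)).le
  b e := ((am_b h m c).trans (if_pos e)).ge
  w1 e x := (sym_w1 _ x).trans (inf_le_right.trans (iInf_le _ e))
  w2 x e := pj_le.2 ((sym_w2 _ x).trans (inf_le_right.trans
    (iInf_le _ ((am0_act h m c).1 ((am_σ h m c) ▸ e)))))

/-- a valid condition below a raw condition of the same shape is below its normal form -/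
theorem le_nrm_sym {n c : τ.Cd u.ix} (H : Ok u n) (h : Le u n c) (hb : u = .M → n.b = c.b)
    (h1 : ∀ x, u = .N → n.a ≤ τ.pA _ (c.w1 x))
    (h2 : ∀ x, ¬ u.act n.σ x → n.a ≤ τ.pA _ (c.w2 x)) : Le u n (nrm (sym u c)) := by
  have k1 : u ≠ .N → ∀ x, n.w1 x ≤ (sym u c).w1 x := fun e x => by
    cases u with
    | M => exact le_inf (h.w1 e x) (le_iInf₂ fun y l =>
        (H.lk.2 y x (hb rfl ▸ l)).le.trans (h.w2 y trivial))
    | _ => exact h.w1 e x
  have k2 : ∀ x, u.act n.σ x → n.w2 x ≤ (sym u c).w2 x := fun x e => by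
    cases u with
    | M => exact le_inf (h.w2 x e) (le_iInf₂ fun y l =>
        (H.lk.2 x y (hb rfl ▸ l)).ge.trans (h.w1 nofun y))
    | _ => exact h.w2 x e
  refine ⟨le_inf (le_inf (h.a.trans (sym_a c).ge) (le_iInf fun x => ?_)) (le_iInf fun x => ?_),
    fun e => (h.σ e).trans (sym_σ c).ge, fun e => (sym_b c).le.trans (h.b e), k1, k2⟩
  · by_cases e : u = .N
    · subst e
      exact h1 x rfl
    · exact (H.le1 x).trans (pj_mono _ (k1 e x))
  · by_cases e : u.act n.σ x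
    · exact (H.le2 x).trans (pj_mono _ (k2 x e))
    · cases u with
      | C j => exact h2 x e
      | _ => exact absurd trivial e

/-- the amalgam is the greatest lower bound among conditions of the same shape -/
theorem le_am (h : u ≤ v) {n m : τ.Cd v.ix} {c : τ.Cd u.ix} (H : Ok v n) (Hm : Ok v m)
    (h1 : Le v n m) (h2 : Le u (pr0 h n) c) (hσ : u ≠ .N → n.σ = c.σ)
    (hb : v = .M → n.b = (am0 h m c).b) : Le v n (am h m c) := by
  refine le_nrm_sym H ⟨le_inf h1.a h2.a, fun e => ?_, fun e => (hb e).ge, fun e x =>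
    le_inf (h1.w1 e x) (le_iInf fun e' => h2.w1 e' x), fun x e => le_inf (h1.w2 x e)
      (le_iInf fun e' => pj_le.1 (h2.w2 x (Nd.act_mono (fun e => (hσ e).ge) e')))⟩ hb
    (fun x e => h1.a.trans ((Hm.le1 x).trans (pj_mono _ (le_inf le_rfl (le_iInf fun e' =>
      absurd e (Nd.ne_N h e'))))))
    fun x e => h1.a.trans ((Hm.le2 x).trans (pj_mono _ (le_inf le_rfl (le_iInf fun e' =>
      absurd (Nd.act_le h (Nd.act_mono (fun e => (hσ e).ge) e')) e))))
  unfold am0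
  dsimp only
  split_ifs with e'
  exacts [h1.σ e, (hσ e').le]

/-- exact lifting -/
theorem le_pr_am (h : u ≤ v) {m : τ.Cd v.ix} {c : τ.Cd u.ix} (H : Ok v m) (H' : Ok u c)
    (hc : Le u c (pr0 h m)) : Le u c (pr0 h (am h m c)) := by
  have k1 : u ≠ .N → ∀ x, c.w1 x = (am0 h m c).w1 x := fun e x =>
    le_antisymm (le_inf (hc.w1 e x) (le_iInf fun _ => le_rfl)) (inf_le_right.trans (iInf_le _ e))
  have k1' : u = .N → ∀ x, m.w1 x = (am0 h m c).w1 x := fun e x =>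
    le_antisymm (le_inf le_rfl (le_iInf fun e' => absurd e e')) inf_le_left
  have k2 : ∀ x, u.act c.σ x → c.w2 x = τ.pW (Nd.ix_mono h) ((am0 h m c).w2 x) := fun x e => by
    show _ = τ.pW _ (m.w2 x ⊓ ⨅ _ : u.act c.σ x, _)
    rw [iInf_pos e, pW, pj_inf]
    exact (inf_eq_right.2 (hc.w2 x e)).symm
  have k2' : ∀ x, ¬ u.act c.σ x → m.w2 x = (am0 h m c).w2 x := fun x e =>
    le_antisymm (le_inf le_rfl (le_iInf fun e' => absurd e' e)) inf_le_left
  have a1 : ∀ x, c.a ≤ τ.pA _ ((am0 h m c).w1 x) := fun x => by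
    by_cases e : u = .N
    · exact k1' e x ▸ hc.a.trans (H.le1 x)
    · exact k1 e x ▸ H'.le1 x
  have a2 : ∀ x, c.a ≤ τ.pA _ ((am0 h m c).w2 x) := fun x => by
    by_cases e : u.act c.σ x
    · rw [← τ.pA_pW (Nd.ix_mono h), ← k2 x e]
      exact H'.le2 x
    · exact k2' x e ▸ hc.a.trans (H.le2 x)
  have key : (u ≠ .N → ∀ x, (sym v (am0 h m c)).w1 x = (am0 h m c).w1 x) ∧
      (∀ x, u.act c.σ x → (sym v (am0 h m c)).w2 x = (am0 h m c).w2 x) ∧
      (∀ x, c.a ≤ τ.pA _ ((sym v (am0 h m c)).w1 x)) ∧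
      ∀ x, c.a ≤ τ.pA _ ((sym v (am0 h m c)).w2 x) := by
    cases v with
    | M =>
      have cmp : ∀ x x', Link (am0 h m c).b x x' →
          (u ≠ .N → (am0 h m c).w1 x' ≤ (am0 h m c).w2 x) ∧
          (u.act c.σ x → (am0 h m c).w2 x ≤ (am0 h m c).w1 x') := fun x x' l => by
        cases u with
        | N => exact ⟨fun e => absurd rfl e, fun _ => inf_le_left.trans
            ((H.lk.2 x x' ((show (am0 h m c).b = m.b from if_neg nofun) ▸ l)).ge.trans (k1' rfl x').le)⟩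
        | M =>
          have l' : Link c.b x x' := (show (am0 h m c).b = c.b from if_pos rfl) ▸ l
          have e := (k1 nofun x').symm.trans ((H'.lk.2 x x' l').trans
            ((k2 x trivial).trans (τ.pW_refl _ _)))
          exact ⟨fun _ => e.le, fun _ => e.ge⟩
        | C j =>
          have l' : Link m.b x x' := (show (am0 h m c).b = m.b from if_neg nofun) ▸ l
          have o : c.σ.O x := (H.lk.1.O l').mono (hc.σ nofun)
          exact ⟨fun _ => inf_le_left.trans ((H.lk.2 x x' l').le.trans (k2' x fun e => e o).le),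
            fun e => absurd o e⟩
      have B := (H.am h H' hc.σ).lk.1
      have tot : ∀ x x', Link (am0 h m c).b x x' →
          c.a ≤ τ.pA _ ((am0 h m c).w1 x' ⊓ (am0 h m c).w2 x) := fun x x' l => by
        by_cases e : u = .N
        · rw [inf_eq_right.2 ((cmp x x' l).2 (e ▸ trivial))]
          exact a2 x
        · rw [inf_eq_left.2 ((cmp x x' l).1 e)]
          exact a1 x'
      refine ⟨fun e x => inf_eq_left.2 (le_iInf₂ fun y l => (cmp y x l).1 e),
        fun x e => inf_eq_left.2 (le_iInf₂ fun y l => (cmp x y l).2 e), fun x => ?_, fun x => ?_⟩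
      · by_cases e : ∃ y, Link (am0 h m c).b y x
        · obtain ⟨y, l⟩ := e
          exact (tot y x l).trans (pj_mono _ (inf_le_inf_left _ (le_iInf₂ fun y' l' => by
            rw [B.left l' l])))
        · exact (a1 x).trans (pj_mono _ (le_inf le_rfl (le_iInf₂ fun y l => absurd ⟨y, l⟩ e)))
      · by_cases e : ∃ y, Link (am0 h m c).b x y
        · obtain ⟨y, l⟩ := e
          exact (tot x y l).trans (pj_mono _ ((inf_comm _ _).le.trans (inf_le_inf_left _
            (le_iInf₂ fun y' l' => by rw [B.right l' l]))))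
        · exact (a2 x).trans (pj_mono _ (le_inf le_rfl (le_iInf₂ fun y l => absurd ⟨y, l⟩ e)))
    | _ => exact ⟨fun _ _ => rfl, fun _ _ => rfl, a1, a2⟩
  exact ⟨le_inf (le_inf ((le_inf hc.a le_rfl).trans (sym_a (am0 h m c)).ge) (le_iInf key.2.2.1))
    (le_iInf key.2.2.2), fun e => ((am_σ h m c).trans (am0_σ h m c e)).ge,
    fun e => ((am_b h m c).trans (if_pos e)).le, fun e x => ((k1 e x).trans (key.1 e x).symm).le,
    fun x e => (k2 x e).le.trans (pj_mono _ (key.2.1 x e).ge)⟩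

variable (τ)

/-- conditions at the node `u` -/
def P (u : Nd τ.top) : Type := {c : τ.Cd u.ix // Ok u c ∧ c.a ≠ ⊥}

instance (u : Nd τ.top) : Preorder (τ.P u) where
  le c' c := Le u c'.1 c.1
  le_refl c := Le.refl c.1
  le_trans _ _ _ := Le.trans

variable {τ}

/-- the projection of conditions -/
def pr (h : u ≤ v) (m : τ.P v) : τ.P u := ⟨pr0 h m.1, m.2.1.pr0 h, m.2.2⟩

theorem pr_mono (h : u ≤ v) {m m' : τ.P v} (H : m' ≤ m) : pr h m' ≤ pr h m := Le.pr0 h H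

theorem exists_lift (h : u ≤ v) (m : τ.P v) {c : τ.P u} (hc : c ≤ pr h m) :
    ∃ m', m' ≤ m ∧ pr h m' ≤ c ∧ c ≤ pr h m' :=
  have e := le_pr_am h m.2.1 c.2.1 hc
  ⟨⟨am h m.1 c.1, m.2.1.am h c.2.1 hc.σ, ne_bot_of_le e.a c.2.2⟩, am_le h hc.σ hc.b,
    pr_am_le h m.1 c.1, e⟩

/-- shrink the base element -/
def P.cut (c : τ.P u) {x : τ.A} (h0 : x ≠ ⊥) (h : x ≤ c.1.a) : τ.P u :=
  ⟨{ c.1 with a := x }, ⟨c.2.1.lc1, c.2.1.lc2, c.2.1.z1, c.2.1.z2, fun y => h.trans (c.2.1.le1 y),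
    fun y => h.trans (c.2.1.le2 y), by
      have := c.2.1.lk
      cases u <;> exact this⟩, h0⟩

theorem P.cut_le (c : τ.P u) {x : τ.A} (h0 : x ≠ ⊥) (h : x ≤ c.1.a) : c.cut h0 h ≤ c :=
  ⟨h, fun _ => le_rfl, fun _ => subset_rfl, fun _ _ => le_rfl, fun _ _ => le_rfl⟩

/-- the condition without labels -/
def triv (u : Nd τ.top) {x : τ.A} (h0 : x ≠ ⊥) : τ.P u :=
  ⟨⟨x, Sh.one, ∅, fun _ => ⊤, fun _ => ⊤⟩, ⟨LC.const _, LC.const _, rfl, rfl,
    fun _ => (pj_top (τ.St.inj _)).ge.trans' le_top, fun _ => (pj_top (τ.St.inj _)).ge.trans' le_top,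
    by cases u <;> first | exact trivial | exact ⟨BOk.empty _, fun _ _ _ => rfl⟩⟩, h0⟩

theorem le_triv (c : τ.P u) {x : τ.A} (h0 : x ≠ ⊥) (h : c.1.a ≤ x) : c ≤ triv u h0 :=
  ⟨h, fun _ => ⟨Nat.zero_le _, fun _ h => absurd h (Nat.not_lt_zero _), fun _ => Nat.zero_le _⟩,
    fun _ => Finset.empty_subset _, fun _ _ => le_top, fun _ _ => le_top⟩

end Tp

end Pool.Agent.Lib.MP_f79ffc_lc.U
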