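import Pool.Agent.Lib.MP_f79ffc_lc.U.SysL

/-!
Systems presented by preorders with exact projections; poset-coherent assignments are dense.
-/

namespace Pool.Agent.Lib.MP_f79ffc_lc.U

open Pool.Agent.Lib.MP_5d9fac_lc

/-- a monotone map of preorders with lifting is a projection onto the completion -/
def Prj.ofPr {P Q : Type} [Preorder P] [Preorder Q] (pr : P → Q)
    (mono : ∀ {m m'}, m' ≤ m → pr m' ≤ pr m)
    (lift : ∀ m c, c ≤ pr m → ∃ m', m' ≤ m ∧ pr m' ≤ c) : Prj P (RO Q) where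
  g m := RO.emb (pr m)
  ne _ := RO.emb_ne_bot _
  mono h := RO.emb_mono (mono h)
  lift m x hx h := by
    obtain ⟨c, hc⟩ := RO.exists_emb_le hx
    obtain ⟨r, h1, h2⟩ := RO.exists_of_emb_le (hc.trans h)
    obtain ⟨m', h3, h4⟩ := lift m r h2
    exact ⟨m', h3, (RO.emb_mono (h4.trans h1)).trans hc⟩

@[simp] theorem Prj.ofPr_g {P Q : Type} [Preorder P] [Preorder Q] (pr : P → Q) (mono lift) (m : P) :
    (Prj.ofPr pr mono lift).g m = RO.emb (pr m) := rfl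

variable {I : Type} [Preorder I]

/-- a presentation of a system by preorders with exact projections -/
structure Pres (S : Sys I) : Type 1 where
  P : I → Type
  ord : ∀ i, Preorder (P i)
  em : ∀ i, P i → S.X i
  ne : ∀ i p, em i p ≠ ⊥
  mono : ∀ {i} {p q : P i}, p ≤ q → em i p ≤ em i q
  dense : ∀ i x, x ≠ ⊥ → ∃ p, em i p ≤ x
  compat : ∀ {i} {p q : P i}, em i p ⊓ em i q ≠ ⊥ → ∃ r, r ≤ p ∧ r ≤ q
  pr : ∀ {i j : I}, i ≤ j → P j → P i
  pr_mono : ∀ {i j : I} (h : i ≤ j) {m m' : P j}, m' ≤ m → pr h m' ≤ pr h m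
  p_em : ∀ {i j : I} (h : i ≤ j) (m : P j), S.p h (em j m) = em i (pr h m)
  lift : ∀ {i j : I} (h : i ≤ j) (m : P j) (c : P i), c ≤ pr h m →
    ∃ m', m' ≤ m ∧ pr h m' ≤ c ∧ c ≤ pr h m'

attribute [instance] Pres.ord

namespace Pres

variable {S : Sys I} (Q : Pres S)

/-- assignments of conditions -/
abbrev Asg {i : I} (t : Tm I i) : Type := Fam Q.P t

/-- the assignment of elements given by an assignment of conditions -/
def ev {i : I} (t : Tm I i) (c : Q.Asg t) : S.Asg t := Fam.map Q.em t c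

/-- slotwise order of the preorders -/
def Le {i : I} (t : Tm I i) (c d : Q.Asg t) : Prop := Fam.All₂ (fun _ x y => x ≤ y) t c d

/-- poset-coherent assignments -/
def Coh : ∀ {i : I} (t : Tm I i), Q.Asg t → Prop
  | _, .var _, _ => True
  | _, .emb t h s, c => Coh t c.1 ∧ Coh s c.2 ∧
      Q.pr h (Fam.head t c.1) ≤ Fam.head s c.2 ∧ Fam.head s c.2 ≤ Q.pr h (Fam.head t c.1)
  | _, .prj t h s, c => Coh t c.1 ∧ Coh s c.2 ∧
      Q.pr h (Fam.head s c.2) ≤ Fam.head t c.1 ∧ Fam.head t c.1 ≤ Q.pr h (Fam.head s c.2)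

variable {Q}

theorem le_rfl' : ∀ {i : I} (t : Tm I i) (c : Q.Asg t), Q.Le t c c
  | _, .var _, c => le_refl (α := Q.P _) c
  | _, .emb t _ s, c => ⟨le_rfl' t c.1, le_rfl' s c.2⟩
  | _, .prj t _ s, c => ⟨le_rfl' t c.1, le_rfl' s c.2⟩

theorem Le.trans {i : I} {t : Tm I i} {a b c : Q.Asg t} (h : Q.Le t a b) (h' : Q.Le t b c) :
    Q.Le t a c :=
  Fam.All₂.comp (P := fun i (x y : Q.P i) => x ≤ y) (Q := fun i (x y : Q.P i) => x ≤ y)
    (R := fun i (x y : Q.P i) => x ≤ y) (fun _ _ _ _ => le_trans) t h h'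

theorem Le.head {i : I} {t : Tm I i} {a b : Q.Asg t} (h : Q.Le t a b) :
    Fam.head t a ≤ Fam.head t b := Fam.All₂.head t h

theorem Le.ev {i : I} {t : Tm I i} {a b : Q.Asg t} (h : Q.Le t a b) :
    S.Le t (Q.ev t a) (Q.ev t b) :=
  Fam.all₂_map_map (P := fun i (x y : Q.P i) => x ≤ y) (Q := fun i (x y : S.X i) => x ≤ y)
    Q.em Q.em (fun _ _ _ => Q.mono) t h

theorem head_ev {i : I} (t : Tm I i) (c : Q.Asg t) :
    Fam.head t (Q.ev t c) = Q.em i (Fam.head t c) := Fam.head_map _ t c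

theorem em_eq {i : I} {p q : Q.P i} (h : p ≤ q) (h' : q ≤ p) : Q.em i p = Q.em i q :=
  le_antisymm (Q.mono h) (Q.mono h')

theorem exists_of_em_le {i : I} {p q : Q.P i} (h : Q.em i p ≤ Q.em i q) : ∃ r, r ≤ p ∧ r ≤ q :=
  Q.compat (by rw [inf_eq_left.2 h]; exact Q.ne i p)

theorem exists_le_of_inf {i : I} {p : Q.P i} {x : S.X i} (h : Q.em i p ⊓ x ≠ ⊥) :
    ∃ r, r ≤ p ∧ Q.em i r ≤ x := by
  obtain ⟨q, hq⟩ := Q.dense i _ h
  obtain ⟨r, h1, h2⟩ := exists_of_em_le (hq.trans inf_le_left)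
  exact ⟨r, h2, (Q.mono h1).trans (hq.trans inf_le_right)⟩

theorem Coh.ev : ∀ {i : I} (t : Tm I i) {c : Q.Asg t}, Q.Coh t c → S.Coh t (Q.ev t c)
  | _, .var i, c, _ => Q.ne i c
  | _, .emb t h s, c, H => ⟨Coh.ev t H.1, Coh.ev s H.2.1, by
      show S.p h (Fam.head t (Q.ev t c.1)) = Fam.head s (Q.ev s c.2)
      rw [head_ev, head_ev, Q.p_em, em_eq H.2.2.1 H.2.2.2]⟩
  | _, .prj t h s, c, H => ⟨Coh.ev t H.1, Coh.ev s H.2.1, by
      show S.p h (Fam.head s (Q.ev s c.2)) = Fam.head t (Q.ev t c.1)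
      rw [head_ev, head_ev, Q.p_em, em_eq H.2.2.1 H.2.2.2]⟩

theorem Coh.val_ev {i : I} {t : Tm I i} {c : Q.Asg t} (h : Q.Coh t c) :
    S.val t (Q.ev t c) = Q.em i (Fam.head t c) := by
  rw [Sys.Coh.val_eq t (h.ev t), head_ev]

theorem Coh.val_ne {i : I} {t : Tm I i} {c : Q.Asg t} (h : Q.Coh t c) :
    S.val t (Q.ev t c) ≠ ⊥ := (h.ev t).val_ne

/-- propagation: any extension of the head is the head of a coherent refinement -/
theorem Coh.prop : ∀ {i : I} (t : Tm I i) {c : Q.Asg t}, Q.Coh t c → ∀ p, p ≤ Fam.head t c →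
    ∃ c' : Q.Asg t, Q.Le t c' c ∧ Q.Coh t c' ∧ Fam.head t c' = p
  | _, .var _, _, _, p, hp => ⟨p, hp, trivial, rfl⟩
  | _, .emb t h s, c, H, p, hp => by
    obtain ⟨b, h1, h2, h3⟩ := Coh.prop t H.1 p hp
    obtain ⟨d, h4, h5, h6⟩ := Coh.prop s H.2.1 (Q.pr h p) ((Q.pr_mono h hp).trans H.2.2.1)
    exact ⟨(b, d), ⟨h1, h4⟩, ⟨h2, h5, by rw [h3, h6], by rw [h3, h6]⟩, h3⟩
  | _, .prj t h s, c, H, p, hp => by
    obtain ⟨b, h1, h2, h3⟩ := Coh.prop t H.1 p hp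
    obtain ⟨m, h7, h8, h9⟩ := Q.lift h _ p (hp.trans H.2.2.2)
    obtain ⟨d, h4, h5, h6⟩ := Coh.prop s H.2.1 m h7
    exact ⟨(b, d), ⟨h1, h4⟩, ⟨h2, h5, by rw [h3, h6]; exact h8, by rw [h3, h6]; exact h9⟩, h3⟩

theorem all₂_anti {Z : I → Type} {D : ∀ i, Q.P i → Z i → Prop}
    (op : ∀ i p q z, p ≤ q → D i q z → D i p z) {i : I} {t : Tm I i} {c c' : Q.Asg t}
    {z : Fam Z t} (h : Q.Le t c' c) (H : Fam.All₂ D t c z) : Fam.All₂ D t c' z :=
  Fam.All₂.comp (P := fun i (x y : Q.P i) => x ≤ y) op t h H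

theorem all_anti {D : ∀ i, Q.P i → Prop} (op : ∀ i p q, p ≤ q → D i q → D i p) :
    ∀ {i : I} (t : Tm I i) {c c' : Q.Asg t}, Q.Le t c' c → Fam.All D t c → Fam.All D t c'
  | _, .var _, _, _, h, H => op _ _ _ h H
  | _, .emb t _ s, _, _, h, H => ⟨all_anti op t h.1 H.1, all_anti op s h.2 H.2⟩
  | _, .prj t _ s, _, _, h, H => ⟨all_anti op t h.1 H.1, all_anti op s h.2 H.2⟩

theorem le_ev_anti {i : I} {t : Tm I i} {c c' : Q.Asg t} {a : S.Asg t} (h : Q.Le t c' c)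
    (H : S.Le t (Q.ev t c) a) : S.Le t (Q.ev t c') a := h.ev.trans H

/-- poset-coherent assignments are dense; the slots can be put into dense open sets that depend
on data `z` attached to the slots -/
theorem exists_coh₂ {Z : I → Type} (D : ∀ i, Q.P i → Z i → Prop)
    (op : ∀ i p q z, p ≤ q → D i q z → D i p z) :
    ∀ {i : I} (t : Tm I i) (a : S.Asg t) (z : Fam Z t),
      Fam.All₂ (fun i (x : S.X i) z => ∀ p, Q.em i p ≤ x → ∃ q, q ≤ p ∧ D i q z) t a z →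
      ∀ p, Q.em i p ≤ S.val t a → ∃ c : Q.Asg t, Q.Coh t c ∧ S.Le t (Q.ev t c) a ∧
        Fam.All₂ D t c z ∧ Fam.head t c ≤ p
  | _, .var _, _, _, hD, p, hp => by
    obtain ⟨q, h1, h2⟩ := hD p hp
    exact ⟨q, trivial, (Q.mono h1).trans hp, h2, h1⟩
  | _, .emb t h s, a, z, hD, p, hp => by
    obtain ⟨b, h1, h2, h3, h4⟩ := exists_coh₂ D op t a.1 z.1 hD.1 p (hp.trans inf_le_left)
    obtain ⟨d, h5, h6, h7, h8⟩ := exists_coh₂ D op s a.2 z.2 hD.2 (Q.pr h (Fam.head t b)) (by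
      rw [← Q.p_em]
      exact pj_le.2 ((Q.mono h4).trans (hp.trans inf_le_right)))
    obtain ⟨m, k1, k2, k3⟩ := Q.lift h _ _ h8
    obtain ⟨b', k4, k5, k6⟩ := h1.prop t m k1
    exact ⟨(b', d), ⟨k5, h5, by rw [k6]; exact k2, by rw [k6]; exact k3⟩,
      ⟨le_ev_anti k4 h2, h6⟩, ⟨all₂_anti op k4 h3, h7⟩, k4.head.trans h4⟩
  | _, .prj t h s, a, z, hD, p, hp => by
    obtain ⟨b, h1, h2, h3, h4⟩ := exists_coh₂ D op t a.1 z.1 hD.1 p (hp.trans inf_le_left)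
    have e1 : S.val s a.2 ⊓ S.e h (Q.em _ (Fam.head t b)) ≠ ⊥ := inf_map_ne_bot.2 (by
      rw [inf_eq_right.2 ((Q.mono h4).trans (hp.trans inf_le_right))]
      exact Q.ne _ _)
    obtain ⟨m, hm⟩ := Q.dense _ _ e1
    obtain ⟨r, r1, r2⟩ := exists_of_em_le (p := Q.pr h m) (q := Fam.head t b) (by
      rw [← Q.p_em]
      exact pj_le.2 (hm.trans inf_le_right))
    obtain ⟨m', k1, k2, -⟩ := Q.lift h m r r1
    obtain ⟨d, h5, h6, h7, h8⟩ := exists_coh₂ D op s a.2 z.2 hD.2 m'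
      ((Q.mono k1).trans (hm.trans inf_le_left))
    obtain ⟨b', k4, k5, k6⟩ := h1.prop t (Q.pr h (Fam.head s d))
      ((Q.pr_mono h h8).trans (k2.trans r2))
    exact ⟨(b', d), ⟨k5, h5, by rw [k6], by rw [k6]⟩,
      ⟨le_ev_anti k4 h2, h6⟩, ⟨all₂_anti op k4 h3, h7⟩, k4.head.trans h4⟩

theorem all₂_of {Y Z : I → Type} {P : ∀ i, Y i → Z i → Prop} (h : ∀ i x z, P i x z) :
    ∀ {i : I} (t : Tm I i) (a : Fam Y t) (z : Fam Z t), Fam.All₂ P t a z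
  | _, .var _, _, _ => h _ _ _
  | _, .emb t _ s, a, z => ⟨all₂_of h t a.1 z.1, all₂_of h s a.2 z.2⟩
  | _, .prj t _ s, a, z => ⟨all₂_of h t a.1 z.1, all₂_of h s a.2 z.2⟩

theorem all_of_all₂ {Y Z : I → Type} {P : ∀ i, Y i → Prop} :
    ∀ {i : I} (t : Tm I i) {a : Fam Y t} {z : Fam Z t},
      Fam.All₂ (fun i x _ => P i x) t a z → Fam.All P t a
  | _, .var _, _, _, H => H
  | _, .emb t _ s, _, _, H => ⟨all_of_all₂ t H.1, all_of_all₂ s H.2⟩
  | _, .prj t _ s, _, _, H => ⟨all_of_all₂ t H.1, all_of_all₂ s H.2⟩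

/-- the form with data and a nonzero value -/
theorem exists_coh_data {Z : I → Type} (D : ∀ i, Q.P i → Z i → Prop)
    (op : ∀ i p q z, p ≤ q → D i q z → D i p z) {i : I} (t : Tm I i) (a : S.Asg t) (z : Fam Z t)
    (hD : Fam.All₂ (fun i (x : S.X i) z => ∀ p, Q.em i p ≤ x → ∃ q, q ≤ p ∧ D i q z) t a z)
    (h : S.val t a ≠ ⊥) :
    ∃ c : Q.Asg t, Q.Coh t c ∧ S.Le t (Q.ev t c) a ∧ Fam.All₂ D t c z := by
  obtain ⟨p, hp⟩ := Q.dense _ _ h
  obtain ⟨c, h1, h2, h3, -⟩ := exists_coh₂ D op t a z hD p hp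
  exact ⟨c, h1, h2, h3⟩

/-- the form with one dense open set per index -/
theorem exists_coh_dense (D : ∀ i, Q.P i → Prop) (op : ∀ i p q, p ≤ q → D i q → D i p)
    (hD : ∀ i p, ∃ q, q ≤ p ∧ D i q) {i : I} (t : Tm I i) (a : S.Asg t) (p : Q.P i)
    (hp : Q.em i p ≤ S.val t a) :
    ∃ c : Q.Asg t, Q.Coh t c ∧ S.Le t (Q.ev t c) a ∧ Fam.All D t c ∧ Fam.head t c ≤ p := by
  obtain ⟨c, h1, h2, h3, h4⟩ := exists_coh₂ (Z := S.X) (fun i p _ => D i p)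
    (fun i p q _ => op i p q) t a a (all₂_of (fun i _ _ p _ => hD i p) t a a) p hp
  exact ⟨c, h1, h2, all_of_all₂ t h3, h4⟩

theorem exists_coh {i : I} (t : Tm I i) (a : S.Asg t) (h : S.val t a ≠ ⊥) :
    ∃ c : Q.Asg t, Q.Coh t c ∧ S.Le t (Q.ev t c) a := by
  obtain ⟨p, hp⟩ := Q.dense _ _ h
  obtain ⟨c, h1, h2, -⟩ := exists_coh_dense (fun _ _ => True) (fun _ _ _ _ _ => trivial)
    (fun _ p => ⟨p, le_rfl, trivial⟩) t a p hp
  exact ⟨c, h1, h2⟩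

/-- pull back along a monotone map -/
@[reducible] def comap {J : Type} [Preorder J] (Q : Pres S) (f : J → I) (hf : Monotone f) :
    Pres (S.comap f hf) where
  P j := Q.P (f j)
  ord j := Q.ord (f j)
  em j := Q.em (f j)
  ne j := Q.ne (f j)
  mono := Q.mono
  dense j := Q.dense (f j)
  compat := Q.compat
  pr h := Q.pr (hf h)
  pr_mono h := Q.pr_mono (hf h)
  p_em h := Q.p_em (hf h)
  lift h := Q.lift (hf h)

end Pres

end Pool.Agent.Lib.MP_f79ffc_lc.U
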