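import Pool.Agent.Lib.MP_f79ffc_lc.U.G.Pos
import Pool.Agent.Lib.MP_f79ffc_lc.U.G.Pres

/-! The system of the generator, its presentation and the names of its generic objects. -/

namespace Pool.Agent.Lib.MP_f79ffc_lc.U

open Pool.Agent.Lib.MP_5d9fac_lc Pool.Agent.Lib.MP_f79ffc_lc.R

/-- the indices of the generator system -/
inductive GI {R J : Type} (a : R) (top : J) : Type
  | root (i : R)
  | nd (u : Nd top)

/-- the random nodes of expanded terms -/
inductive KN {J : Type} (top : J) : Type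
  | N
  | M
  | Y
  | C0
  | E (j : J)

/-- the nodes of expanded terms -/
inductive KG {R J : Type} (a : R) (top : J) : Type
  | root (i : R)
  | nd (k : KN top)

section
variable {R J : Type} [Preorder R] [Preorder J] {a : R} {top : J}

/-- the order of `GI` -/
def GI.le : GI a top → GI a top → Prop
  | .root i, .root i' => i ≤ i'
  | .root i, .nd _ => i ≤ a
  | .nd _, .root _ => False
  | .nd u, .nd v => u ≤ v

instance : Preorder (GI a top) where
  le := GI.le
  le_refl u := by cases u <;> exact le_refl _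
  le_trans u v w h h' := by
    cases u <;> cases v <;> cases w <;>
      first | exact h.elim | exact h'.elim | exact h | exact le_trans (α := R) h h' | exact le_trans (α := Nd top) h h'

/-- the order of `KN` -/
def KN.le : KN top → KN top → Prop
  | .N, .N => True
  | .N, .M => True
  | .N, .Y => True
  | .M, .M => True
  | .Y, .Y => True
  | .C0, .C0 => True
  | .C0, .M => True
  | .E j, .E j' => j ≤ j'
  | .E j, .Y => j ≤ top
  | _, _ => False

instance : Preorder (KN top) where
  le := KN.le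
  le_refl u := by cases u <;> simp [KN.le]
  le_trans u v w h h' := by
    cases u <;> cases v <;> cases w <;>
      first | exact trivial | exact h.elim | exact h'.elim | exact h | exact le_trans (α := J) h h'

/-- the order of `KG` -/
def KG.le : KG a top → KG a top → Prop
  | .root i, .root i' => i ≤ i'
  | .root i, .nd _ => i ≤ a
  | .nd _, .root _ => False
  | .nd u, .nd v => u ≤ v

instance : Preorder (KG a top) where
  le := KG.le
  le_refl u := by cases u <;> exact le_refl _
  le_trans u v w h h' := by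
    cases u <;> cases v <;> cases w <;>
      first | exact h.elim | exact h'.elim | exact h | exact le_trans (α := R) h h' | exact le_trans (α := KN top) h h'

/-- the index of the labels seen at a random node -/
@[reducible] def KN.ix : KN top → J
  | .E j => j
  | _ => top

theorem KN.ix_mono {k k' : KN top} (h : k ≤ k') : k.ix ≤ k'.ix := by
  cases k <;> cases k' <;> first | exact le_rfl | exact h.elim | exact h

/-- the points that count at a random node -/
def KN.act : KN top → Sh → Pt → Prop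
  | .Y, σ, x => ¬ σ.O x
  | .E _, σ, x => ¬ σ.O x
  | _, _, _ => True

end

namespace Tp

variable {R J L : Type} [Preorder R] [Preorder J] [Preorder L] (τ : Tp R J L)

/-- the projection to the base algebra -/
def prA (u : Nd τ.top) : Prj (τ.P u) τ.A where
  g c := c.1.a
  ne c := c.2.2
  mono h := h.a
  lift c _ h0 h := ⟨c.cut h0 h, c.cut_le h0 h, le_rfl⟩

/-- the projection between nodes -/
def prj {u v : Nd τ.top} (h : u ≤ v) : Prj (τ.P v) (RO (τ.P u)) :=
  Prj.ofPr (pr h) (pr_mono h) fun m _ hc =>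
    (exists_lift h m hc).imp fun _ H => ⟨H.1, H.2.1⟩

/-- the algebras of the generator system -/
@[reducible] def gX : GI τ.a τ.top → Type
  | .root i => τ.St.X (τ.ρ i)
  | .nd u => RO (τ.P u)

/-- their structure -/
@[reducible] noncomputable def gI : ∀ i, CompleteBooleanAlgebra (τ.gX i)
  | .root i => τ.St.inst (τ.ρ i)
  | .nd u => inferInstanceAs (CompleteBooleanAlgebra (RO (τ.P u)))

attribute [local instance] gI

/-- the arrows of the generator system -/
noncomputable def gE : ∀ {i j : GI τ.a τ.top}, i ≤ j → Hm (τ.gX i) (τ.gX j)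
  | .root _, .root _, h => τ.St.e (τ.ρm h)
  | .root _, .nd u, h => (τ.prA u).hom.comp (τ.St.e (τ.ρm h))
  | .nd _, .root _, h => h.elim
  | .nd _, .nd _, h => (τ.prj h).hom

/-- the condition `m` with the labels of `c` lifted -/
theorem exists_pr_le {u v : Nd τ.top} (h : u ≤ v) (c : τ.P u) : ∃ m : τ.P v, pr h m ≤ c := by
  obtain ⟨m, -, h2, -⟩ := exists_lift h (triv v c.2.2) (c := c)
    ⟨le_rfl, (le_triv c c.2.2 le_rfl).σ, fun _ => Finset.empty_subset _, fun _ _ => le_top,
      fun _ _ => (pj_top (τ.St.inj _)).ge.trans' le_top⟩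
  exact ⟨m, h2⟩

theorem prA_inj (u : Nd τ.top) : Function.Injective (τ.prA u).hom :=
  (τ.prA u).hom_inj fun _ h0 => ⟨triv u h0, le_rfl⟩

theorem prj_inj {u v : Nd τ.top} (h : u ≤ v) : Function.Injective (τ.prj h).hom :=
  (τ.prj h).hom_inj fun _ h0 => by
    obtain ⟨c, hc⟩ := RO.exists_emb_le h0
    obtain ⟨m, hm⟩ := τ.exists_pr_le h c
    exact ⟨m, (RO.emb_mono hm).trans hc⟩

/-- the generator system -/
noncomputable def Sg : Sys (GI τ.a τ.top) where
  X := τ.gX
  inst := τ.gI
  e := τ.gE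
  inj {i j} h := by
    cases i <;> cases j
    · exact τ.St.inj _
    · exact (τ.prA_inj _).comp (τ.St.inj _)
    · exact h.elim
    · exact τ.prj_inj h
  e_refl {i} h x := by
    cases i
    · exact τ.St.e_refl _ x
    · exact Prj.ro_ext fun p => (τ.prj h).emb_le.trans (by
        rw [show (τ.prj h).g p = RO.emb p from congrArg RO.emb (Subtype.ext (pr0_refl h p.1))])
  e_trans {i j k} h h' x := by
    cases i <;> cases j <;> cases k <;> try first | exact h.elim | exact h'.elim
    · exact τ.St.e_trans _ _ x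
    · exact congrArg (τ.prA _).hom (τ.St.e_trans _ _ x)
    · exact Prj.ro_ext fun p => (τ.prj h').emb_le.trans ((τ.prA _).emb_le.trans
        ((τ.prA _).emb_le (m := p)).symm)
    · exact Prj.ro_ext fun p => (τ.prj h').emb_le.trans ((τ.prj h).emb_le.trans (by
        rw [show (τ.prj h).g (pr h' p) = (τ.prj (le_trans (α := Nd τ.top) h h')).g p from
          congrArg RO.emb (Subtype.ext (pr0_pr0 h h' p.1))]
        exact (τ.prj _).emb_le.symm))

/-- the algebra at a tag of the generator block -/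
abbrev Xn (u : Nd τ.top) : Type := τ.Sg.X (.nd u)
/-- the arrow from the base algebra -/
noncomputable abbrev eB (u : Nd τ.top) : Hm (τ.Sg.X (.root τ.a)) (τ.Xn u) :=
  τ.Sg.e (show GI.root τ.a ≤ .nd u from le_refl τ.a)
/-- the arrows inside the generator block -/
noncomputable abbrev eN {u v : Nd τ.top} (h : u ≤ v) : Hm (τ.Xn u) (τ.Xn v) :=
  τ.Sg.e (show GI.nd u ≤ .nd v from h)

variable {τ} in
/-- the element given by a condition -/
def em {u : Nd τ.top} (c : τ.P u) : τ.Xn u := RO.emb c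

section
variable {τ} {u v : Nd τ.top}

theorem em_ne (c : τ.P u) : em c ≠ ⊥ := RO.emb_ne_bot c
theorem em_mono {c c' : τ.P u} (h : c' ≤ c) : em c' ≤ em c := RO.emb_mono h
theorem exists_em_le {x : τ.Xn u} (h : x ≠ ⊥) : ∃ c, em c ≤ x := RO.exists_emb_le h
theorem em_compat {c c' : τ.P u} (h : em c ⊓ em c' ≠ ⊥) : ∃ r, r ≤ c ∧ r ≤ c' := RO.compat h
theorem le_of_em {x y : τ.Xn u} (h : ∀ c, em c ≤ x → ∃ r, r ≤ c ∧ em r ≤ y) : x ≤ y :=
  RO.le_of_dense h
theorem exists_of_em_le {c c' : τ.P u} (h : em c ≤ em c') : ∃ r, r ≤ c ∧ r ≤ c' :=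
  RO.exists_of_emb_le h
theorem exists_of_em_le_iSup {ι : Sort*} {f : ι → τ.Xn u} {c : τ.P u} (h : em c ≤ ⨆ i, f i) :
    ∃ i r, r ≤ c ∧ em r ≤ f i := RO.exists_of_le_iSup h
theorem em_le_eN (h : u ≤ v) {m : τ.P v} {x : τ.Xn u} : em m ≤ τ.eN h x ↔ em (pr h m) ≤ x :=
  (τ.prj h).emb_le
theorem pj_eN (h : u ≤ v) (m : τ.P v) : pj (τ.eN h) (em m) = em (pr h m) := (τ.prj h).pj_emb m
theorem em_le_root {i : R} (h : GI.root i ≤ .nd u) {m : τ.P u} {x : τ.St.X (τ.ρ i)} :
    em m ≤ τ.Sg.e h x ↔ m.1.a ≤ τ.St.e (τ.ρm h) x := (τ.prA u).emb_le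
theorem em_le_eB {m : τ.P u} {x : τ.A} : em m ≤ τ.eB u x ↔ m.1.a ≤ x := by
  rw [em_le_root, τ.St.e_refl]
theorem pj_root {i : R} (h : GI.root i ≤ .nd u) (m : τ.P u) :
    τ.Sg.p h (em m) = τ.St.p (τ.ρm h) m.1.a :=
  eq_of_forall_ge_iff fun _ => pj_le.trans ((em_le_root h).trans pj_le.symm)

/-- the truth value of an open set of conditions -/
noncomputable def op (Q : τ.P u → Prop) : τ.Xn u := ⨆ c : {c // Q c}, em c.1

theorem le_op {Q : τ.P u → Prop} {c : τ.P u} (h : Q c) : em c ≤ op Q :=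
  le_iSup (fun c : {c // Q c} => em c.1) ⟨c, h⟩

theorem op_le {Q : τ.P u → Prop} {x : τ.Xn u} : op Q ≤ x ↔ ∀ c, Q c → em c ≤ x :=
  iSup_le_iff.trans Subtype.forall

theorem exists_of_le_op {Q : τ.P u → Prop} {c : τ.P u} (h : em c ≤ op Q) :
    ∃ r c', r ≤ c ∧ r ≤ c' ∧ Q c' := by
  obtain ⟨c', r, h1, h2⟩ := exists_of_em_le_iSup h
  obtain ⟨r', h3, h4⟩ := exists_of_em_le h2
  exact ⟨r', c'.1, h3.trans h1, h4, c'.2⟩

end

/-- the conditions of the presentation -/
@[reducible] def gP : GI τ.a τ.top → Type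
  | .root i => {x : τ.St.X (τ.ρ i) // x ≠ ⊥}
  | .nd u => τ.P u

/-- their order -/
@[reducible] def gO : ∀ i, Preorder (τ.gP i)
  | .root i => inferInstanceAs (Preorder {x : τ.St.X (τ.ρ i) // x ≠ ⊥})
  | .nd u => inferInstanceAs (Preorder (τ.P u))

/-- their values -/
def gM : ∀ i, τ.gP i → τ.Sg.X i
  | .root _, x => x.1
  | .nd _, c => em c

/-- their projections -/
def gR : ∀ {i j : GI τ.a τ.top}, i ≤ j → τ.gP j → τ.gP i
  | .root _, .root _, h, x => ⟨τ.St.p (τ.ρm h) x.1, pj_ne_bot.2 x.2⟩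
  | .root _, .nd _, h, c => ⟨τ.St.p (τ.ρm h) c.1.a, pj_ne_bot.2 c.2.2⟩
  | .nd _, .root _, h, _ => h.elim
  | .nd _, .nd _, h, c => pr h c

/-- the presentation of the generator system -/
def Pg : Pres τ.Sg where
  P := τ.gP
  ord := τ.gO
  em := τ.gM
  ne i p := by
    cases i
    exacts [p.2, em_ne p]
  mono {i} _ _ h := by
    cases i
    exacts [h, em_mono h]
  dense i x h := by
    cases i
    exacts [⟨⟨x, h⟩, le_rfl⟩, exists_em_le h]
  compat {i} p q h := by
    cases i
    exacts [⟨⟨p.1 ⊓ q.1, h⟩, inf_le_left (a := p.1), inf_le_right (a := p.1)⟩, em_compat h]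
  pr := τ.gR
  pr_mono {i j} h _ _ H := by
    cases i <;> cases j
    exacts [pj_mono _ H, pj_mono _ H.a, h.elim, pr_mono h H]
  p_em {i j} h m := by
    cases i <;> cases j
    exacts [rfl, pj_root h m, h.elim, pj_eN h m]
  lift {i j} h m c H := by
    cases i <;> cases j
    · have e : τ.St.p (τ.ρm h) (m.1 ⊓ τ.St.e (τ.ρm h) c.1) = c.1 :=
        (pj_inf _ _ _).trans (inf_eq_right.2 H)
      exact ⟨⟨_, pj_ne_bot.1 (e ▸ c.2)⟩, inf_le_left (a := m.1), e.le, e.ge⟩
    · have e : τ.St.p (τ.ρm h) (m.1.a ⊓ τ.St.e (τ.ρm h) c.1) = c.1 :=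
        (pj_inf _ _ _).trans (inf_eq_right.2 H)
      exact ⟨P.cut m (pj_ne_bot.1 (e ▸ c.2)) inf_le_left, P.cut_le _ _ _, e.le, e.ge⟩
    · exact h.elim
    · exact exists_lift h m H

/-! ### the nodes of expanded terms -/

/-- the tag below a random node -/
@[reducible] def ku : KN τ.top → Nd τ.top
  | .N => .N
  | .M => .M
  | .Y => .M
  | .C0 => .C τ.bot
  | .E j => .C j

theorem ku_mono {k k' : KN τ.top} (h : k ≤ k') : τ.ku k ≤ τ.ku k' := by
  cases k <;> cases k' <;> first | exact trivial | exact h.elim | exact h | exact τ.bot_le _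

/-- the index of the generator system below a node -/
@[reducible] def ksh : KG τ.a τ.top → GI τ.a τ.top
  | .root i => .root i
  | .nd k => .nd (τ.ku k)

theorem ksh_mono : Monotone τ.ksh := fun u v h => by
  cases u <;> cases v
  exacts [h, h, h.elim, τ.ku_mono h]

/-- the index of the template at a node -/
@[reducible] def ktm : KG τ.a τ.top → L
  | .root i => τ.ρ i
  | .nd k => τ.w k.ix

theorem ktm_mono : Monotone τ.ktm := fun u v h => by
  cases u <;> cases v
  exacts [τ.ρm h, (τ.ρm h).trans (τ.le _), h.elim, τ.wm (KN.ix_mono h)]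

/-- the generator system over the nodes -/
noncomputable abbrev Sk : Sys (KG τ.a τ.top) := τ.Sg.comap τ.ksh τ.ksh_mono
/-- the template over the nodes -/
abbrev Tk : Sys (KG τ.a τ.top) := τ.St.comap τ.ktm τ.ktm_mono

/-! ### names -/

theorem bM : Nd.C τ.bot ≤ (Nd.M : Nd τ.top) := τ.bot_le _
theorem bC (j : J) : Nd.C τ.bot ≤ (Nd.C j : Nd τ.top) := τ.bot_le _
theorem NM : Nd.N ≤ (Nd.M : Nd τ.top) := trivial

/-- `T n = k` -/
noncomputable def th (n k : ℕ) : τ.Xn (.C τ.bot) := op fun c => n < c.1.σ.n ∧ c.1.σ.T n = k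

/-- `k ≤ T n` -/
noncomputable def ge (n k : ℕ) : τ.Xn (.C τ.bot) := ⨆ l, ⨆ _ : k ≤ l, τ.th n l

/-- the cell `t` of the sheet is matched with the root `k` of the core -/
noncomputable def be (t : List Bool) (k : ℕ) : τ.Xn .M := op fun c => (t, k) ∈ c.1.b

/-- the labels seen at a random node -/
def foc : ∀ k : KN τ.top, τ.Cd (τ.ku k).ix → Pt → τ.W k.ix
  | .N, c => c.w2
  | .M, c => c.w2
  | .Y, c => c.w2
  | .C0, c => c.w1
  | .E _, c => c.w2

/-- the condition `c` labels the points of the cell `s` that count below `w` -/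
def LabP (k : KN τ.top) (s : List Bool) (w : τ.W k.ix) (c : τ.P (τ.ku k)) : Prop :=
  ∀ x, In s x → k.act c.1.σ x → τ.foc k c.1 x ⊓ τ.eA _ c.1.a ≤ w

/-- the points of the cell `s` that count are labelled below `w` -/
noncomputable def Lab (k : KN τ.top) (s : List Bool) (w : τ.W k.ix) : τ.Xn (τ.ku k) :=
  op (τ.LabP k s w)

/-- the same at all nodes -/
noncomputable def Lak : ∀ u : KG τ.a τ.top, List Bool → τ.Tk.X u → τ.Sk.X u
  | .root _, _, w => w
  | .nd k, s, w => τ.Lab k s w

/-- the cell `s` of the node `u` is matched with the cell `s'` of the node `v` -/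
noncomputable def lk : KG τ.a τ.top → ∀ v : KG τ.a τ.top, List Bool → List Bool → τ.Sk.X v
  | .root _, _, _, _ => ⊤
  | .nd .C0, .nd .M, s, s' => ⨆ t, ⨆ k, ⨆ r, ⨆ _ : s = root k ++ r ∧ s' = t ++ r, τ.be t k
  | _, _, s, s' => ⨆ _ : s = s', ⊤

/-- cells of random nodes contain a `1` -/
def Cel : KG τ.a τ.top → List Bool → Prop
  | .root _, _ => True
  | .nd _, s => true ∈ s

/-- the slots of `b` force that the cells `D` are matched along the edges -/
def Fit : ∀ {u : KG τ.a τ.top} (t : Tm (KG τ.a τ.top) u), Fam (fun _ => List Bool) t →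
    τ.Sk.Asg t → Prop
  | _, .var u, s, _ => τ.Cel u s
  | u, .emb (j := v) t _ s, D, b => Fit t D.1 b.1 ∧ Fit s D.2 b.2 ∧
      Fam.head t b.1 ≤ τ.lk v u (Fam.head s D.2) (Fam.head t D.1)
  | u, .prj (j := v) t _ s, D, b => Fit t D.1 b.1 ∧ Fit s D.2 b.2 ∧
      Fam.head s b.2 ≤ τ.lk u v (Fam.head t D.1) (Fam.head s D.2)

end Tp

end Pool.Agent.Lib.MP_f79ffc_lc.U
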