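import Pool.Agent.Lib.MP_f79ffc_lc.U.G.Sg

/-! Writing labels. -/

namespace Pool.Agent.Lib.MP_f79ffc_lc.U

open Pool.Agent.Lib.MP_5d9fac_lc Pool.Agent.Lib.MP_f79ffc_lc.R

/-- finitely many dense open sets are met one after the other -/
theorem exists_seq_le {P α : Type} (le : P → P → Prop) (rf : ∀ p, le p p)
    (tr : ∀ p q r, le p q → le q r → le p r) {F : Set α} (hF : F.Finite) (I : P → Prop)
    (Q : α → P → Prop) (op : ∀ i p q, le p q → Q i q → Q i p)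
    (h : ∀ i ∈ F, ∀ p, I p → ∃ q, le q p ∧ I q ∧ Q i q) (p : P) (hp : I p) :
    ∃ q, le q p ∧ I q ∧ ∀ i ∈ F, Q i q := by
  induction F, hF using Set.Finite.induction_on with
  | empty => exact ⟨p, rf p, hp, fun _ h => h.elim⟩
  | insert _ _ ih =>
    obtain ⟨q, h1, h2, h3⟩ := ih fun i hi => h i (Or.inr hi)
    obtain ⟨r, h4, h5, h6⟩ := h _ (Or.inl rfl) q h2
    refine ⟨r, tr _ _ _ h4 h1, h5, ?_⟩
    rintro i (rfl | hi)
    exacts [h6, op _ _ _ h4 (h3 i hi)]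

theorem exists_seq_ne {X α : Type} [CompleteBooleanAlgebra X] {F : Set α} (hF : F.Finite)
    (Q : α → X → Prop) (op : ∀ i p q, p ≤ q → Q i q → Q i p) {a : X} (ha : a ≠ ⊥)
    (h : ∀ i ∈ F, ∀ p, p ≠ ⊥ → p ≤ a → ∃ q, q ≠ ⊥ ∧ q ≤ p ∧ Q i q) :
    ∃ q, q ≠ ⊥ ∧ q ≤ a ∧ ∀ i ∈ F, Q i q := by
  obtain ⟨q, h1, h2, h3⟩ := exists_seq_le (· ≤ ·) le_refl (fun _ _ _ => le_trans) hF
    (fun p => p ≠ ⊥ ∧ p ≤ a) Q op (fun i hi p hp => by
      obtain ⟨q, h1, h2, h3⟩ := h i hi p hp.1 hp.2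
      exact ⟨q, h2, ⟨h1, h2.trans hp.2⟩, h3⟩) a ⟨ha, le_rfl⟩
  exact ⟨q, h2.1, h1, h3⟩

theorem finite_len (n : ℕ) : {r : List Bool | r.length = n}.Finite := List.finite_length_eq _ n

open Classical in
theorem Lv.ite {α : Type} {n : ℕ} {p : Pt → Prop} {f g : Pt → α} (h : Lv n p) (h1 : Lv n f)
    (h2 : Lv n g) : Lv n fun x => if p x then f x else g x := fun x y e => by
  show (if p x then f x else g x) = if p y then f y else g y
  rw [h x y e, h1 x y e, h2 x y e]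

open Classical in
theorem LC.ite {α : Type} {p : Pt → Prop} {f g : Pt → α} (h : LC p) (h1 : LC f) (h2 : LC g) :
    LC fun x => if p x then f x else g x :=
  h.comp₂ (h1.comp₂ h2 Prod.mk) fun (q : Prop) z => if q then z.1 else z.2

theorem Lv.const {α : Type} (n : ℕ) (a : α) : Lv n fun _ => a := fun _ _ _ => rfl

theorem Sh.not_O_far {σ σ' : Sh} {n : ℕ} (h : σ' ≤ σ.up n 0) {s : List Bool} (hs : s.length ≤ n)
    (H : ¬ σ.O (app s z0)) : ¬ σ'.O (app s z0) := by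
  rintro ⟨m, -, h2⟩
  by_cases e : m < σ.n
  · exact H ⟨m, e, ((h.trans (σ.up_le n 0)).2.1 m e) ▸ h2⟩
  · have h3 := h.2.2 m
    rw [σ.up_T n 0 (not_lt.1 e)] at h3
    have h4 := h2 _ le_rfl (by omega)
    rw [app_ge (hs.trans ((le_max_right _ _).trans h3))] at h4
    exact absurd h4 (by simp [z0])

theorem KN.lc_act {J : Type} {top : J} (k : KN top) (σ : Sh) : LC (k.act σ) := by
  cases k <;> first | exact LC.const True | exact σ.lc_O.comp Not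

theorem KN.act_of {J : Type} {top : J} (k : KN top) {σ : Sh} {x : Pt} (h : ¬ σ.O x) :
    k.act σ x := by
  cases k <;> first | exact trivial | exact h

namespace Tp

variable {R J L : Type} [Preorder R] [Preorder J] [Preorder L] {τ : Tp R J L} {k : KN τ.top}
  {u v : Nd τ.top}

theorem eW_eA {j j' : J} (h : j ≤ j') (a : τ.A) : τ.eW h (τ.eA j a) = τ.eA j' a :=
  τ.St.e_trans _ _ a

theorem pA_inf (j : J) (y : τ.W j) (a : τ.A) : τ.pA j (y ⊓ τ.eA j a) = τ.pA j y ⊓ a := pj_inf _ _ _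

theorem pW_inf {j j' : J} (h : j ≤ j') (y : τ.W j') (a : τ.A) :
    τ.pW h (y ⊓ τ.eA j' a) = τ.pW h y ⊓ τ.eA j a := by
  rw [← eW_eA h, pW, pj_inf]

theorem pA_top (j : J) : τ.pA j ⊤ = ⊤ := pj_top (τ.St.inj _)

theorem foc_lc {c : τ.Cd (τ.ku k).ix} (H : Ok (τ.ku k) c) : LC (τ.foc k c) := by
  cases k <;> first | exact H.lc2 | exact H.lc1

theorem foc_z0 {c : τ.Cd (τ.ku k).ix} (H : Ok (τ.ku k) c) : τ.foc k c z0 = ⊤ := by
  cases k <;> first | exact H.z2 | exact H.z1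

theorem le_foc {c : τ.Cd (τ.ku k).ix} (H : Ok (τ.ku k) c) (x : Pt) :
    c.a ≤ τ.pA _ (τ.foc k c x) := by
  cases k <;> first | exact H.le2 x | exact H.le1 x

theorem pA_foc {c : τ.Cd (τ.ku k).ix} (H : Ok (τ.ku k) c) (x : Pt) {a : τ.A} (h : a ≤ c.a) :
    τ.pA _ (τ.foc k c x ⊓ τ.eA _ a) = a :=
  (pA_inf _ _ _).trans (inf_eq_right.2 (h.trans (le_foc H x)))

theorem foc_ne {c : τ.Cd (τ.ku k).ix} (H : Ok (τ.ku k) c) (x : Pt) {a : τ.A} (h : a ≤ c.a)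
    (h0 : a ≠ ⊥) : τ.foc k c x ⊓ τ.eA _ a ≠ ⊥ := pj_ne_bot.1 ((pA_foc H x h).symm ▸ h0)

theorem foc_mono {c c' : τ.Cd (τ.ku k).ix} (h : Le (τ.ku k) c' c) {x : Pt} (e : k.act c'.σ x) :
    τ.foc k c' x ≤ τ.foc k c x := by
  cases k <;> first | exact h.w2 x trivial | exact h.w2 x e | exact h.w1 nofun x

theorem act_of_le {σ σ' : Sh} {x : Pt} (h : τ.ku k ≠ .N → ¬ σ.O x → ¬ σ'.O x) (e : k.act σ x) :
    k.act σ' x := by
  cases k <;> first | exact trivial | exact h nofun e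

theorem act_mono {c c' : τ.Cd (τ.ku k).ix} (h : Le (τ.ku k) c' c) {x : Pt} (e : k.act c'.σ x) :
    k.act c.σ x := act_of_le (fun e' h1 h2 => h1 (h2.mono (h.σ e'))) e

theorem LabP.anti {s : List Bool} {w : τ.W k.ix} {c c' : τ.P (τ.ku k)} (H : τ.LabP k s w c)
    (h : c' ≤ c) : τ.LabP k s w c' := fun x hx e =>
  (inf_le_inf (foc_mono h e) (hm_mono _ h.a)).trans (H x hx (act_mono h e))

theorem exists_op {Q : τ.P u → Prop} (hQ : ∀ c c', Q c → c' ≤ c → Q c') {c : τ.P u}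
    (h : em c ≤ op Q) : ∃ r, r ≤ c ∧ Q r := by
  obtain ⟨r, c', h1, h2, h3⟩ := exists_of_le_op h
  exact ⟨r, h1, hQ _ _ h3 h2⟩

theorem exists_op_eN (h : u ≤ v) {Q : τ.P u → Prop} (hQ : ∀ c c', Q c → c' ≤ c → Q c')
    {m : τ.P v} (H : em m ≤ τ.eN h (op Q)) : ∃ m', m' ≤ m ∧ Q (pr h m') := by
  obtain ⟨r, h1, h2⟩ := exists_op hQ ((em_le_eN h).1 H)
  obtain ⟨m', h3, h4, -⟩ := exists_lift h m h1
  exact ⟨m', h3, hQ _ _ h2 h4⟩

theorem exists_lab {s : List Bool} {w : τ.W k.ix} {c : τ.P (τ.ku k)} (h : em c ≤ τ.Lab k s w) :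
    ∃ r, r ≤ c ∧ τ.LabP k s w r := exists_op (fun _ _ => LabP.anti) h

theorem exists_be {t : List Bool} {l : ℕ} {c : τ.P .M} (h : em c ≤ τ.be t l) :
    ∃ r : τ.P .M, r ≤ c ∧ (t, l) ∈ r.1.b := exists_op (fun _ _ h h' => h'.b rfl h) h

/-- extend the shape -/
def P.shp (c : τ.P u) {σ : Sh} (h : σ ≤ c.1.σ) : τ.P u :=
  ⟨{ c.1 with σ := σ }, ⟨c.2.1.lc1, c.2.1.lc2, c.2.1.z1, c.2.1.z2, c.2.1.le1, c.2.1.le2, by
    have := c.2.1.lk
    cases u <;> first | exact trivial | exact ⟨this.1.mono h, this.2⟩⟩, c.2.2⟩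

theorem P.shp_le (c : τ.P u) {σ : Sh} (h : σ ≤ c.1.σ) : c.shp h ≤ c :=
  ⟨le_rfl, fun _ => h, fun _ => subset_rfl, fun _ _ => le_rfl, fun _ _ => le_rfl⟩

theorem foc_shp (c : τ.P (τ.ku k)) {σ : Sh} (h : σ ≤ c.1.σ) :
    τ.foc k (c.shp h).1 = τ.foc k c.1 := by cases k <;> rfl

/-- replace the base element and the labels seen at the node `k` -/
def setF : ∀ k : KN τ.top, τ.Cd (τ.ku k).ix → τ.A → (Pt → τ.W k.ix) → τ.Cd (τ.ku k).ix
  | .N, c, a, y => { c with a := a, w2 := y }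
  | .M, c, a, y => { c with
      a := a, w2 := y, w1 := fun x' => c.w1 x' ⊓ ⨅ x, ⨅ _ : Link c.b x x', y x }
  | .Y, c, a, y => { c with
      a := a, w2 := y, w1 := fun x' => c.w1 x' ⊓ ⨅ x, ⨅ _ : Link c.b x x', y x }
  | .C0, c, a, y => { c with a := a, w1 := y }
  | .E _, c, a, y => { c with a := a, w2 := y }

section
variable (c : τ.Cd (τ.ku k).ix) (a : τ.A) (y : Pt → τ.W k.ix)

theorem setF_a : (setF k c a y).a = a := by cases k <;> rfl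
theorem setF_σ : (setF k c a y).σ = c.σ := by cases k <;> rfl
theorem setF_b : (setF k c a y).b = c.b := by cases k <;> rfl
theorem foc_setF : τ.foc k (setF k c a y) = y := by cases k <;> rfl

end

/-- the data `a`, `y` may be written on `c` -/
structure Wr (k : KN τ.top) (c : τ.Cd (τ.ku k).ix) (a : τ.A) (y : Pt → τ.W k.ix) : Prop where
  ne : a ≠ ⊥
  la : a ≤ c.a
  lc : LC y
  z : y z0 = ⊤
  le : ∀ x, y x ≤ τ.foc k c x
  pa : ∀ x, a ≤ τ.pA _ (y x)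

theorem ok_setM {c : τ.Cd τ.top} {a : τ.A} {y : Pt → τ.W τ.top} (H : Ok .M c) (h : Wr .M c a y) :
    Ok .M (setF .M c a y) := by
  have e : ∀ x x', Link c.b x x' → (setF .M c a y).w1 x' = y x := fun x x' l =>
    le_antisymm (inf_le_right.trans (iInf₂_le x l)) (le_inf ((h.le x).trans (H.lk.2 x x' l).ge)
      (le_iInf₂ fun z l' => by rw [H.lk.1.left l' l]))
  refine ⟨H.lc1.comp₂ (?_ : LC fun x' => ⨅ x, ⨅ _ : Link c.b x x', y x) (· ⊓ ·), h.lc, ?_, h.z,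
    fun x' => ?_, h.pa, H.lk.1, e⟩
  · simpa only [Link, and_comm] using lc_link c.b (fun p => root p.2) Prod.fst h.lc
  · exact top_unique (le_inf H.z1.ge (le_iInf₂ fun x l => absurd l Link.ne_z0))
  · by_cases e' : ∃ x, Link c.b x x'
    · obtain ⟨x, l⟩ := e'
      rw [e x x' l]
      exact h.pa x
    · exact h.la.trans ((H.le1 x').trans (pj_mono _ (le_inf le_rfl
        (le_iInf₂ fun x l => absurd ⟨x, l⟩ e'))))

theorem ok_setF {c : τ.Cd (τ.ku k).ix} {a : τ.A} {y : Pt → τ.W k.ix} (H : Ok (τ.ku k) c)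
    (h : Wr k c a y) : Ok (τ.ku k) (setF k c a y) := by
  cases k with
  | M => exact ok_setM H h
  | Y => exact ok_setM H ⟨h.ne, h.la, h.lc, h.z, h.le, h.pa⟩
  | C0 => exact ⟨h.lc, H.lc2, h.z, H.z2, h.pa, fun x => h.la.trans (H.le2 x), trivial⟩
  | _ => exact ⟨H.lc1, h.lc, H.z1, h.z, fun x => h.la.trans (H.le1 x), h.pa, trivial⟩

theorem setF_le {c : τ.Cd (τ.ku k).ix} {a : τ.A} {y : Pt → τ.W k.ix} (h : Wr k c a y) :
    Le (τ.ku k) (setF k c a y) c := by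
  cases k with
  | M => exact ⟨h.la, fun _ => le_rfl, fun _ => subset_rfl, fun _ _ => inf_le_left, fun x _ => h.le x⟩
  | Y => exact ⟨h.la, fun _ => le_rfl, fun _ => subset_rfl, fun _ _ => inf_le_left, fun x _ => h.le x⟩
  | C0 => exact ⟨h.la, fun _ => le_rfl, fun _ => subset_rfl, fun _ x => h.le x, fun _ _ => le_rfl⟩
  | _ => exact ⟨h.la, fun _ => le_rfl, fun _ => subset_rfl, fun _ _ => le_rfl, fun x _ => h.le x⟩

/-- the condition after writing -/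
def P.wr (c : τ.P (τ.ku k)) {a : τ.A} {y : Pt → τ.W k.ix} (h : Wr k c.1 a y) : τ.P (τ.ku k) :=
  ⟨setF k c.1 a y, ok_setF c.2.1 h, (setF_a c.1 a y).symm ▸ h.ne⟩

theorem P.wr_le (c : τ.P (τ.ku k)) {a : τ.A} {y : Pt → τ.W k.ix} (h : Wr k c.1 a y) :
    c.wr h ≤ c := setF_le h

theorem exists_wr (c : τ.P (τ.ku k)) {a : τ.A} {y : Pt → τ.W k.ix} (h : Wr k c.1 a y) :
    ∃ c' : τ.P (τ.ku k), c' ≤ c ∧ c'.1.a = a ∧ c'.1.σ = c.1.σ ∧ τ.foc k c'.1 = y :=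
  ⟨c.wr h, c.wr_le h, setF_a _ _ _, setF_σ _ _ _, foc_setF _ _ _⟩

open Classical in
/-- write smaller labels on a locally constant set of points -/
theorem Wr.ite {c : τ.Cd (τ.ku k).ix} (H : Ok (τ.ku k) c) {a : τ.A} (h0 : a ≠ ⊥) (ha : a ≤ c.a)
    {p : Pt → Prop} (hp : LC p) (hz : ¬ p z0) {y : Pt → τ.W k.ix} (hy : LC y)
    (h1 : ∀ x, p x → y x ≤ τ.foc k c x) (h2 : ∀ x, p x → a ≤ τ.pA _ (y x)) :
    Wr k c a fun x => if p x then y x else τ.foc k c x :=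
  ⟨h0, ha, hp.ite hy (foc_lc H), (if_neg hz).trans (foc_z0 H), fun x => by
    by_cases e : p x
    · rw [if_pos e]
      exact h1 x e
    · rw [if_neg e], fun x => by
    by_cases e : p x
    · rw [if_pos e]
      exact h2 x e
    · rw [if_neg e]
      exact ha.trans (le_foc H x)⟩

end Tp

end Pool.Agent.Lib.MP_f79ffc_lc.U
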